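import Mathlib

/-!
Amitsur's lemma on locally linearly dependent operators, and finite rank operators
`x ↦ ∑ a_i x b_i` on division rings of infinite degree.
-/

set_option autoImplicit false

open Finset

namespace Pool.Agent.T9h66.AC

universe u v w

section lin
variable {P : Type u} [Field P] {V : Type v} [AddCommGroup V] [Module P V]
  {W : Type w} [AddCommGroup W] [Module P W]

/-- Maps with values in a finite dimensional subspace. -/
def FR (P : Type u) [Field P] {V : Type v} {W : Type w} [AddCommGroup W] [Module P W]
    (f : V → W) : Prop :=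
  ∃ U : Submodule P W, FiniteDimensional P U ∧ ∀ x, f x ∈ U

theorem perturb [Infinite P] {κ : Type} [Fintype κ] (α β : κ → V) (hα : LinearIndependent P α) :
    ∃ t : P, t ≠ 0 ∧ LinearIndependent P (fun k => α k + t • β k) := by
  classical
  let j := Fintype.linearCombination P α
  have hj : LinearMap.ker j = ⊥ :=
    LinearMap.ker_eq_bot.2 (linearIndependent_iff_injective_fintypeLinearCombination.1 hα)
  obtain ⟨φ, hφ⟩ := j.exists_leftInverse_of_injective hj
  let N : Module.End P (κ → P) := φ ∘ₗ Fintype.linearCombination P β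
  have hfin : ({μ | N.HasEigenvalue μ} ∪ {0} : Set P).Finite :=
    (Module.End.finite_hasEigenvalue N).union (Set.finite_singleton 0)
  obtain ⟨s, hs⟩ := hfin.infinite_compl.nonempty
  have hs1 : ¬ N.HasEigenvalue s := fun h => hs (Or.inl h)
  have hs0 : s ≠ 0 := fun h => hs (Or.inr h)
  refine ⟨-s⁻¹, neg_ne_zero.2 (inv_ne_zero hs0), ?_⟩
  rw [linearIndependent_iff_injective_fintypeLinearCombination, ← LinearMap.ker_eq_bot,
    LinearMap.ker_eq_bot']
  intro c hc
  have h1 : j c + (-s⁻¹) • Fintype.linearCombination P β c = 0 := by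
    rw [← hc]
    simp only [j, Fintype.linearCombination_apply, smul_add, sum_add_distrib, Finset.smul_sum]
    congr 1
    exact sum_congr rfl fun k _ => smul_comm _ _ _
  have h2 := congrArg φ h1
  rw [map_add, map_smul, map_zero] at h2
  have h3 : φ (j c) = c := LinearMap.congr_fun hφ c
  have h4 : N c = s • c := by
    have h5 : N c = φ (Fintype.linearCombination P β c) := rfl
    rw [h3, ← h5] at h2
    have h6 : s⁻¹ • N c = c := by
      rw [neg_smul, ← sub_eq_add_neg, sub_eq_zero] at h2
      exact h2.symm
    rw [← h6, smul_smul, mul_inv_cancel₀ hs0, one_smul, h6]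
  by_contra hne
  exact hs1 (Module.End.hasEigenvalue_of_hasEigenvector
    (Module.End.hasEigenvector_iff.2 ⟨Module.End.mem_eigenspace_iff.2 h4, hne⟩))

theorem amitsur [Infinite P] (n : ℕ) (T : Fin n → V →ₗ[P] W) (U : Submodule P W)
    [FiniteDimensional P U]
    (h : ∀ c : Fin n → P, c ≠ 0 → ¬ FR P (fun x => (∑ i, c i • T i) x)) :
    ∃ y, LinearIndependent P (fun i => U.mkQ (T i y)) := by
  classical
  induction n with
  | zero => exact ⟨0, linearIndependent_empty_type⟩
  | succ n ih =>
    obtain ⟨y₀, hy₀⟩ := ih (fun i => T i.succ) (by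
      intro c hc hfr
      refine h (Fin.cons 0 c) ?_ ?_
      · intro h0
        apply hc
        funext i
        have := congrFun h0 i.succ
        simpa using this
      · simpa [Fin.sum_univ_succ] using hfr)
    have hsplit : ∀ y, (fun i => U.mkQ (T i y)) =
        Fin.cons (U.mkQ (T 0 y)) (fun i : Fin n => U.mkQ (T i.succ y)) := by
      intro y
      funext i
      refine Fin.cases ?_ (fun i => ?_) i
      · rfl
      · rfl
    by_cases hsp : U.mkQ (T 0 y₀) ∈ Submodule.span P (Set.range fun i : Fin n =>
        U.mkQ (T i.succ y₀))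
    · obtain ⟨a, ha⟩ := (Submodule.mem_span_range_iff_exists_fun P).1 hsp
      have hT' : ∀ x, (∑ i, (Fin.cons 1 (-a) : Fin (n + 1) → P) i • T i) x =
          T 0 x - ∑ i, a i • T i.succ x := by
        intro x
        simp [Fin.sum_univ_succ, sub_eq_add_neg]
      have h1 := h (Fin.cons 1 (-a)) (fun h0 => by
        have := congrFun h0 0
        simp at this)
      have h2 : ∃ x, T 0 x - ∑ i, a i • T i.succ x ∉
          U ⊔ Submodule.span P (Set.range fun i : Fin n => T i.succ y₀) := by
        by_contra h2
        push Not at h2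
        refine h1 ⟨U ⊔ Submodule.span P (Set.range fun i : Fin n => T i.succ y₀), ?_, ?_⟩
        · have : FiniteDimensional P
              (Submodule.span P (Set.range fun i : Fin n => T i.succ y₀)) :=
            FiniteDimensional.span_of_finite P (Set.finite_range _)
          infer_instance
        · intro x
          change (∑ i, (Fin.cons 1 (-a) : Fin (n + 1) → P) i • T i) x ∈ _
          rw [hT']
          exact h2 x
      obtain ⟨x, hx⟩ := h2
      have hz : U.mkQ (T 0 x - ∑ i, a i • T i.succ x) ∉
          Submodule.span P (Set.range fun i : Fin n => U.mkQ (T i.succ y₀)) := by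
        intro h3
        apply hx
        obtain ⟨b, hb⟩ := (Submodule.mem_span_range_iff_exists_fun P).1 h3
        have h4 : (T 0 x - ∑ i, a i • T i.succ x) - ∑ i, b i • T i.succ y₀ ∈ U := by
          rw [← Submodule.ker_mkQ U, LinearMap.mem_ker, map_sub, ← hb]
          simp
        have h5 : ∑ i, b i • T i.succ y₀ ∈
            Submodule.span P (Set.range fun i : Fin n => T i.succ y₀) :=
          (Submodule.mem_span_range_iff_exists_fun P).2 ⟨b, rfl⟩
        have := Submodule.add_mem_sup h4 h5
        rwa [sub_add_cancel] at this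
      have h6 := linearIndependent_finCons.2 ⟨hy₀, hz⟩
      obtain ⟨t, ht, h7⟩ := perturb _ (Fin.cons 0 (fun i : Fin n => U.mkQ (T i.succ x)) :
        Fin (n + 1) → W ⧸ U) h6
      have h8 : (fun k => (Fin.cons (U.mkQ (T 0 x - ∑ i, a i • T i.succ x))
          (fun i : Fin n => U.mkQ (T i.succ y₀)) : Fin (n + 1) → W ⧸ U) k +
            t • (Fin.cons 0 (fun i : Fin n => U.mkQ (T i.succ x)) : Fin (n + 1) → W ⧸ U) k) =
          Fin.cons (U.mkQ (T 0 x - ∑ i, a i • T i.succ x))
            (fun i : Fin n => U.mkQ (T i.succ (y₀ + t • x))) := by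
        funext k
        refine Fin.cases ?_ (fun i => ?_) k
        · simp
        · simp
      rw [h8, linearIndependent_finCons] at h7
      refine ⟨y₀ + t • x, ?_⟩
      rw [hsplit, linearIndependent_finCons]
      refine ⟨h7.1, fun h9 => h7.2 ?_⟩
      have h10 : t • U.mkQ (T 0 x - ∑ i, a i • T i.succ x) =
          U.mkQ (T 0 (y₀ + t • x)) - ∑ i, a i • U.mkQ (T i.succ (y₀ + t • x)) := by
        simp only [map_add, map_smul, map_sub, map_sum, smul_add, smul_sub, sum_add_distrib]
        rw [← ha, Finset.smul_sum]
        have : ∑ i, t • a i • U.mkQ (T i.succ x) = ∑ i, a i • t • U.mkQ (T i.succ x) :=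
          sum_congr rfl fun i _ => smul_comm _ _ _
        rw [this]
        abel
      have h11 : t • U.mkQ (T 0 x - ∑ i, a i • T i.succ x) ∈
          Submodule.span P (Set.range fun i : Fin n => U.mkQ (T i.succ (y₀ + t • x))) := by
        rw [h10]
        exact Submodule.sub_mem _ h9
          ((Submodule.mem_span_range_iff_exists_fun P).2 ⟨a, rfl⟩)
      have h12 := Submodule.smul_mem _ t⁻¹ h11
      rwa [smul_smul, inv_mul_cancel₀ ht, one_smul] at h12
    · exact ⟨y₀, by rw [hsplit, linearIndependent_finCons]; exact ⟨hy₀, hsp⟩⟩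

end lin

section div
variable {P : Type u} [Field P] {D : Type v} [DivisionRing D] [Algebra P D]

theorem FR.sub {V : Type w} {f g : V → D} (hf : FR P f) (hg : FR P g) :
    FR P (fun x => f x - g x) := by
  obtain ⟨U, h1, h2⟩ := hf
  obtain ⟨W, h3, h4⟩ := hg
  exact ⟨U ⊔ W, inferInstance, fun x => Submodule.sub_mem _ (Submodule.mem_sup_left (h2 x))
    (Submodule.mem_sup_right (h4 x))⟩

theorem FR.mul {V : Type w} {f : V → D} (hf : FR P f) (d : D) : FR P (fun x => d * f x) := by
  obtain ⟨U, h1, h2⟩ := hf
  exact ⟨U.map (LinearMap.mulLeft P d), inferInstance, fun x => ⟨f x, h2 x, rfl⟩⟩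

theorem FR.comp {V : Type w} {V' : Type w} {f : V → D} (hf : FR P f) (g : V' → V) :
    FR P (fun x => f (g x)) := by
  obtain ⟨U, h1, h2⟩ := hf
  exact ⟨U, h1, fun x => h2 _⟩

theorem fr_zero (hcen : ∀ d : D, (∀ e : D, d * e = e * d) → d ∈ Set.range (algebraMap P D))
    (hinf : ¬ FiniteDimensional P D) {ι : Type} [Fintype ι] {b : ι → D}
    (hb : LinearIndependent P b) (a : ι → D) (h : FR P (fun x : D => ∑ i, a i * x * b i)) :
    a = 0 := by
  classical
  by_contra ha
  have key : ∀ n : ℕ, ∀ a : ι → D, (univ.filter fun i => a i ≠ 0).card = n →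
      FR P (fun x : D => ∑ i, a i * x * b i) → a ≠ 0 → False := by
    intro n
    induction n using Nat.strong_induction_on with
    | _ n ih =>
      intro a hn hfr hne
      obtain ⟨i₀, hi₀⟩ := Function.ne_iff.1 hne
      rw [Pi.zero_apply] at hi₀
      set a' : ι → D := fun i => (a i₀)⁻¹ * a i with ha'
      have hfr' : FR P (fun x : D => ∑ i, a' i * x * b i) := by
        have := hfr.mul (a i₀)⁻¹
        convert this using 2 with x
        rw [Finset.mul_sum]
        exact sum_congr rfl fun i _ => by rw [ha']; simp only [mul_assoc]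
      have ha'1 : a' i₀ = 1 := inv_mul_cancel₀ hi₀
      -- all coefficients are central
      have hc : ∀ d : D, ∀ i, d * a' i = a' i * d := by
        intro d
        by_contra hd
        have hd' : (fun i => d * a' i - a' i * d) ≠ 0 := by
          intro h0
          apply hd
          intro i
          exact sub_eq_zero.1 (congrFun h0 i)
        have hfr'' : FR P (fun x : D => ∑ i, (d * a' i - a' i * d) * x * b i) := by
          have := (hfr'.mul d).sub (hfr'.comp (fun x : D => d * x))
          convert this using 2 with x
          rw [Finset.mul_sum, ← sum_sub_distrib]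
          exact sum_congr rfl fun i _ => by noncomm_ring
        have hcard : (univ.filter fun i => d * a' i - a' i * d ≠ 0).card < n := by
          rw [← hn]
          refine card_lt_card ⟨?_, ?_⟩
          · intro i hi
            rw [mem_filter] at hi ⊢
            refine ⟨mem_univ _, fun h0 => hi.2 ?_⟩
            simp only [ha', h0, mul_zero, zero_mul, sub_zero]
          · intro hsub
            have h1 : i₀ ∈ univ.filter fun i => a i ≠ 0 := mem_filter.2 ⟨mem_univ _, hi₀⟩
            have h2 := (mem_filter.1 (hsub h1)).2
            rw [ha'1] at h2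
            simp at h2
        exact ih _ hcard _ rfl hfr'' hd'
      have hc' : ∀ i, ∃ p : P, algebraMap P D p = a' i := fun i =>
        hcen (a' i) fun e => (hc e i).symm
      choose p hp using hc'
      have hβ : (∑ i, p i • b i) ≠ 0 := by
        intro h0
        have := Fintype.linearIndependent_iff.1 hb p h0 i₀
        have h1 := hp i₀
        rw [this, map_zero, ha'1] at h1
        exact zero_ne_one h1
      obtain ⟨U, hU, hU2⟩ := hfr'
      have htop : U = ⊤ := by
        rw [eq_top_iff]
        intro x _
        have := hU2 (x * (∑ i, p i • b i)⁻¹)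
        have h1 : ∑ i, a' i * (x * (∑ i, p i • b i)⁻¹) * b i = x := by
          have h2 : ∀ i, a' i * (x * (∑ i, p i • b i)⁻¹) * b i =
              (x * (∑ i, p i • b i)⁻¹) * (p i • b i) := by
            intro i
            rw [← hc, ← hp, Algebra.smul_def, mul_assoc]
          simp only [h2]
          rw [← Finset.mul_sum, mul_assoc, inv_mul_cancel₀ hβ, mul_one]
        change ∑ i, a' i * (x * (∑ i, p i • b i)⁻¹) * b i ∈ U at this
        rwa [h1] at this
      rw [htop] at hU
      exact hinf (Module.Finite.equiv (Submodule.topEquiv (R := P) (M := D)))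
  exact key _ a rfl h ha

/-- Amitsur's lemma for division rings: some `y` makes all `v_i` and `v_i y v_j` independent. -/
theorem exists_indep [Infinite P]
    (hcen : ∀ d : D, (∀ e : D, d * e = e * d) → d ∈ Set.range (algebraMap P D))
    (hinf : ¬ FiniteDimensional P D) {ι : Type} [Fintype ι] {v : ι → D}
    (hv : LinearIndependent P v) :
    ∃ y : D, LinearIndependent P (Sum.elim v (fun p : ι × ι => v p.1 * y * v p.2)) := by
  classical
  let U := Submodule.span P (Set.range v)
  have : FiniteDimensional P U := FiniteDimensional.span_of_finite P (Set.finite_range _)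
  let e := Fintype.equivFin (ι × ι)
  let T : ι × ι → D →ₗ[P] D := fun p =>
    (LinearMap.mulRight P (v p.2)) ∘ₗ (LinearMap.mulLeft P (v p.1))
  obtain ⟨y, hy⟩ := amitsur (P := P) (Fintype.card (ι × ι)) (fun k => T (e.symm k)) U (by
    intro c hc hfr
    have h1 : (fun j => ∑ i, c (e (i, j)) • v i) = 0 := by
      apply fr_zero hcen hinf hv
      convert hfr using 2 with x
      rw [LinearMap.sum_apply, ← e.sum_comp, Fintype.sum_prod_type, sum_comm]
      refine sum_congr rfl fun j _ => ?_
      rw [Finset.sum_mul, Finset.sum_mul]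
      refine sum_congr rfl fun i _ => ?_
      simp [T, e]
    apply hc
    funext k
    obtain ⟨⟨i, j⟩, rfl⟩ := e.surjective k
    exact Fintype.linearIndependent_iff.1 hv _ (congrFun h1 j) i)
  refine ⟨y, ?_⟩
  have h2 : LinearIndependent P (fun p : ι × ι => U.mkQ (T p y)) := by
    have := hy.comp e e.injective
    simpa [Function.comp_def] using this
  have hf : LinearIndependent P (fun i => (⟨v i, Submodule.subset_span ⟨i, rfl⟩⟩ : U)) := by
    refine LinearIndependent.of_comp U.subtype ?_
    exact hv
  exact LinearIndependent.sumElim_of_quotient hf (fun p : ι × ι => T p y) h2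

end div

end Pool.Agent.T9h66.AC
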