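import Mathlib

/-!
Iterates and divided powers of a derivation of a commutative ring, given as an additive map.
-/

set_option autoImplicit false

open Finset Nat

namespace Pool.Agent.T9h66.AC

universe u v

variable {A : Type u} [CommRing A] {B : Type v} [CommRing B]

/-- The Leibniz rule. -/
def IsDer (d : A →+ A) : Prop := ∀ a b, d (a * b) = d a * b + a * d b

/-- Iterates of an additive map. -/
def it (d : A →+ A) : ℕ → (A →+ A)
  | 0 => AddMonoidHom.id A
  | n + 1 => d.comp (it d n)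

@[simp] theorem it_zero (d : A →+ A) (a : A) : it d 0 a = a := rfl

theorem it_succ (d : A →+ A) (n : ℕ) (a : A) : it d (n + 1) a = d (it d n a) := rfl

@[simp] theorem it_one (d : A →+ A) (a : A) : it d 1 a = d a := rfl

theorem it_succ' (d : A →+ A) (n : ℕ) (a : A) : it d (n + 1) a = it d n (d a) := by
  induction n with
  | zero => rfl
  | succ n ih => rw [it_succ, ih, it_succ]

theorem it_add (d : A →+ A) (m n : ℕ) (a : A) : it d (m + n) a = it d m (it d n a) := by
  induction m with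
  | zero => rw [Nat.zero_add]; rfl
  | succ m ih => rw [Nat.add_right_comm, it_succ, ih, it_succ]

theorem it_comm1 {d e : A →+ A} (h : ∀ a, d (e a) = e (d a)) (n : ℕ) (a : A) :
    d (it e n a) = it e n (d a) := by
  induction n with
  | zero => rfl
  | succ n ih => rw [it_succ, h, ih, it_succ]

theorem it_comm {d e : A →+ A} (h : ∀ a, d (e a) = e (d a)) (m n : ℕ) (a : A) :
    it d m (it e n a) = it e n (it d m a) := by
  induction m with
  | zero => rfl
  | succ m ih => rw [it_succ, ih, it_comm1 h, it_succ]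

theorem it_map {d : A →+ A} {e : B →+ B} (f : A →+* B) (h : ∀ a, f (d a) = e (f a)) (n : ℕ)
    (a : A) : f (it d n a) = it e n (f a) := by
  induction n with
  | zero => rfl
  | succ n ih => rw [it_succ, it_succ, h, ih]

theorem it_of_zero {d : A →+ A} {a : A} (h : d a = 0) {n : ℕ} (hn : n ≠ 0) : it d n a = 0 := by
  obtain ⟨m, rfl⟩ := Nat.exists_eq_succ_of_ne_zero hn
  rw [Nat.succ_eq_add_one, it_succ', h, map_zero]

theorem IsDer.one {d : A →+ A} (hd : IsDer d) : d 1 = 0 := by
  have h := hd 1 1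
  simp only [mul_one, one_mul] at h
  exact left_eq_add.1 h

theorem it_mul {d : A →+ A} (hd : IsDer d) (n : ℕ) (a b : A) :
    it d n (a * b) = ∑ ij ∈ antidiagonal n, choose n ij.1 • (it d ij.1 a * it d ij.2 b) := by
  induction n with
  | zero => simp
  | succ n ih =>
    rw [sum_antidiagonal_choose_succ_nsmul (M := A) (fun i j => it d i a * it d j b) n]
    simp only [it_succ, ih, map_sum, map_nsmul]
    simp only [hd _ _, smul_add, sum_add_distrib]
    rw [add_comm]
    congr 1
    refine sum_congr rfl fun ⟨i, j⟩ hij ↦ ?_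
    rw [n.choose_symm_of_eq_add (mem_antidiagonal.1 hij).symm]

variable [Algebra ℚ A] [Algebra ℚ B]

/-- Divided powers of an additive map. -/
noncomputable def dp (d : A →+ A) (n : ℕ) : A →+ A where
  toFun a := ((n ! : ℚ)⁻¹) • it d n a
  map_zero' := by simp
  map_add' a b := by simp

theorem dp_apply (d : A →+ A) (n : ℕ) (a : A) : dp d n a = ((n ! : ℚ)⁻¹) • it d n a := rfl

@[simp] theorem dp_zero (d : A →+ A) (a : A) : dp d 0 a = a := by simp [dp_apply]

@[simp] theorem dp_one (d : A →+ A) (a : A) : dp d 1 a = d a := by simp [dp_apply]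

theorem dp_of_zero {d : A →+ A} {a : A} (h : d a = 0) {n : ℕ} (hn : n ≠ 0) : dp d n a = 0 := by
  rw [dp_apply, it_of_zero h hn, smul_zero]

theorem dp_map {d : A →+ A} {e : B →+ B} (f : A →+* B) (h : ∀ a, f (d a) = e (f a)) (n : ℕ)
    (a : A) : f (dp d n a) = dp e n (f a) := by
  rw [dp_apply, dp_apply, map_rat_smul f, it_map f h]

theorem fact_inv_choose {n i j : ℕ} (h : i + j = n) :
    ((n ! : ℚ)⁻¹) * (choose n i : ℚ) = ((i ! : ℚ)⁻¹) * ((j ! : ℚ)⁻¹) := by
  subst h
  have h1 : ((i + j).choose i : ℚ) * i ! * j ! = (i + j)! := by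
    have h0 := Nat.add_choose_mul_factorial_mul_factorial j i
    rw [Nat.add_comm j i] at h0
    have h00 : (i + j).choose i * i ! * j ! = (i + j)! := by
      rw [← h0, mul_right_comm]
    exact_mod_cast h00
  have h2 : ((i ! : ℕ) : ℚ) ≠ 0 := by exact_mod_cast (Nat.factorial_pos i).ne'
  have h3 : ((j ! : ℕ) : ℚ) ≠ 0 := by exact_mod_cast (Nat.factorial_pos j).ne'
  have h4 : (((i + j)! : ℕ) : ℚ) ≠ 0 := by exact_mod_cast (Nat.factorial_pos (i + j)).ne'
  field_simp
  linarith

theorem dp_mul {d : A →+ A} (hd : IsDer d) (n : ℕ) (a b : A) :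
    dp d n (a * b) = ∑ ij ∈ antidiagonal n, dp d ij.1 a * dp d ij.2 b := by
  rw [dp_apply, it_mul hd, Finset.smul_sum]
  refine sum_congr rfl fun ⟨i, j⟩ hij ↦ ?_
  rw [dp_apply, dp_apply, smul_mul_smul_comm, ← fact_inv_choose (mem_antidiagonal.1 hij),
    mul_smul, ← Nat.cast_smul_eq_nsmul ℚ (choose n i)]

theorem dp_dp (d : A →+ A) (m n : ℕ) (a : A) :
    dp d m (dp d n a) = (((m ! : ℚ)⁻¹) * ((n ! : ℚ)⁻¹)) • it d (m + n) a := by
  rw [dp_apply d n a, dp_apply, map_rat_smul (it d m), it_add, mul_smul]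

/-- The trilinear terms of an iterated star product. -/
noncomputable def tri (d e : A →+ A) (p q m : ℕ) (x y z : A) : A :=
  ((p ! : ℚ)⁻¹ * (q ! : ℚ)⁻¹ * (m ! : ℚ)⁻¹) •
    (it d (p + m) x * it d q (it e m y) * it e (p + q) z)

theorem tri_left {d e : A →+ A} (hd : IsDer d) (n m : ℕ) (x y z : A) :
    dp d n (dp d m x * it e m y) * it e n z =
      ∑ pq ∈ antidiagonal n, tri d e pq.1 pq.2 m x y z := by
  rw [dp_mul hd, Finset.sum_mul]
  refine sum_congr rfl fun ⟨p, q⟩ hij ↦ ?_
  have h := mem_antidiagonal.1 hij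
  simp only at h
  subst h
  simp only [dp_dp, dp_apply d q, tri]
  simp only [smul_mul_assoc, mul_smul_comm, smul_smul]
  congr 1
  ring

theorem tri_right {d e : A →+ A} (he : IsDer e) (hde : ∀ a, d (e a) = e (d a))
    (n m : ℕ) (x y z : A) :
    dp d n x * it e n (dp d m y * it e m z) =
      ∑ pq ∈ antidiagonal n, tri d e pq.2 m pq.1 x y z := by
  rw [it_mul he, Finset.mul_sum]
  refine sum_congr rfl fun ⟨p, q⟩ hij ↦ ?_
  have h := mem_antidiagonal.1 hij
  simp only at h
  subst h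
  simp only [dp_apply, tri]
  rw [map_rat_smul (it e p), ← it_add, ← it_comm hde, add_comm p q,
    ← Nat.cast_smul_eq_nsmul ℚ (choose (q + p) p)]
  simp only [smul_mul_assoc, mul_smul_comm, smul_smul]
  have h1 := fact_inv_choose (n := q + p) (i := p) (j := q) (Nat.add_comm _ _)
  rw [show ((choose (q + p) p : ℚ)) * (m ! : ℚ)⁻¹ * ((q + p)! : ℚ)⁻¹ =
    (q ! : ℚ)⁻¹ * (m ! : ℚ)⁻¹ * (p ! : ℚ)⁻¹ by
      rw [mul_right_comm, mul_comm ((choose (q + p) p : ℚ)), h1]; ring]
  rw [mul_assoc (it d (q + p) x)]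

end Pool.Agent.T9h66.AC
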