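import Mathlib

/-!
Series with exponents in `ℚ`, well ordered support and coefficients in an abelian group, together
with a notion of convergence (eventually constant coefficients, bounded supports).
-/

set_option autoImplicit false

open Finset

namespace Pool.Agent.T9h66.AC

universe u v w

/-- Series with exponents in `ℚ` and well ordered support. -/
@[ext]
structure Ser (A : Type u) [AddCommGroup A] where
  /-- the coefficients -/
  c : ℚ → A
  pwo : (Function.support c).IsPWO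

namespace Ser

variable {A : Type u} [AddCommGroup A] {B : Type v} [AddCommGroup B]

theorem c_injective : Function.Injective (Ser.c : Ser A → ℚ → A) := fun _ _ h => Ser.ext h

instance : Zero (Ser A) := ⟨⟨0, by simp⟩⟩
instance : Add (Ser A) :=
  ⟨fun x y => ⟨x.c + y.c, (x.pwo.union y.pwo).mono (Function.support_add _ _)⟩⟩
instance : Neg (Ser A) := ⟨fun x => ⟨-x.c, by simpa only [Function.support_neg] using x.pwo⟩⟩
instance : Sub (Ser A) :=
  ⟨fun x y => ⟨x.c - y.c, (x.pwo.union y.pwo).mono (Function.support_sub _ _)⟩⟩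
instance : SMul ℕ (Ser A) :=
  ⟨fun n x => ⟨n • x.c, x.pwo.mono (Function.support_const_smul_subset n x.c)⟩⟩
instance : SMul ℤ (Ser A) :=
  ⟨fun n x => ⟨n • x.c, x.pwo.mono (Function.support_const_smul_subset n x.c)⟩⟩

instance : AddCommGroup (Ser A) :=
  c_injective.addCommGroup _ rfl (fun _ _ => rfl) (fun _ => rfl) (fun _ _ => rfl)
    (fun _ _ => rfl) (fun _ _ => rfl)

@[simp] theorem c_zero (γ : ℚ) : (0 : Ser A).c γ = 0 := rfl
@[simp] theorem c_add (x y : Ser A) (γ : ℚ) : (x + y).c γ = x.c γ + y.c γ := rfl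
@[simp] theorem c_neg (x : Ser A) (γ : ℚ) : (-x).c γ = -x.c γ := rfl
@[simp] theorem c_sub (x y : Ser A) (γ : ℚ) : (x - y).c γ = x.c γ - y.c γ := rfl

/-- The coefficient as a homomorphism. -/
def cHom (γ : ℚ) : Ser A →+ A where
  toFun x := x.c γ
  map_zero' := rfl
  map_add' _ _ := rfl

@[simp] theorem cHom_apply (γ : ℚ) (x : Ser A) : cHom γ x = x.c γ := rfl

theorem c_sum {ι : Type w} (s : Finset ι) (f : ι → Ser A) (γ : ℚ) :
    (∑ i ∈ s, f i).c γ = ∑ i ∈ s, (f i).c γ := map_sum (cHom γ) f s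

theorem ext' {x y : Ser A} (h : ∀ γ, x.c γ = y.c γ) : x = y := Ser.ext (funext h)

theorem ne_zero_iff {x : Ser A} : x ≠ 0 ↔ (Function.support x.c).Nonempty := by
  rw [Function.support_nonempty_iff]
  constructor
  · intro h h2; exact h (Ser.ext h2)
  · rintro h rfl; exact h rfl

/-- The monomial `a ħ^γ`. -/
def single (γ : ℚ) (a : A) : Ser A :=
  ⟨fun δ => if δ = γ then a else 0, by
    refine (Set.finite_singleton γ).isPWO.mono ?_
    intro δ h
    by_contra h2
    exact h (if_neg h2)⟩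

theorem c_single (γ δ : ℚ) (a : A) : (single γ a).c δ = if δ = γ then a else 0 := rfl

@[simp] theorem c_single_same (γ : ℚ) (a : A) : (single γ a).c γ = a := by simp [c_single]

theorem single_add (γ : ℚ) (a b : A) : single γ (a + b) = single γ a + single γ b := by
  apply ext'; intro δ
  simp only [c_add, c_single]
  split_ifs <;> simp

@[simp] theorem single_zero (γ : ℚ) : single γ (0 : A) = 0 := by
  apply ext'; intro δ; simp [c_single]

/-- `v(x) ≥ m`. -/
def ge (m : ℚ) (x : Ser A) : Prop := ∀ γ, γ < m → x.c γ = 0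

/-- `v(x) > m`. -/
def gt (m : ℚ) (x : Ser A) : Prop := ∀ γ, γ ≤ m → x.c γ = 0

theorem gt.ge {m : ℚ} {x : Ser A} (h : gt m x) : ge m x := fun γ hγ => h γ hγ.le

theorem gt_iff {m : ℚ} {x : Ser A} : gt m x ↔ ge m x ∧ x.c m = 0 := by
  constructor
  · intro h; exact ⟨h.ge, h m le_rfl⟩
  · rintro ⟨h1, h2⟩ γ hγ
    rcases hγ.lt_or_eq with h | rfl
    · exact h1 γ h
    · exact h2

theorem ge.mono {m n : ℚ} {x : Ser A} (h : ge m x) (hn : n ≤ m) : ge n x :=
  fun γ hγ => h γ (hγ.trans_le hn)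

theorem ge_zero (m : ℚ) : ge m (0 : Ser A) := fun _ _ => rfl

theorem ge.add {m : ℚ} {x y : Ser A} (hx : ge m x) (hy : ge m y) : ge m (x + y) :=
  fun γ hγ => by rw [c_add, hx γ hγ, hy γ hγ, add_zero]

theorem ge.neg {m : ℚ} {x : Ser A} (hx : ge m x) : ge m (-x) :=
  fun γ hγ => by rw [c_neg, hx γ hγ, neg_zero]

theorem ge.sub {m : ℚ} {x y : Ser A} (hx : ge m x) (hy : ge m y) : ge m (x - y) :=
  fun γ hγ => by rw [c_sub, hx γ hγ, hy γ hγ, sub_zero]

theorem ge.sum {ι : Type w} {m : ℚ} {s : Finset ι} {f : ι → Ser A} (h : ∀ i ∈ s, ge m (f i)) :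
    ge m (∑ i ∈ s, f i) := by
  intro γ hγ
  rw [c_sum]
  exact Finset.sum_eq_zero fun i hi => h i hi γ hγ

theorem ge_single {m γ : ℚ} (h : m ≤ γ) (a : A) : ge m (single γ a) := by
  intro δ hδ
  rw [c_single, if_neg]
  intro h2; subst h2; exact absurd (h.trans_lt hδ) (lt_irrefl _)

/-- The valuation of a nonzero series. -/
theorem exists_ord {x : Ser A} (hx : x ≠ 0) : ∃ m, ge m x ∧ x.c m ≠ 0 := by
  have h1 := ne_zero_iff.1 hx
  have h2 : (Function.support x.c).IsWF := x.pwo.isWF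
  refine ⟨h2.min h1, fun γ hγ => ?_, h2.min_mem h1⟩
  by_contra h3
  exact h2.not_lt_min h1 h3 hγ

open Classical in
/-- The valuation. -/
noncomputable def ord (x : Ser A) : ℚ := if h : x = 0 then 0 else (exists_ord h).choose

theorem ge_ord (x : Ser A) : ge (ord x) x := by
  unfold ord
  split_ifs with h
  · subst h; exact ge_zero _
  · exact (exists_ord h).choose_spec.1

theorem c_ord {x : Ser A} (h : x ≠ 0) : x.c (ord x) ≠ 0 := by
  unfold ord
  rw [dif_neg h]
  exact (exists_ord h).choose_spec.2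

theorem le_ord {m : ℚ} {x : Ser A} (h : ge m x) (hx : x ≠ 0) : m ≤ ord x := by
  by_contra h2
  exact c_ord hx (h _ (not_le.1 h2))

theorem ge_of_ord_le {m : ℚ} {x : Ser A} (h : m ≤ ord x) : ge m x := (ge_ord x).mono h

theorem lt_ord {m : ℚ} {x : Ser A} (h : gt m x) (hx : x ≠ 0) : m < ord x := by
  by_contra h2
  exact c_ord hx (h _ (not_lt.1 h2))

theorem gt_of_lt_ord {m : ℚ} {x : Ser A} (h : m < ord x) : gt m x :=
  fun γ hγ => ge_ord x γ (hγ.trans_lt h)

theorem ord_eq {m : ℚ} {x : Ser A} (h : ge m x) (h2 : x.c m ≠ 0) : ord x = m := by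
  have hx : x ≠ 0 := by rintro rfl; exact h2 rfl
  apply le_antisymm
  · by_contra h3; exact h2 (ge_ord x _ (not_le.1 h3))
  · exact le_ord h hx

/-! ### Maps -/

/-- Apply a homomorphism to the coefficients. -/
def map (φ : A →+ B) (x : Ser A) : Ser B :=
  ⟨fun γ => φ (x.c γ), x.pwo.mono fun γ h h2 => h (by
    have h3 : x.c γ = 0 := h2
    change φ (x.c γ) = 0
    rw [h3, map_zero])⟩

@[simp] theorem c_map (φ : A →+ B) (x : Ser A) (γ : ℚ) : (map φ x).c γ = φ (x.c γ) := rfl

/-! ### Convergence -/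

section conv
variable {ι : Type w} {l : Filter ι}

/-- `z i` converges to `z₀`: the supports lie in a common well ordered set and all coefficients
are eventually constant. -/
def Conv (l : Filter ι) (z : ι → Ser A) (z₀ : Ser A) : Prop :=
  (∃ S : Set ℚ, S.IsPWO ∧ (∀ i, Function.support (z i).c ⊆ S) ∧ Function.support z₀.c ⊆ S) ∧
    ∀ γ, ∀ᶠ i in l, (z i).c γ = z₀.c γ

theorem Conv.const (z₀ : Ser A) : Conv l (fun _ => z₀) z₀ :=
  ⟨⟨_, z₀.pwo, fun _ => le_rfl, le_rfl⟩, fun _ => Filter.Eventually.of_forall fun _ => rfl⟩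

theorem Conv.add {z w : ι → Ser A} {z₀ w₀ : Ser A} (hz : Conv l z z₀) (hw : Conv l w w₀) :
    Conv l (fun i => z i + w i) (z₀ + w₀) := by
  obtain ⟨⟨S, hS, h1, h2⟩, h3⟩ := hz
  obtain ⟨⟨T, hT, h4, h5⟩, h6⟩ := hw
  refine ⟨⟨S ∪ T, hS.union hT, fun i => ?_, ?_⟩, fun γ => ?_⟩
  · exact (Function.support_add _ _).trans (Set.union_subset_union (h1 i) (h4 i))
  · exact (Function.support_add _ _).trans (Set.union_subset_union h2 h5)
  · filter_upwards [h3 γ, h6 γ] with i h7 h8
    rw [c_add, c_add, h7, h8]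

theorem Conv.neg {z : ι → Ser A} {z₀ : Ser A} (hz : Conv l z z₀) :
    Conv l (fun i => -z i) (-z₀) := by
  obtain ⟨⟨S, hS, h1, h2⟩, h3⟩ := hz
  refine ⟨⟨S, hS, fun i => ?_, ?_⟩, fun γ => ?_⟩
  · change Function.support (-(z i).c) ⊆ S
    rw [Function.support_neg]; exact h1 i
  · change Function.support (-z₀.c) ⊆ S
    rw [Function.support_neg]; exact h2
  · filter_upwards [h3 γ] with i h7
    rw [c_neg, c_neg, h7]

theorem Conv.sub {z w : ι → Ser A} {z₀ w₀ : Ser A} (hz : Conv l z z₀) (hw : Conv l w w₀) :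
    Conv l (fun i => z i - w i) (z₀ - w₀) := by
  simpa only [sub_eq_add_neg] using hz.add hw.neg

theorem Conv.map {z : ι → Ser A} {z₀ : Ser A} (hz : Conv l z z₀) (φ : A →+ B) :
    Conv l (fun i => map φ (z i)) (map φ z₀) := by
  obtain ⟨⟨S, hS, h1, h2⟩, h3⟩ := hz
  refine ⟨⟨S, hS, fun i => ?_, ?_⟩, fun γ => ?_⟩
  · intro γ h; exact h1 i fun h4 => h (by rw [c_map, h4, map_zero])
  · intro γ h; exact h2 fun h4 => h (by rw [c_map, h4, map_zero])
  · filter_upwards [h3 γ] with i h7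
    rw [c_map, c_map, h7]

theorem Conv.unique [l.NeBot] {z : ι → Ser A} {a b : Ser A} (ha : Conv l z a) (hb : Conv l z b) :
    a = b := by
  apply ext'; intro γ
  obtain ⟨i, h1, h2⟩ := ((ha.2 γ).and (hb.2 γ)).exists
  rw [← h1, h2]

theorem Conv.ge [l.NeBot] {z : ι → Ser A} {a : Ser A} (ha : Conv l z a) {m : ℚ}
    (h : ∀ i, ge m (z i)) : Ser.ge m a := by
  intro γ hγ
  obtain ⟨i, h1⟩ := (ha.2 γ).exists
  rw [← h1, h i γ hγ]

/-- The finite truncations of a series converge to it. -/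
theorem conv_trunc (z : Ser A) :
    Conv Filter.atTop (fun E : Finset ℚ => ∑ γ ∈ E, single γ (z.c γ)) z := by
  have hc : ∀ (E : Finset ℚ) (γ : ℚ), (∑ γ ∈ E, single γ (z.c γ)).c γ =
      if γ ∈ E then z.c γ else 0 := by
    intro E γ
    rw [c_sum]
    simp only [c_single]
    rw [Finset.sum_ite_eq]
  refine ⟨⟨Function.support z.c, z.pwo, fun E γ h => ?_, le_rfl⟩, fun γ => ?_⟩
  · rw [Function.mem_support, hc] at h
    intro h2
    apply h
    rw [h2, ite_self]
  · filter_upwards [Filter.eventually_ge_atTop {γ}] with E hE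
    rw [hc, if_pos (hE (Finset.mem_singleton_self γ))]

end conv

end Ser

end Pool.Agent.T9h66.AC
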