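import Mathlib
import Pool.Agent.T9h66.AC.Ser
import Pool.Agent.T9h66.AC.Deriv

/-!
The star product on series with coefficients in a commutative algebra with two commuting
derivations.
-/

set_option autoImplicit false
set_option linter.unusedSectionVars false

open Finset Nat

attribute [-instance] HahnSeries.powerSeriesAlgebra

namespace Pool.Agent.T9h66.AC

universe u v w

/-- Two commuting derivations. -/
class BiDiff (A : Type u) [CommRing A] where
  /-- first derivation -/
  d1 : A →+ A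
  /-- second derivation -/
  d2 : A →+ A
  der1 : IsDer d1
  der2 : IsDer d2
  comm : ∀ a, d1 (d2 a) = d2 (d1 a)

open BiDiff

namespace Ser

variable {A : Type u} [CommRing A]

/-- The underlying Hahn series. -/
def toH (x : Ser A) : HahnSeries ℚ A := ⟨x.c, x.pwo⟩

/-- The series of a Hahn series. -/
def ofH (x : HahnSeries ℚ A) : Ser A := ⟨x.coeff, x.isPWO_support⟩

@[simp] theorem toH_coeff (x : Ser A) (γ : ℚ) : (toH x).coeff γ = x.c γ := rfl
@[simp] theorem ofH_c (x : HahnSeries ℚ A) (γ : ℚ) : (ofH x).c γ = x.coeff γ := rfl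
@[simp] theorem ofH_toH (x : Ser A) : ofH (toH x) = x := rfl
@[simp] theorem toH_ofH (x : HahnSeries ℚ A) : toH (ofH x) = x := rfl

theorem toH_add (x y : Ser A) : toH (x + y) = toH x + toH y := rfl
theorem toH_zero : toH (0 : Ser A) = 0 := rfl
theorem ofH_add (x y : HahnSeries ℚ A) : ofH (x + y) = ofH x + ofH y := rfl
theorem ofH_zero : ofH (0 : HahnSeries ℚ A) = 0 := rfl

theorem map_add' {B : Type v} [AddCommGroup B] (f : A →+ B) (x y : Ser A) :
    map f (x + y) = map f x + map f y := by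
  apply ext'; intro γ; simp

theorem ge_map {B : Type v} [AddCommGroup B] (f : A →+ B) {m : ℚ} {x : Ser A} (h : ge m x) :
    ge m (map f x) := fun γ hγ => by rw [c_map, h γ hγ, map_zero]

/-- The commutative product. -/
noncomputable def cmul (x y : Ser A) : Ser A := ofH (toH x * toH y)

theorem c_cmul {S T : Set ℚ} (hS : S.IsPWO) (hT : T.IsPWO) {x y : Ser A}
    (hx : Function.support x.c ⊆ S) (hy : Function.support y.c ⊆ T) (γ : ℚ) :
    (cmul x y).c γ = ∑ ij ∈ Finset.antidiagonal hS hT γ, x.c ij.1 * y.c ij.2 := by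
  rw [cmul, ofH_c, HahnSeries.coeff_mul]
  refine sum_subset ?_ ?_
  · intro ij h
    rw [Finset.mem_antidiagonal] at h ⊢
    exact ⟨hx h.1, hy h.2.1, h.2.2⟩
  · intro ij h h2
    rw [Finset.mem_antidiagonal] at h h2
    by_contra h3
    apply h2
    refine ⟨fun h4 => h3 ?_, fun h4 => h3 ?_, h.2.2⟩
    · rw [h4, zero_mul]
    · rw [h4, mul_zero]

/-! ### Hahn series with derivations -/

/-- `v(x) ≥ m` for Hahn series. -/
def hge (m : ℚ) (x : HahnSeries ℚ A) : Prop := ∀ γ, γ < m → x.coeff γ = 0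

theorem hge_toH {m : ℚ} {x : Ser A} : hge m (toH x) ↔ ge m x := Iff.rfl

theorem hge.mono {m n : ℚ} {x : HahnSeries ℚ A} (h : hge m x) (hn : n ≤ m) : hge n x :=
  fun γ hγ => h γ (hγ.trans_le hn)

theorem hge.add {m : ℚ} {x y : HahnSeries ℚ A} (hx : hge m x) (hy : hge m y) : hge m (x + y) :=
  fun γ hγ => by rw [HahnSeries.coeff_add, hx γ hγ, hy γ hγ, add_zero]

theorem hge.sub {m : ℚ} {x y : HahnSeries ℚ A} (hx : hge m x) (hy : hge m y) : hge m (x - y) :=
  fun γ hγ => by rw [HahnSeries.coeff_sub, hx γ hγ, hy γ hγ, sub_zero]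

theorem hge.zero {m : ℚ} : hge m (0 : HahnSeries ℚ A) := fun _ _ => rfl

theorem hge.sum {ι : Type w} {m : ℚ} {s : Finset ι} {f : ι → HahnSeries ℚ A}
    (h : ∀ i ∈ s, hge m (f i)) : hge m (∑ i ∈ s, f i) := by
  classical
  induction s using Finset.induction_on with
  | empty => exact hge.zero
  | insert a s ha ih =>
    rw [sum_insert ha]
    exact (h a (mem_insert_self a s)).add (ih fun i hi => h i (mem_insert_of_mem hi))

theorem hge.mul {a b : ℚ} {x y : HahnSeries ℚ A} (hx : hge a x) (hy : hge b y) :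
    hge (a + b) (x * y) := by
  intro γ hγ
  rw [HahnSeries.coeff_mul]
  refine sum_eq_zero fun ij h => ?_
  rw [Finset.mem_antidiagonal] at h
  by_cases h1 : ij.1 < a
  · rw [hx _ h1, zero_mul]
  · rw [hy ij.2 (by linarith [h.2.2]), mul_zero]

/-- Apply an additive map to the coefficients. -/
def hm (f : A →+ A) : HahnSeries ℚ A →+ HahnSeries ℚ A where
  toFun x := toH (map f (ofH x))
  map_zero' := by ext γ; simp
  map_add' x y := by ext γ; simp

@[simp] theorem hm_coeff (f : A →+ A) (x : HahnSeries ℚ A) (γ : ℚ) :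
    (hm f x).coeff γ = f (x.coeff γ) := rfl

theorem hge.hm {m : ℚ} {x : HahnSeries ℚ A} (h : hge m x) (f : A →+ A) : hge m (hm f x) :=
  fun γ hγ => by rw [hm_coeff, h γ hγ, map_zero]

theorem it_hm (f : A →+ A) (n : ℕ) (x : HahnSeries ℚ A) : it (hm f) n x = hm (it f n) x := by
  induction n with
  | zero => rfl
  | succ n ih => rw [it_succ, ih]; rfl

theorem isDer_hm {f : A →+ A} (hf : IsDer f) : IsDer (hm f) := by
  intro x y
  ext γ
  rw [HahnSeries.coeff_add, hm_coeff, HahnSeries.coeff_mul, map_sum]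
  have h1 := c_cmul x.isPWO_support y.isPWO_support (x := ofH (hm f x)) (y := ofH y)
    (fun γ h h2 => h (by rw [ofH_c, hm_coeff, h2, map_zero])) (fun γ h => h) γ
  have h2 := c_cmul x.isPWO_support y.isPWO_support (x := ofH x) (y := ofH (hm f y))
    (fun γ h => h) (fun γ h h2 => h (by rw [ofH_c, hm_coeff, h2, map_zero])) γ
  rw [cmul, ofH_c, toH_ofH, toH_ofH] at h1 h2
  rw [h1, h2, ← sum_add_distrib]
  exact sum_congr rfl fun ij _ => hf _ _

theorem hm_single {f : A →+ A} (hf : IsDer f) (γ : ℚ) : hm f (HahnSeries.single γ 1) = 0 := by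
  ext δ
  rw [hm_coeff, HahnSeries.coeff_single]
  split_ifs
  · exact hf.one
  · exact map_zero f

variable [Algebra ℚ A]

theorem dp_hm (f : A →+ A) (n : ℕ) (x : HahnSeries ℚ A) : dp (hm f) n x = hm (dp f n) x := by
  rw [dp_apply, it_hm]
  ext γ
  simp [dp_apply]

/-- The central element `ħ^n`. -/
noncomputable def hb (n : ℕ) : HahnSeries ℚ A := HahnSeries.single (n : ℚ) 1

theorem hb_add (m n : ℕ) : (hb (m + n) : HahnSeries ℚ A) = hb m * hb n := by
  rw [hb, hb, hb, HahnSeries.single_mul_single, Nat.cast_add, mul_one]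

theorem hge_hb (n : ℕ) : hge (n : ℚ) (hb n : HahnSeries ℚ A) := by
  intro γ hγ
  rw [hb, HahnSeries.coeff_single_of_ne hγ.ne]

theorem it_hb_mul {f : A →+ A} (hf : IsDer f) (n m : ℕ) (x : HahnSeries ℚ A) :
    it (hm f) n (hb m * x) = hb m * it (hm f) n x := by
  induction n with
  | zero => rfl
  | succ n ih => rw [it_succ, ih, isDer_hm hf, hb, hm_single hf, zero_mul, zero_add, it_succ]

theorem dp_hb_mul {f : A →+ A} (hf : IsDer f) (n m : ℕ) (x : HahnSeries ℚ A) :
    dp (hm f) n (hb m * x) = hb m * dp (hm f) n x := by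
  rw [dp_apply, dp_apply, it_hb_mul hf, mul_smul_comm]

theorem hge.it {m : ℚ} {x : HahnSeries ℚ A} (h : hge m x) (f : A →+ A) (n : ℕ) :
    hge m (it (Ser.hm f) n x) := by rw [it_hm]; exact h.hm _

theorem hge.dp {m : ℚ} {x : HahnSeries ℚ A} (h : hge m x) (f : A →+ A) (n : ℕ) :
    hge m (dp (Ser.hm f) n x) := by rw [dp_hm]; exact h.hm _

theorem hge.smul {m : ℚ} {x : HahnSeries ℚ A} (h : hge m x) (q : ℚ) : hge m (q • x) :=
  fun γ hγ => by rw [HahnSeries.coeff_smul, h γ hγ, smul_zero]

theorem hge.tri {a b c : ℚ} {x y z : HahnSeries ℚ A} (hx : hge a x) (hy : hge b y) (hz : hge c z)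
    (f g : A →+ A) (p q m : ℕ) : hge (a + b + c) (tri (Ser.hm f) (Ser.hm g) p q m x y z) := by
  unfold AC.tri
  exact (((hx.it f _).mul ((hy.it g _).it f _)).mul (hz.it g _)).smul _

/-- Rearrangement of a truncated double sum. -/
theorem antidiag_sum {L : ℚ} {N : ℕ} (G : ℕ → ℕ → HahnSeries ℚ A)
    (hG : ∀ p q, N ≤ p + q → hge L (G p q)) :
    hge L (∑ n ∈ range N, ∑ pq ∈ HasAntidiagonal.antidiagonal n, G pq.1 pq.2
      - ∑ p ∈ range N, ∑ q ∈ range N, G p q) := by
  have h1 : ∑ n ∈ range N, ∑ pq ∈ HasAntidiagonal.antidiagonal n, G pq.1 pq.2 =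
      ∑ pq ∈ (range N ×ˢ range N).filter (fun pq => pq.1 + pq.2 < N), G pq.1 pq.2 := by
    rw [← sum_fiberwise_of_maps_to (t := range N) (g := fun pq : ℕ × ℕ => pq.1 + pq.2)]
    · refine sum_congr rfl fun n hn => ?_
      refine sum_congr ?_ fun _ _ => rfl
      ext ⟨p, q⟩
      rw [mem_range] at hn
      simp only [HasAntidiagonal.mem_antidiagonal, mem_filter, mem_product, mem_range]
      omega
    · intro pq h
      rw [mem_filter] at h
      exact mem_range.2 h.2
  rw [h1, ← sum_product' (range N) (range N) G,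
    ← sum_filter_add_sum_filter_not (range N ×ˢ range N) (fun pq => pq.1 + pq.2 < N)
      (fun pq => G pq.1 pq.2), sub_add_cancel_left, neg_eq_zero_sub]
  refine hge.zero.sub (hge.sum fun pq h => ?_)
  rw [mem_filter, not_lt] at h
  exact hG _ _ h.2

variable [BiDiff A]

/-- Truncated star product. -/
noncomputable def hstar (N : ℕ) (x y : HahnSeries ℚ A) : HahnSeries ℚ A :=
  ∑ k ∈ range N, hb k * (dp (hm d1) k x * it (hm d2) k y)

theorem hge.hstar {a b : ℚ} {x y : HahnSeries ℚ A} (hx : hge a x) (hy : hge b y) (N : ℕ) :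
    hge (a + b) (hstar N x y) := by
  refine hge.sum fun k _ => ?_
  refine ((hge_hb k).mul ((hx.dp _ _).mul (hy.it _ _))).mono ?_
  have : (0 : ℚ) ≤ k := Nat.cast_nonneg k
  linarith

theorem hstar_add_left (N : ℕ) (x x' y : HahnSeries ℚ A) :
    hstar N (x + x') y = hstar N x y + hstar N x' y := by
  simp only [hstar, map_add, add_mul, mul_add, sum_add_distrib]

theorem hstar_add_right (N : ℕ) (x y y' : HahnSeries ℚ A) :
    hstar N x (y + y') = hstar N x y + hstar N x y' := by
  simp only [hstar, map_add, mul_add, sum_add_distrib]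

theorem hstar_sub_left (N : ℕ) (x x' y : HahnSeries ℚ A) :
    hstar N (x - x') y = hstar N x y - hstar N x' y := by
  simp only [hstar, map_sub, sub_mul, mul_sub, sum_sub_distrib]

theorem hstar_sub_right (N : ℕ) (x y y' : HahnSeries ℚ A) :
    hstar N x (y - y') = hstar N x y - hstar N x y' := by
  simp only [hstar, map_sub, mul_sub, sum_sub_distrib]

theorem hstar_left (N : ℕ) (x y z : HahnSeries ℚ A) :
    hstar N (hstar N x y) z = ∑ m ∈ range N, ∑ n ∈ range N,
      ∑ pq ∈ HasAntidiagonal.antidiagonal n,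
        hb (pq.1 + pq.2 + m) * tri (hm d1) (hm d2) pq.1 pq.2 m x y z := by
  rw [sum_comm]
  unfold hstar
  refine sum_congr rfl fun n _ => ?_
  rw [map_sum, sum_mul, mul_sum]
  refine sum_congr rfl fun m _ => ?_
  rw [dp_hb_mul der1, mul_assoc, tri_left (isDer_hm der1), ← mul_assoc, ← hb_add, mul_sum]
  refine sum_congr rfl fun pq h => ?_
  rw [HasAntidiagonal.mem_antidiagonal.1 h]

theorem hstar_right (N : ℕ) (x y z : HahnSeries ℚ A) :
    hstar N x (hstar N y z) = ∑ m ∈ range N, ∑ n ∈ range N,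
      ∑ pq ∈ HasAntidiagonal.antidiagonal n,
        hb (pq.1 + pq.2 + m) * tri (hm d1) (hm d2) pq.2 m pq.1 x y z := by
  rw [sum_comm]
  unfold hstar
  refine sum_congr rfl fun n _ => ?_
  rw [map_sum, mul_sum, mul_sum]
  refine sum_congr rfl fun m _ => ?_
  rw [it_hb_mul der2, mul_left_comm _ (hb m), tri_right (isDer_hm der2)
    (fun a => by ext γ; simp [BiDiff.comm]), ← mul_assoc, ← hb_add, mul_sum]
  refine sum_congr rfl fun pq h => ?_
  rw [HasAntidiagonal.mem_antidiagonal.1 h]

theorem hstar_assoc {a b c : ℚ} {x y z : HahnSeries ℚ A} (hx : hge a x) (hy : hge b y)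
    (hz : hge c z) (N : ℕ) :
    hge (a + b + c + N) (hstar N (hstar N x y) z - hstar N x (hstar N y z)) := by
  have key : ∀ p q m p' q' m' : ℕ, N ≤ p' + q' → p' + q' ≤ p + q + m → 
      hge (a + b + c + N) (hb (p + q + m) * tri (hm d1) (hm d2) p q m x y z) := by
    intro p q m p' q' m' h1 h2
    refine ((hge_hb _).mul (hx.tri hy hz d1 d2 p q m)).mono ?_
    have : (N : ℚ) ≤ ((p + q + m : ℕ) : ℚ) := by exact_mod_cast h1.trans h2
    linarith
  have h1 : hge (a + b + c + N) (hstar N (hstar N x y) z - ∑ m ∈ range N,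
      ∑ p ∈ range N, ∑ q ∈ range N,
        hb (p + q + m) * tri (hm d1) (hm d2) p q m x y z) := by
    rw [hstar_left, ← sum_sub_distrib]
    refine hge.sum fun m _ => ?_
    exact antidiag_sum (fun p q => hb (p + q + m) * tri (hm d1) (hm d2) p q m x y z)
      fun p q h => key p q m p q m h (by omega)
  have h2 : hge (a + b + c + N) (hstar N x (hstar N y z) - ∑ m ∈ range N,
      ∑ p ∈ range N, ∑ q ∈ range N,
        hb (p + q + m) * tri (hm d1) (hm d2) q m p x y z) := by
    rw [hstar_right, ← sum_sub_distrib]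
    refine hge.sum fun m _ => ?_
    refine antidiag_sum (fun p q => hb (p + q + m) * tri (hm d1) (hm d2) q m p x y z)
      fun p q h => ?_
    have := key q m p p q m h (by omega)
    rwa [show q + m + p = p + q + m by omega] at this
  have h3 : ∑ m ∈ range N, ∑ p ∈ range N, ∑ q ∈ range N,
        hb (p + q + m) * tri (hm d1) (hm d2) q m p x y z =
      ∑ m ∈ range N, ∑ p ∈ range N, ∑ q ∈ range N,
        hb (p + q + m) * tri (hm d1) (hm d2) p q m x y z := by
    rw [sum_comm]
    refine sum_congr rfl fun p _ => ?_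
    rw [sum_comm]
    refine sum_congr rfl fun q _ => ?_
    refine sum_congr rfl fun m _ => ?_
    rw [show p + q + m = q + m + p by omega]
  rw [h3] at h2
  have := h1.sub h2
  rwa [sub_sub_sub_cancel_right] at this

end Ser

end Pool.Agent.T9h66.AC
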