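import Mathlib
import Pool.Agent.T9h66.AC.Star

/-!
The ring structure given by the star product.
-/

set_option autoImplicit false
set_option linter.unusedSectionVars false

open Finset Nat Pointwise

attribute [-instance] HahnSeries.powerSeriesAlgebra

namespace Pool.Agent.T9h66.AC

universe u v w

open BiDiff

namespace Ser

variable {A : Type u} [CommRing A] [Algebra ℚ A] [BiDiff A]

theorem support_map {B : Type v} [AddCommGroup B] (f : A →+ B) (x : Ser A) :
    Function.support (map f x).c ⊆ Function.support x.c := by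
  intro γ h h2
  exact h (by rw [c_map, h2, map_zero])

/-- The coefficients of the star product. -/
noncomputable def starC (x y : Ser A) (γ : ℚ) : A :=
  ∑ᶠ k : ℕ, (dp (hm d1) k (toH x) * it (hm d2) k (toH y)).coeff (γ - k)

theorem starC_eq {a b : ℚ} {x y : Ser A} (hx : ge a x) (hy : ge b y) {γ : ℚ} {N : ℕ}
    (h : γ < a + b + N) : starC x y γ = (hstar N (toH x) (toH y)).coeff γ := by
  have h1 : ∀ k : ℕ, N ≤ k →
      (dp (hm d1) k (toH x) * it (hm d2) k (toH y)).coeff (γ - k) = 0 := by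
    intro k hk
    have hx' : hge a (toH x) := hx
    have hy' : hge b (toH y) := hy
    refine ((hx'.dp d1 k).mul (hy'.it d2 k)) _ ?_
    have : (N : ℚ) ≤ k := by exact_mod_cast hk
    linarith
  rw [starC, finsum_eq_sum_of_support_subset (s := range N)]
  · rw [hstar, HahnSeries.coeff_sum]
    refine sum_congr rfl fun k _ => ?_
    rw [hb, HahnSeries.coeff_single_mul, one_mul]
  · intro k hk
    by_contra h2
    rw [coe_range, Set.mem_Iio, not_lt] at h2
    exact hk (h1 k h2)

theorem support_starC (x y : Ser A) : Function.support (starC x y) ⊆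
    (Function.support x.c + Function.support y.c) + Set.range (Nat.cast : ℕ → ℚ) := by
  intro γ hγ
  rw [Function.mem_support, starC] at hγ
  have h1 : ∃ k : ℕ, (dp (hm d1) k (toH x) * it (hm d2) k (toH y)).coeff (γ - k) ≠ 0 := by
    by_contra h
    push Not at h
    exact hγ (by simp only [h, finsum_zero])
  obtain ⟨k, hk⟩ := h1
  rw [HahnSeries.coeff_mul] at hk
  obtain ⟨ij, h2, h3⟩ := exists_ne_zero_of_sum_ne_zero hk
  rw [Finset.mem_antidiagonal] at h2
  refine ⟨γ - k, ⟨ij.1, ?_, ij.2, ?_, h2.2.2⟩, k, ⟨k, rfl⟩, by simp⟩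
  · intro h4
    apply h3
    rw [dp_hm, hm_coeff, toH_coeff, h4, map_zero, zero_mul]
  · intro h4
    apply h3
    rw [it_hm _ _ (toH y), hm_coeff, toH_coeff, h4, map_zero, mul_zero]

noncomputable instance : Mul (Ser A) :=
  ⟨fun x y => ⟨starC x y, by
    refine Set.IsPWO.mono ?_ (support_starC x y)
    refine (x.pwo.add y.pwo).add ?_
    rw [← Set.image_univ]
    exact (Set.isPWO_of_wellQuasiOrderedLE _).image_of_monotone Nat.mono_cast⟩⟩

noncomputable instance : One (Ser A) := ⟨single 0 1⟩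

theorem one_def : (1 : Ser A) = single 0 1 := rfl

theorem c_mul {a b : ℚ} {x y : Ser A} (hx : ge a x) (hy : ge b y) {γ : ℚ} {N : ℕ}
    (h : γ < a + b + N) : (x * y).c γ = (hstar N (toH x) (toH y)).coeff γ :=
  starC_eq hx hy h

theorem c_mul' {a b : ℚ} {x y : Ser A} (hx : ge a x) (hy : ge b y) {γ : ℚ} {N : ℕ}
    (h : γ < a + b + N) {S T : Set ℚ} (hS : S.IsPWO) (hT : T.IsPWO)
    (hxS : Function.support x.c ⊆ S) (hyT : Function.support y.c ⊆ T) : (x * y).c γ =
      ∑ k ∈ range N, ∑ ij ∈ Finset.antidiagonal hS hT (γ - k),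
        dp d1 k (x.c ij.1) * it d2 k (y.c ij.2) := by
  rw [c_mul hx hy h, hstar, HahnSeries.coeff_sum]
  refine sum_congr rfl fun k _ => ?_
  rw [hb, HahnSeries.coeff_single_mul, one_mul]
  have h1 := c_cmul hS hT (x := map (dp d1 k) x) (y := map (it d2 k) y)
    ((support_map _ x).trans hxS) ((support_map _ y).trans hyT) (γ - k)
  rw [cmul, ofH_c] at h1
  rw [dp_hm, it_hm]
  exact h1

theorem ge_mul {a b : ℚ} {x y : Ser A} (hx : ge a x) (hy : ge b y) : ge (a + b) (x * y) := by
  intro γ hγ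
  rw [c_mul (N := 0) hx hy (by simpa using hγ)]
  simp [hstar]

theorem lead_mul {a b : ℚ} {x y : Ser A} (hx : ge a x) (hy : ge b y) :
    (x * y).c (a + b) = x.c a * y.c b := by
  rw [c_mul (N := 1) hx hy (by simp)]
  simp only [hstar, range_one, sum_singleton, hb, Nat.cast_zero, dp_zero, it_zero]
  rw [HahnSeries.coeff_single_mul, one_mul, sub_zero, HahnSeries.coeff_mul]
  have h1 : ∀ ij ∈ Finset.antidiagonal (toH x).isPWO_support (toH y).isPWO_support (a + b),
      ij ≠ (a, b) → (toH x).coeff ij.1 * (toH y).coeff ij.2 = 0 := by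
    intro ij hij hne
    rw [Finset.mem_antidiagonal] at hij
    rcases lt_trichotomy ij.1 a with h | h | h
    · rw [toH_coeff, hx _ h, zero_mul]
    · exfalso; apply hne; ext
      · exact h
      · linarith [hij.2.2]
    · rw [toH_coeff y, hy _ (by linarith [hij.2.2]), mul_zero]
  by_cases h2 : (a, b) ∈ Finset.antidiagonal (toH x).isPWO_support (toH y).isPWO_support (a + b)
  · rw [sum_eq_single_of_mem _ h2 h1]
    rfl
  · rw [sum_eq_zero fun ij h => h1 ij h fun h3 => h2 (h3 ▸ h)]
    rw [Finset.mem_antidiagonal] at h2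
    by_cases h3 : x.c a = 0
    · rw [h3, zero_mul]
    · by_cases h4 : y.c b = 0
      · rw [h4, mul_zero]
      · exact absurd ⟨h3, h4, rfl⟩ h2

theorem exists_ge2 (x y : Ser A) : ∃ a, ge a x ∧ ge a y :=
  ⟨min (ord x) (ord y), (ge_ord x).mono (min_le_left _ _), (ge_ord y).mono (min_le_right _ _)⟩

theorem exists_nat_lt (a b : ℚ) : ∃ N : ℕ, a < b + N := by
  obtain ⟨N, hN⟩ := exists_nat_gt (a - b)
  exact ⟨N, by linarith⟩

theorem ext_hge {x y : Ser A} {a : ℚ} (h : ∀ N : ℕ, hge (a + N) (toH x - toH y)) : x = y := by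
  apply ext'
  intro γ
  obtain ⟨N, hN⟩ := exists_nat_lt γ a
  have := h N γ hN
  rw [HahnSeries.coeff_sub, toH_coeff, toH_coeff, sub_eq_zero] at this
  exact this

theorem mul_approx {a b : ℚ} {x y : Ser A} (hx : ge a x) (hy : ge b y) (N : ℕ) :
    hge (a + b + N) (toH (x * y) - hstar N (toH x) (toH y)) := by
  intro γ hγ
  rw [HahnSeries.coeff_sub, toH_coeff, c_mul hx hy hγ, sub_self]

protected theorem add_mul' (x y z : Ser A) : (x + y) * z = x * z + y * z := by
  obtain ⟨a, h1, h2⟩ := exists_ge2 x y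
  obtain ⟨b, h3⟩ : ∃ b, ge b z := ⟨_, ge_ord z⟩
  apply ext'; intro γ
  obtain ⟨N, hN⟩ := exists_nat_lt γ (a + b)
  rw [c_mul (h1.add h2) h3 hN, c_add, c_mul h1 h3 hN, c_mul h2 h3 hN, toH_add, hstar_add_left,
    HahnSeries.coeff_add]

protected theorem mul_add' (x y z : Ser A) : x * (y + z) = x * y + x * z := by
  obtain ⟨a, h1, h2⟩ := exists_ge2 y z
  obtain ⟨b, h3⟩ : ∃ b, ge b x := ⟨_, ge_ord x⟩
  apply ext'; intro γ
  obtain ⟨N, hN⟩ := exists_nat_lt γ (b + a)
  rw [c_mul h3 (h1.add h2) hN, c_add, c_mul h3 h1 hN, c_mul h3 h2 hN, toH_add, hstar_add_right,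
    HahnSeries.coeff_add]

protected theorem mul_assoc' (x y z : Ser A) : x * y * z = x * (y * z) := by
  have hx := ge_ord x
  have hy := ge_ord y
  have hz := ge_ord z
  have hx' : hge (ord x) (toH x) := hx
  have hy' : hge (ord y) (toH y) := hy
  have hz' : hge (ord z) (toH z) := hz
  apply ext_hge (a := ord x + ord y + ord z)
  intro N
  have h1 := mul_approx (ge_mul hx hy) hz N
  have h2 := (mul_approx hx hy N).hstar hz' N
  have h3 := mul_approx hx (ge_mul hy hz) N
  have h4 := hx'.hstar (mul_approx hy hz N) N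
  have h5 := hstar_assoc hx' hy' hz' N
  rw [hstar_sub_left] at h2
  rw [hstar_sub_right] at h4
  have e1 : ord x + (ord y + ord z) + N = ord x + ord y + ord z + N := by ring
  have e2 : ord x + ord y + N + ord z = ord x + ord y + ord z + N := by ring
  have e3 : ord x + (ord y + ord z + N) = ord x + ord y + ord z + N := by ring
  rw [e1] at h3
  rw [e2] at h2
  rw [e3] at h4
  have h6 := (((h1.add h2).add h5).sub h4).sub h3
  convert h6 using 1
  abel

protected theorem one_mul' (x : Ser A) : 1 * x = x := by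
  have h0 : ge 0 (1 : Ser A) := ge_single le_rfl 1
  apply ext'; intro γ
  obtain ⟨N, hN⟩ := exists_nat_lt γ (0 + ord x)
  have hN' : γ < 0 + ord x + (N + 1 : ℕ) := by push_cast; linarith
  rw [c_mul h0 (ge_ord x) hN', hstar, HahnSeries.coeff_sum, sum_range_succ']
  have h1 : toH (1 : Ser A) = HahnSeries.single 0 1 := by
    ext δ; rw [toH_coeff, one_def, c_single, HahnSeries.coeff_single]
    congr
  have h2 : ∀ k : ℕ, k ≠ 0 → dp (hm d1) k (toH (1 : Ser A)) = 0 := by
    intro k hk
    rw [h1]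
    exact dp_of_zero (hm_single der1 0) hk
  rw [sum_eq_zero fun k _ => by rw [h2 (k + 1) (Nat.succ_ne_zero k), zero_mul, mul_zero]; rfl,
    zero_add, dp_zero, it_zero, h1]
  simp [hb]

protected theorem mul_one' (x : Ser A) : x * 1 = x := by
  have h0 : ge 0 (1 : Ser A) := ge_single le_rfl 1
  apply ext'; intro γ
  obtain ⟨N, hN⟩ := exists_nat_lt γ (ord x + 0)
  have hN' : γ < ord x + 0 + (N + 1 : ℕ) := by push_cast; linarith
  rw [c_mul (ge_ord x) h0 hN', hstar, HahnSeries.coeff_sum, sum_range_succ']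
  have h1 : toH (1 : Ser A) = HahnSeries.single 0 1 := by
    ext δ; rw [toH_coeff, one_def, c_single, HahnSeries.coeff_single]
    congr
  have h2 : ∀ k : ℕ, k ≠ 0 → it (hm d2) k (toH (1 : Ser A)) = 0 := by
    intro k hk
    rw [h1]
    exact it_of_zero (hm_single der2 0) hk
  rw [sum_eq_zero fun k _ => by rw [h2 (k + 1) (Nat.succ_ne_zero k), mul_zero, mul_zero]; rfl,
    zero_add, dp_zero, it_zero, h1]
  simp [hb]

noncomputable instance : Ring (Ser A) where
  __ := (inferInstance : AddCommGroup (Ser A))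
  mul_assoc := Ser.mul_assoc'
  one_mul := Ser.one_mul'
  mul_one := Ser.mul_one'
  left_distrib := Ser.mul_add'
  right_distrib := Ser.add_mul'
  zero_mul x := by
    have h := Ser.add_mul' 0 0 x
    rw [add_zero] at h
    exact left_eq_add.1 h
  mul_zero x := by
    have h := Ser.mul_add' x 0 0
    rw [add_zero] at h
    exact left_eq_add.1 h

end Ser

end Pool.Agent.T9h66.AC
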