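import Mathlib
import Pool.Agent.T9h66.AC.StarRing

/-!
Further properties of the star product: functoriality, continuity, central monomials,
commutators.
-/

set_option autoImplicit false
set_option linter.unusedSectionVars false

open Finset Nat Pointwise

attribute [-instance] HahnSeries.powerSeriesAlgebra

namespace Pool.Agent.T9h66.AC

universe u v w

open BiDiff

/-- Homomorphisms of rings with two commuting derivations. -/
structure DHom (A : Type u) (B : Type v) [CommRing A] [BiDiff A] [CommRing B] [BiDiff B] where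
  /-- the ring homomorphism -/
  f : A →+* B
  h1 : ∀ a, f (d1 a) = d1 (f a)
  h2 : ∀ a, f (d2 a) = d2 (f a)

namespace Ser

variable {A : Type u} [CommRing A] [Algebra ℚ A] [BiDiff A]
variable {B : Type v} [CommRing B] [Algebra ℚ B] [BiDiff B]

/-- Functoriality. -/
noncomputable def dmap (f : DHom A B) : Ser A →+* Ser B where
  toFun x := map f.f.toAddMonoidHom x
  map_zero' := by apply ext'; intro γ; simp
  map_add' x y := map_add' _ _ _
  map_one' := by
    apply ext'; intro γ
    rw [c_map, one_def, one_def, c_single, c_single]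
    split_ifs
    · exact map_one f.f
    · exact map_zero f.f
  map_mul' x y := by
    apply ext'; intro γ
    obtain ⟨N, hN⟩ := exists_nat_lt γ (ord x + ord y)
    rw [c_map, c_mul' (ge_ord x) (ge_ord y) hN x.pwo y.pwo le_rfl le_rfl,
      c_mul' (ge_map _ (ge_ord x)) (ge_map _ (ge_ord y)) hN x.pwo y.pwo (support_map _ x)
        (support_map _ y)]
    simp only [map_sum, c_map]
    refine sum_congr rfl fun k _ => sum_congr rfl fun ij _ => ?_
    change f.f (_ * _) = dp d1 k (f.f _) * it d2 k (f.f _)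
    rw [map_mul, dp_map f.f f.h1, it_map f.f f.h2]

@[simp] theorem c_dmap (f : DHom A B) (x : Ser A) (γ : ℚ) : (dmap f x).c γ = f.f (x.c γ) := rfl

theorem dmap_single (f : DHom A B) (γ : ℚ) (a : A) : dmap f (single γ a) = single γ (f.f a) := by
  apply ext'; intro δ
  rw [c_dmap, c_single, c_single]
  split_ifs
  · rfl
  · exact map_zero f.f

theorem ge_dmap (f : DHom A B) {m : ℚ} {x : Ser A} (h : ge m x) : ge m (dmap f x) :=
  ge_map _ h

/-! ### Continuity -/

theorem exists_lb {S : Set ℚ} (hS : S.IsPWO) : ∃ a : ℚ, ∀ γ ∈ S, a ≤ γ := by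
  by_cases h : S.Nonempty
  · exact ⟨hS.isWF.min h, fun γ hγ => hS.isWF.min_le h hγ⟩
  · exact ⟨0, fun γ hγ => absurd ⟨γ, hγ⟩ h⟩

theorem ge_of_support {S : Set ℚ} {a : ℚ} (h : ∀ γ ∈ S, a ≤ γ) {x : Ser A}
    (hx : Function.support x.c ⊆ S) : ge a x := by
  intro γ hγ
  by_contra h2
  exact absurd (h γ (hx h2)) (not_le.2 hγ)

theorem Conv.mul {ι : Type w} {l : Filter ι} {z w : ι → Ser A} {z₀ w₀ : Ser A}
    (hz : Conv l z z₀) (hw : Conv l w w₀) : Conv l (fun i => z i * w i) (z₀ * w₀) := by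
  obtain ⟨⟨S, hS, h1, h2⟩, h3⟩ := hz
  obtain ⟨⟨T, hT, h4, h5⟩, h6⟩ := hw
  refine ⟨⟨(S + T) + Set.range (Nat.cast : ℕ → ℚ), ?_, fun i => ?_, ?_⟩, fun γ => ?_⟩
  · refine (hS.add hT).add ?_
    rw [← Set.image_univ]
    exact (Set.isPWO_of_wellQuasiOrderedLE _).image_of_monotone Nat.mono_cast
  · exact (support_starC _ _).trans (Set.add_subset_add_right (Set.add_subset_add (h1 i) (h4 i)))
  · exact (support_starC _ _).trans (Set.add_subset_add_right (Set.add_subset_add h2 h5))
  · obtain ⟨a, ha⟩ := exists_lb hS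
    obtain ⟨b, hb⟩ := exists_lb hT
    obtain ⟨N, hN⟩ := exists_nat_lt γ (a + b)
    have h7 : ∀ᶠ i in l, ∀ k ∈ range N, ∀ ij ∈ Finset.antidiagonal hS hT (γ - (k : ℕ)),
        (z i).c ij.1 = z₀.c ij.1 ∧ (w i).c ij.2 = w₀.c ij.2 := by
      rw [Filter.eventually_all_finset]
      intro k _
      rw [Filter.eventually_all_finset]
      intro ij _
      exact (h3 _).and (h6 _)
    filter_upwards [h7] with i hi
    rw [c_mul' (ge_of_support ha (h1 i)) (ge_of_support hb (h4 i)) hN hS hT (h1 i) (h4 i),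
      c_mul' (ge_of_support ha h2) (ge_of_support hb h5) hN hS hT h2 h5]
    refine sum_congr rfl fun k hk => sum_congr rfl fun ij hij => ?_
    rw [(hi k hk ij hij).1, (hi k hk ij hij).2]

/-! ### Constant monomials -/

theorem toH_single (γ : ℚ) (q : A) : toH (single γ q) = HahnSeries.single γ q := by
  ext δ; rw [toH_coeff, c_single, HahnSeries.coeff_single]
  congr

theorem hm_single' {f : A →+ A} {q : A} (hf : f q = 0) (γ : ℚ) :
    hm f (HahnSeries.single γ q) = 0 := by
  ext δ
  rw [hm_coeff, HahnSeries.coeff_single]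
  split_ifs
  · exact hf
  · exact map_zero f

theorem c_const_mul {q : A} (h1 : d1 q = 0) (γ δ : ℚ) (x : Ser A) :
    (single γ q * x).c δ = q * x.c (δ - γ) := by
  have h0 : ge γ (single γ q) := ge_single le_rfl q
  obtain ⟨N, hN⟩ := exists_nat_lt δ (γ + ord x)
  have hN' : δ < γ + ord x + (N + 1 : ℕ) := by push_cast; linarith
  rw [c_mul h0 (ge_ord x) hN', hstar, HahnSeries.coeff_sum, sum_range_succ', toH_single]
  rw [sum_eq_zero fun k _ => by
    rw [dp_of_zero (hm_single' h1 γ) (Nat.succ_ne_zero k), zero_mul, mul_zero]; rfl,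
    zero_add, dp_zero, it_zero, hb, HahnSeries.coeff_single_mul, one_mul,
    HahnSeries.coeff_single_mul]
  simp

theorem c_mul_const {q : A} (h2 : d2 q = 0) (γ δ : ℚ) (x : Ser A) :
    (x * single γ q).c δ = x.c (δ - γ) * q := by
  have h0 : ge γ (single γ q) := ge_single le_rfl q
  obtain ⟨N, hN⟩ := exists_nat_lt δ (ord x + γ)
  have hN' : δ < ord x + γ + (N + 1 : ℕ) := by push_cast; linarith
  rw [c_mul (ge_ord x) h0 hN', hstar, HahnSeries.coeff_sum, sum_range_succ', toH_single]
  rw [sum_eq_zero fun k _ => by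
    rw [it_of_zero (hm_single' h2 γ) (Nat.succ_ne_zero k), mul_zero, mul_zero]; rfl,
    zero_add, dp_zero, it_zero, hb, HahnSeries.coeff_single_mul, one_mul,
    HahnSeries.coeff_mul_single]
  simp

theorem const_comm {q : A} (h1 : d1 q = 0) (h2 : d2 q = 0) (γ : ℚ) (x : Ser A) :
    single γ q * x = x * single γ q := by
  apply ext'; intro δ
  rw [c_const_mul h1, c_mul_const h2, mul_comm]

theorem central_of_const {x : Ser A} (h1 : ∀ γ, d1 (x.c γ) = 0) (h2 : ∀ γ, d2 (x.c γ) = 0)
    (y : Ser A) : x * y = y * x := by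
  have e1 : ∀ k : ℕ, k ≠ 0 → dp (hm d1) k (toH x) = 0 := by
    intro k hk
    refine dp_of_zero ?_ hk
    ext γ; exact h1 γ
  have e2 : ∀ k : ℕ, k ≠ 0 → it (hm d2) k (toH x) = 0 := by
    intro k hk
    refine it_of_zero ?_ hk
    ext γ; exact h2 γ
  apply ext'; intro γ
  obtain ⟨N, hN⟩ := exists_nat_lt γ (ord x + ord y)
  have hN' : γ < ord x + ord y + (N + 1 : ℕ) := by push_cast; linarith
  have hN'' : γ < ord y + ord x + (N + 1 : ℕ) := by push_cast; linarith
  rw [c_mul (ge_ord x) (ge_ord y) hN', c_mul (ge_ord y) (ge_ord x) hN'']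
  unfold hstar
  rw [HahnSeries.coeff_sum, HahnSeries.coeff_sum, sum_range_succ', sum_range_succ']
  rw [sum_eq_zero fun k _ => by
    rw [e1 (k + 1) (Nat.succ_ne_zero k), zero_mul, mul_zero]; rfl,
    sum_eq_zero fun k _ => by
    rw [e2 (k + 1) (Nat.succ_ne_zero k), mul_zero, mul_zero]; rfl]
  rw [dp_zero, dp_zero, it_zero, it_zero, mul_comm (toH x)]

/-- The central element `ħ^γ`. -/
noncomputable def hh (γ : ℚ) : Ser A := single γ 1

theorem c_hh_mul (γ δ : ℚ) (x : Ser A) : (hh γ * x).c δ = x.c (δ - γ) := by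
  rw [hh, c_const_mul der1.one, one_mul]

theorem hh_comm (γ : ℚ) (x : Ser A) : hh γ * x = x * hh γ := const_comm der1.one der2.one _ _

theorem hh_zero : (hh 0 : Ser A) = 1 := rfl

theorem hh_mul_single (γ δ : ℚ) (a : A) : hh γ * single δ a = single (γ + δ) a := by
  apply ext'; intro ε
  rw [c_hh_mul, c_single, c_single]
  by_cases h : ε = γ + δ
  · rw [if_pos h, if_pos (by linarith)]
  · rw [if_neg h, if_neg (fun h2 => h (by linarith))]

theorem hh_mul_hh (γ δ : ℚ) : (hh γ * hh δ : Ser A) = hh (γ + δ) := hh_mul_single _ _ _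

theorem hh_pow (γ : ℚ) (n : ℕ) : (hh γ ^ n : Ser A) = hh (n * γ) := by
  induction n with
  | zero => rw [pow_zero, Nat.cast_zero, zero_mul, hh_zero]
  | succ n ih =>
    rw [pow_succ, ih, hh_mul_hh, Nat.cast_succ, add_mul, one_mul]

theorem ge_hh_mul (γ : ℚ) {m : ℚ} {x : Ser A} (h : ge m x) : ge (γ + m) (hh γ * x) :=
  ge_mul (ge_single le_rfl 1) h

theorem ge_hh_mul_iff (γ : ℚ) {m : ℚ} {x : Ser A} : ge (γ + m) (hh γ * x) ↔ ge m x := by
  constructor
  · intro h δ hδ
    have := h (γ + δ) (by linarith)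
    rwa [c_hh_mul, add_sub_cancel_left] at this
  · exact ge_hh_mul γ

theorem dmap_hh (f : DHom A B) (γ : ℚ) : dmap f (hh γ) = hh γ := by
  rw [hh, dmap_single, map_one]; rfl

/-! ### Commutators -/

theorem comm_s1 {s : A} (h1 : d1 s = 1) (h2 : d2 s = 0) (x : Ser A) :
    single 0 s * x - x * single 0 s = hh 1 * map d2 x := by
  apply ext'; intro γ
  have h0 : ge 0 (single 0 s) := ge_single le_rfl s
  obtain ⟨N, hN⟩ := exists_nat_lt γ (ord x)
  have hN1 : γ < 0 + ord x + (N + 2 : ℕ) := by push_cast; linarith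
  have hN2 : γ < ord x + 0 + (N + 2 : ℕ) := by push_cast; linarith
  have e0 : hm d1 (HahnSeries.single (0 : ℚ) s) = HahnSeries.single 0 1 := by
    ext δ
    rw [hm_coeff, HahnSeries.coeff_single, HahnSeries.coeff_single]
    split_ifs
    · exact h1
    · exact map_zero d1
  have e1 : ∀ k : ℕ, dp (hm d1) (k + 1 + 1) (HahnSeries.single (0 : ℚ) s) = 0 := by
    intro k
    rw [dp_apply, it_succ', e0, it_of_zero (hm_single der1 0) (Nat.succ_ne_zero k), smul_zero]
  have e2 : ∀ k : ℕ, it (hm d2) (k + 1) (HahnSeries.single (0 : ℚ) s) = 0 := by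
    intro k
    exact it_of_zero (hm_single' h2 0) (Nat.succ_ne_zero k)
  rw [c_sub, c_mul h0 (ge_ord x) hN1, c_mul (ge_ord x) h0 hN2, c_hh_mul, c_map]
  unfold hstar
  rw [sum_range_succ', sum_range_succ', sum_range_succ' _ (N + 1), toH_single]
  rw [sum_eq_zero fun k _ => by rw [e1, zero_mul, mul_zero],
    sum_eq_zero fun k _ => by rw [e2, mul_zero, mul_zero]]
  simp only [zero_add, dp_zero, it_zero, dp_one, it_one, e0, hb, Nat.cast_zero, Nat.cast_one]
  rw [HahnSeries.coeff_add, mul_comm (toH x), add_sub_cancel_right, HahnSeries.coeff_single_mul,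
    HahnSeries.coeff_single_mul]
  simp

theorem comm_s2 {s : A} (h1 : d1 s = 0) (h2 : d2 s = 1) (x : Ser A) :
    x * single 0 s - single 0 s * x = hh 1 * map d1 x := by
  apply ext'; intro γ
  have h0 : ge 0 (single 0 s) := ge_single le_rfl s
  obtain ⟨N, hN⟩ := exists_nat_lt γ (ord x)
  have hN1 : γ < 0 + ord x + (N + 2 : ℕ) := by push_cast; linarith
  have hN2 : γ < ord x + 0 + (N + 2 : ℕ) := by push_cast; linarith
  have e0 : hm d2 (HahnSeries.single (0 : ℚ) s) = HahnSeries.single 0 1 := by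
    ext δ
    rw [hm_coeff, HahnSeries.coeff_single, HahnSeries.coeff_single]
    split_ifs
    · exact h2
    · exact map_zero d2
  have e1 : ∀ k : ℕ, it (hm d2) (k + 1 + 1) (HahnSeries.single (0 : ℚ) s) = 0 := by
    intro k
    rw [it_succ', e0, it_of_zero (hm_single der2 0) (Nat.succ_ne_zero k)]
  have e2 : ∀ k : ℕ, dp (hm d1) (k + 1) (HahnSeries.single (0 : ℚ) s) = 0 := by
    intro k
    exact dp_of_zero (hm_single' h1 0) (Nat.succ_ne_zero k)
  rw [c_sub, c_mul h0 (ge_ord x) hN1, c_mul (ge_ord x) h0 hN2, c_hh_mul, c_map]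
  unfold hstar
  rw [sum_range_succ', sum_range_succ', sum_range_succ' _ (N + 1), toH_single]
  rw [sum_eq_zero fun k _ => by rw [e1, mul_zero, mul_zero],
    sum_eq_zero fun k _ => by rw [e2, zero_mul, mul_zero]]
  simp only [zero_add, dp_zero, it_zero, dp_one, it_one, e0, hb, Nat.cast_zero, Nat.cast_one]
  rw [HahnSeries.coeff_add, mul_comm (toH x), add_sub_cancel_right, HahnSeries.coeff_single_mul,
    HahnSeries.coeff_mul_single]
  simp

end Ser

end Pool.Agent.T9h66.AC
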