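import Mathlib
import Pool.Agent.T9h66.AC.StarMore

/-!
The approximation lemma for maps between groups of series (spherical completeness), and its
application to inverses.
-/

set_option autoImplicit false
set_option linter.unusedSectionVars false

namespace Pool.Agent.T9h66.AC

universe u v w

open BiDiff

namespace Ser

section
variable {A : Type u} [AddCommGroup A] {B : Type v} [AddCommGroup B]

theorem pseudo_limit (c : Set (Ser A)) (g : Ser A → ℚ)
    (h : ∀ x ∈ c, ∀ y ∈ c, g x ≤ g y → ge (g x) (y - x)) : ∃ z, ∀ x ∈ c, ge (g x) (z - x) := by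
  classical
  have key : ∀ x ∈ c, ∀ y ∈ c, ∀ δ, δ < g x → δ < g y → x.c δ = y.c δ := by
    intro x hx y hy δ h1 h2
    rcases le_total (g x) (g y) with h3 | h3
    · have := h x hx y hy h3 δ h1
      rw [c_sub, sub_eq_zero] at this
      exact this.symm
    · have := h y hy x hx h3 δ h2
      rw [c_sub, sub_eq_zero] at this
      exact this
  let zc : ℚ → A := fun δ => if h : ∃ x ∈ c, δ < g x then h.choose.c δ else 0
  have hz : ∀ x ∈ c, ∀ δ, δ < g x → zc δ = x.c δ := by
    intro x hx δ hδ
    have h1 : ∃ x ∈ c, δ < g x := ⟨x, hx, hδ⟩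
    have h2 : zc δ = h1.choose.c δ := dif_pos h1
    rw [h2]
    exact key _ h1.choose_spec.1 _ hx _ h1.choose_spec.2 hδ
  have hpwo : (Function.support zc).IsPWO := by
    rw [Set.isPWO_iff_isWF, Set.isWF_iff_no_descending_seq]
    intro s hs h1
    have h2 : ∃ x ∈ c, s (OrderDual.toDual 0) < g x := by
      by_contra h2
      exact h1 0 (dif_neg h2)
    obtain ⟨x, hx, h3⟩ := h2
    refine Set.isWF_iff_no_descending_seq.1 x.pwo.isWF s hs fun n => ?_
    have h4 : s (OrderDual.toDual n) < g x := (hs.antitone (Nat.zero_le n)).trans_lt h3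
    intro h5
    exact h1 n ((hz x hx _ h4).trans h5)
  refine ⟨⟨zc, hpwo⟩, fun x hx δ hδ => ?_⟩
  change zc δ - x.c δ = 0
  rw [hz x hx δ hδ, sub_self]

/-- The approximation lemma. -/
theorem exists_zero (f : Ser A → Ser B) (g : Ser A → ℚ)
    (h1 : ∀ x y, f x ≠ 0 → ge (g x) (y - x) → ge (ord (f x)) (f y))
    (h2 : ∀ x, f x ≠ 0 → ∃ y, ge (g x) (y - x) ∧ gt (ord (f x)) (f y)) : ∃ x, f x = 0 := by
  by_contra hne
  push Not at hne
  let r : Ser A → Ser A → Prop := fun x y => x = y ∨ (ge (g x) (y - x) ∧ ord (f x) < ord (f y))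
  have hsymm : ∀ {m : ℚ} {x y : Ser A}, ge m (y - x) → ge m (x - y) := by
    intro m x y h
    have := h.neg
    rwa [neg_sub] at this
  have hmono : ∀ x y, ge (g x) (y - x) → ord (f x) < ord (f y) → g x < g y := by
    intro x y h3 h4
    by_contra h5
    push Not at h5
    have := le_ord (h1 y x (hne y) (hsymm (h3.mono h5))) (hne x)
    exact absurd h4 (not_lt.2 this)
  have htrans : ∀ {a b c : Ser A}, r a b → r b c → r a c := by
    intro a b c hab hbc
    rcases hab with rfl | ⟨h3, h4⟩
    · exact hbc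
    · rcases hbc with rfl | ⟨h5, h6⟩
      · exact Or.inr ⟨h3, h4⟩
      · refine Or.inr ⟨?_, h4.trans h6⟩
        have := (h5.mono (hmono a b h3 h4).le).add h3
        rwa [sub_add_sub_cancel] at this
  have hub : ∀ c : Set (Ser A), IsChain r c → ∃ ub, ∀ a ∈ c, r a ub := by
    intro c hc
    obtain ⟨z, hz⟩ := pseudo_limit c g (by
      intro x hx y hy hxy
      by_cases hxy' : x = y
      · subst hxy'; rw [sub_self]; exact ge_zero _
      · rcases hc hx hy hxy' with h3 | h3
        · rcases h3 with h3 | ⟨h3, _⟩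
          · exact absurd h3 hxy'
          · exact h3
        · rcases h3 with h3 | ⟨h3, h4⟩
          · exact absurd h3.symm hxy'
          · exact absurd (hmono y x h3 h4) (not_lt.2 hxy))
    by_cases hm : ∃ m ∈ c, ∀ a ∈ c, r a m
    · obtain ⟨m, _, hm⟩ := hm
      exact ⟨m, hm⟩
    · push Not at hm
      refine ⟨z, fun a ha => Or.inr ⟨hz a ha, ?_⟩⟩
      obtain ⟨b, hb, hba⟩ := hm a ha
      have hab : a ≠ b := by rintro rfl; exact hba (Or.inl rfl)
      rcases hc ha hb hab with h3 | h3
      · rcases h3 with h3 | ⟨h3, h4⟩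
        · exact absurd h3 hab
        · exact h4.trans_le (le_ord (h1 b z (hne b) (hz b hb)) (hne z))
      · exact absurd h3 hba
  obtain ⟨m, hm⟩ := exists_maximal_of_chains_bounded hub htrans
  obtain ⟨y, h3, h4⟩ := h2 m (hne m)
  have h5 := lt_ord h4 (hne y)
  rcases hm y (Or.inr ⟨h3, h5⟩) with h6 | ⟨_, h6⟩
  · subst h6; exact lt_irrefl _ h5
  · exact lt_asymm h5 h6

end

/-! ### Division rings -/

section
variable {K : Type u} [Field K] [CharZero K] [BiDiff K]

theorem mul_ne_zero' {x y : Ser K} (hx : x ≠ 0) (hy : y ≠ 0) : x * y ≠ 0 := by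
  intro h
  have h1 := lead_mul (ge_ord x) (ge_ord y)
  rw [h, c_zero] at h1
  exact mul_ne_zero (c_ord hx) (c_ord hy) h1.symm

theorem exists_right_inv {a : Ser K} (ha : a ≠ 0) : ∃ x, a * x = 1 := by
  obtain ⟨x, hx⟩ := exists_zero (fun x => 1 - a * x) (fun x => ord (1 - a * x) - ord a) (by
    intro x y hx hxy
    have h1 := ge_mul (ge_ord a) hxy
    rw [add_sub_cancel] at h1
    have h2 := (ge_ord (1 - a * x)).sub h1
    have h3 : 1 - a * x - a * (y - x) = 1 - a * y := by rw [mul_sub]; abel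
    rwa [h3] at h2) (by
    intro x hx
    set e := ord (1 - a * x) with he
    refine ⟨x + single (e - ord a) ((1 - a * x).c e / a.c (ord a)), ?_, ?_⟩
    · rw [add_sub_cancel_left]
      exact ge_single le_rfl _
    · rw [gt_iff, mul_add, ← sub_sub]
      have h1 : ge (ord a + (e - ord a)) (a * single (e - ord a) ((1 - a * x).c e / a.c (ord a))) :=
        ge_mul (ge_ord a) (ge_single le_rfl _)
      have h2 := lead_mul (ge_ord a) (ge_single (le_refl (e - ord a))
        ((1 - a * x).c e / a.c (ord a)))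
      rw [add_sub_cancel] at h1 h2
      refine ⟨(ge_ord _).sub h1, ?_⟩
      rw [c_sub, h2, c_single_same, mul_div_cancel₀ _ (c_ord ha), sub_self])
  exact ⟨x, (sub_eq_zero.1 hx).symm⟩

instance : Nontrivial (Ser K) := by
  refine ⟨0, 1, fun h => ?_⟩
  have := congrArg (fun x : Ser K => x.c 0) h
  rw [one_def] at this
  simp at this

theorem isUnit_or_eq_zero (a : Ser K) : IsUnit a ∨ a = 0 := by
  by_cases ha : a = 0
  · exact Or.inr ha
  · left
    obtain ⟨x, hx⟩ := exists_right_inv ha
    have hx0 : x ≠ 0 := by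
      rintro rfl
      rw [mul_zero] at hx
      exact zero_ne_one hx
    obtain ⟨y, hy⟩ := exists_right_inv hx0
    have : y = a := by
      rw [← one_mul y, ← hx, mul_assoc, hy, mul_one]
    subst this
    exact ⟨⟨y, x, hx, hy⟩, rfl⟩

noncomputable instance : DivisionRing (Ser K) := DivisionRing.ofIsUnitOrEqZero isUnit_or_eq_zero

/-- Central elements have constant coefficients. -/
theorem const_of_central {s1 s2 : K} (h11 : d1 s1 = 1) (h12 : d2 s1 = 0) (h21 : d1 s2 = 0)
    (h22 : d2 s2 = 1) {x : Ser K} (hx : ∀ y, x * y = y * x) (γ : ℚ) :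
    d1 (x.c γ) = 0 ∧ d2 (x.c γ) = 0 := by
  have e1 := comm_s1 h11 h12 x
  have e2 := comm_s2 h21 h22 x
  rw [hx, sub_self] at e1
  rw [hx, sub_self] at e2
  have e3 := congrArg (fun z : Ser K => z.c (γ + 1)) e1
  have e4 := congrArg (fun z : Ser K => z.c (γ + 1)) e2
  simp only [c_hh_mul, c_zero, c_map, add_sub_cancel_right] at e3 e4
  exact ⟨e4.symm, e3.symm⟩

/-- The Heisenberg relation. -/
theorem heisenberg {s1 s2 : K} (h11 : d1 s1 = 1) (h12 : d2 s1 = 0) (h22 : d2 s2 = 1) :
    (hh (-1) * single 0 s1) * single 0 s2 - single 0 s2 * (hh (-1) * single 0 s1) =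
      (1 : Ser K) := by
  have e1 := comm_s1 h11 h12 (single 0 s2)
  have h3 : map d2 (single 0 s2) = (1 : Ser K) := by
    apply ext'; intro γ
    rw [c_map, one_def, c_single, c_single]
    split_ifs
    · exact h22
    · exact map_zero d2
  rw [← mul_assoc (single 0 s2), ← hh_comm, mul_assoc, mul_assoc, ← mul_sub, e1, h3, mul_one,
    hh_mul_hh]
  norm_num
  exact hh_zero

end

end Ser

end Pool.Agent.T9h66.AC
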