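import Mathlib
import Pool.Agent.T9h66.AC.Approx

/-!
Differential polynomial functions, and the property that every nonconstant one has a zero.
-/

set_option autoImplicit false
set_option linter.unusedSectionVars false

namespace Pool.Agent.T9h66.AC

universe u v w

open BiDiff

section pi
variable {Ω : Type w} {A : Type u} [CommRing A] [BiDiff A]

/-- Apply an additive map pointwise. -/
def pw (f : A →+ A) : (Ω → A) →+ (Ω → A) where
  toFun x ω := f (x ω)
  map_zero' := by ext ω; simp
  map_add' x y := by ext ω; simp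

instance : BiDiff (Ω → A) where
  d1 := pw d1
  d2 := pw d2
  der1 a b := by ext ω; exact der1 _ _
  der2 a b := by ext ω; exact der2 _ _
  comm a := by ext ω; exact comm _

@[simp] theorem pi_d1 (x : Ω → A) (ω : Ω) : d1 x ω = d1 (x ω) := rfl
@[simp] theorem pi_d2 (x : Ω → A) (ω : Ω) : d2 x ω = d2 (x ω) := rfl

/-- Constants. -/
def constD (Ω : Type w) (A : Type u) [CommRing A] [BiDiff A] : DHom A (Ω → A) where
  f := Pi.constRingHom Ω A
  h1 _ := rfl
  h2 _ := rfl

/-- Evaluation. -/
def evD (ω : Ω) : DHom (Ω → A) A where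
  f := Pi.evalRingHom _ ω
  h1 _ := rfl
  h2 _ := rfl

@[simp] theorem constD_f (a : A) (ω : Ω) : (constD Ω A).f a ω = a := rfl
@[simp] theorem evD_f (x : Ω → A) (ω : Ω) : (evD ω).f x = x ω := rfl

end pi

variable {K : Type u} [CommRing K] [BiDiff K]

/-- All derivatives of an element. -/
def jet (u : K) (p : ℕ × ℕ) : K := it d1 p.1 (it d2 p.2 u)

theorem d1_jet (u : K) (p : ℕ × ℕ) : d1 (jet u p) = jet u (p.1 + 1, p.2) := rfl

theorem d2_jet (u : K) (p : ℕ × ℕ) : d2 (jet u p) = jet u (p.1, p.2 + 1) := by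
  rw [jet, jet, it_comm1 fun a => (comm a).symm, it_succ]

/-- The homomorphism from polynomials to functions. -/
noncomputable def dpHom (K : Type u) [CommRing K] [BiDiff K] :
    MvPolynomial (ℕ × ℕ) K →+* (K → K) :=
  RingHom.pi fun u => MvPolynomial.eval (jet u)

theorem dpHom_apply (G : MvPolynomial (ℕ × ℕ) K) (u : K) :
    dpHom K G u = MvPolynomial.eval (jet u) G := rfl

/-- The ring of differential polynomial functions. -/
noncomputable def DP (K : Type u) [CommRing K] [BiDiff K] : Subring (K → K) := (dpHom K).range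

theorem const_mem_DP (a : K) : (fun _ => a) ∈ DP K :=
  ⟨MvPolynomial.C a, by ext u; simp [dpHom_apply]⟩

theorem jet_mem_DP (p : ℕ × ℕ) : (fun u => jet u p) ∈ DP K :=
  ⟨MvPolynomial.X p, by ext u; simp [dpHom_apply]⟩

theorem id_mem_DP : (fun u => u) ∈ DP K := jet_mem_DP (0, 0)

theorem der_mem_DP (d : K →+ K) (hd : IsDer d) (h : ∀ p : ℕ × ℕ, (fun u => d (jet u p)) ∈ DP K)
    {x : K → K} (hx : x ∈ DP K) : pw d x ∈ DP K := by
  obtain ⟨G, rfl⟩ := hx
  induction G using MvPolynomial.induction_on with
  | C a =>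
    have : pw d (dpHom K (MvPolynomial.C a)) = fun _ => d a := by
      ext u; simp [pw, dpHom_apply]
    rw [this]
    exact const_mem_DP _
  | add p q hp hq =>
    rw [map_add, map_add]
    exact add_mem hp hq
  | mul_X p n hp =>
    have : pw d (dpHom K (p * MvPolynomial.X n)) =
        pw d (dpHom K p) * (fun u => jet u n) + dpHom K p * (fun u => d (jet u n)) := by
      ext u
      simp only [pw, AddMonoidHom.coe_mk, ZeroHom.coe_mk, dpHom_apply, Pi.add_apply, Pi.mul_apply,
        map_mul, MvPolynomial.eval_X]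
      exact hd _ _
    rw [this]
    exact add_mem (mul_mem hp (jet_mem_DP n)) (mul_mem ⟨p, rfl⟩ (h n))

theorem d1_mem_DP {x : K → K} (hx : x ∈ DP K) : d1 x ∈ DP K :=
  der_mem_DP d1 der1 (fun p => by simp only [d1_jet]; exact jet_mem_DP _) hx

theorem d2_mem_DP {x : K → K} (hx : x ∈ DP K) : d2 x ∈ DP K :=
  der_mem_DP d2 der2 (fun p => by simp only [d2_jet]; exact jet_mem_DP _) hx

/-- Every nonconstant differential polynomial function has a zero. -/
def DC (K : Type u) [CommRing K] [BiDiff K] : Prop :=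
  ∀ G ∈ DP K, (∃ a b, G a ≠ G b) → ∃ u, G u = 0

namespace Ser

/-! ### Series with coefficients in a subring -/

variable {A : Type u} [CommRing A] [Algebra ℚ A] [BiDiff A]

theorem mem_it {E : Subring A} {d : A →+ A} (h : ∀ a ∈ E, d a ∈ E) (n : ℕ) {a : A} (ha : a ∈ E) :
    it d n a ∈ E := by
  induction n with
  | zero => exact ha
  | succ n ih => exact h _ ih

/-- Series with coefficients in a differential subring. -/
noncomputable def subSer (E : Subring A) (h1 : ∀ a ∈ E, d1 a ∈ E) (h2 : ∀ a ∈ E, d2 a ∈ E)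
    (hq : ∀ q : ℚ, ∀ a ∈ E, q • a ∈ E) : Subring (Ser A) where
  carrier := {x | ∀ γ, x.c γ ∈ E}
  mul_mem' := by
    intro x y hx hy γ
    obtain ⟨N, hN⟩ := exists_nat_lt γ (ord x + ord y)
    rw [c_mul' (ge_ord x) (ge_ord y) hN x.pwo y.pwo le_rfl le_rfl]
    refine sum_mem fun k _ => sum_mem fun ij _ => mul_mem (hq _ _ ?_) ?_
    · exact mem_it h1 _ (hx _)
    · exact mem_it h2 _ (hy _)
  one_mem' := by
    intro γ
    rw [one_def, c_single]
    split_ifs
    · exact one_mem E
    · exact zero_mem E
  add_mem' := fun hx hy γ => add_mem (hx γ) (hy γ)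
  zero_mem' := fun γ => zero_mem E
  neg_mem' := fun hx γ => neg_mem (hx γ)

end Ser

/-- Polynomials with coefficients in a subring (noncommutative coefficients allowed). -/
def polySub {R : Type u} [Ring R] (E : Subring R) : Subring (Polynomial R) where
  carrier := {p | ∀ k, p.coeff k ∈ E}
  mul_mem' := by
    intro p q hp hq k
    rw [Polynomial.coeff_mul]
    exact sum_mem fun ij _ => mul_mem (hp _) (hq _)
  one_mem' := by
    intro k
    rw [Polynomial.coeff_one]
    split_ifs
    · exact one_mem E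
    · exact zero_mem E
  add_mem' := by
    intro p q hp hq k
    rw [Polynomial.coeff_add]
    exact add_mem (hp k) (hq k)
  zero_mem' := by
    intro k
    rw [Polynomial.coeff_zero]
    exact zero_mem E
  neg_mem' := by
    intro p hp k
    rw [Polynomial.coeff_neg]
    exact neg_mem (hp k)

end Pool.Agent.T9h66.AC
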