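import Mathlib
import Pool.Agent.T9h66.AC.Jet

/-!
Nonconstant generalized polynomial functions in one variable have zeros.
-/

set_option autoImplicit false
set_option linter.unusedSectionVars false

open Finset

namespace Pool.Agent.T9h66.AC

universe u v w

open BiDiff Polynomial

/-! ### Evaluation of polynomials at central elements -/

/-- Evaluation at a central element. -/
noncomputable def cev {R : Type u} [Ring R] (z : R) (hz : ∀ a : R, Commute a z) : R[X] →+* R :=
  Polynomial.eval₂RingHom' (RingHom.id R) z hz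

theorem cev_C {R : Type u} [Ring R] (z : R) (hz : ∀ a : R, Commute a z) (a : R) :
    cev z hz (C a) = a := by
  simp [cev]

theorem cev_X {R : Type u} [Ring R] (z : R) (hz : ∀ a : R, Commute a z) :
    cev z hz X = z := by
  simp [cev]

theorem cev_eq {R : Type u} [Ring R] (z : R) (hz : ∀ a : R, Commute a z) (q : R[X]) {n : ℕ}
    (hn : q.natDegree < n) : cev z hz q = ∑ k ∈ range n, q.coeff k * z ^ k := by
  have : cev z hz q = Polynomial.eval₂ (RingHom.id R) z q := rfl
  rw [this, Polynomial.eval₂_eq_sum_range' _ hn]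
  rfl

/-- Generalized polynomials evaluated in a ring. -/
noncomputable def ev {D : Type u} [Ring D] {R : Type v} [Ring R] (i : D →+* R) (y : R) :
    FreeAlgebra ℤ (D ⊕ Unit) →ₐ[ℤ] R :=
  FreeAlgebra.lift ℤ (Sum.elim i (fun _ => y))

theorem ev_inl {D : Type u} [Ring D] {R : Type v} [Ring R] (i : D →+* R) (y : R) (d : D) :
    ev i y (FreeAlgebra.ι ℤ (Sum.inl d)) = i d := by
  simp [ev]

theorem ev_inr {D : Type u} [Ring D] {R : Type v} [Ring R] (i : D →+* R) (y : R) (d : Unit) :
    ev i y (FreeAlgebra.ι ℤ (Sum.inr d)) = y := by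
  simp [ev]

theorem map_ev {D : Type u} [Ring D] {R : Type v} [Ring R] {S : Type w} [Ring S] (i : D →+* R)
    (y : R) (f : R →+* S) (g : FreeAlgebra ℤ (D ⊕ Unit)) :
    f (ev i y g) = ev (f.comp i) (f y) g := by
  have h : (f.toIntAlgHom).comp (ev i y) = ev (f.comp i) (f y) := by
    apply FreeAlgebra.hom_ext
    funext x
    rcases x with x | x
    · simp [ev]
    · simp [ev]
  exact DFunLike.congr_fun h g

namespace Ser

variable {K : Type u} [Field K] [CharZero K] [BiDiff K]

theorem d1_rat (t : ℚ) : d1 (t : K) = 0 := by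
  have h := map_rat_smul (d1 : K →+ K) t (1 : K)
  rw [der1.one, smul_zero] at h
  rwa [Rat.smul_def, mul_one] at h

theorem d2_rat (t : ℚ) : d2 (t : K) = 0 := by
  have h := map_rat_smul (d2 : K →+ K) t (1 : K)
  rw [der2.one, smul_zero] at h
  rwa [Rat.smul_def, mul_one] at h

/-- Rational scalars as central elements. -/
noncomputable def tau (t : ℚ) : Ser K := single 0 (t : K)

theorem tau_comm (t : ℚ) (x : Ser K) : Commute x (tau t) :=
  (const_comm (d1_rat t) (d2_rat t) 0 x).symm

theorem hh_comm' {A : Type u} [CommRing A] [Algebra ℚ A] [BiDiff A] (γ : ℚ) (x : Ser A) :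
    Commute x (hh γ) := (hh_comm γ x).symm

theorem c_mul_tau (t : ℚ) (x : Ser K) (δ : ℚ) : (x * tau t).c δ = x.c δ * t := by
  rw [tau, c_mul_const (d2_rat t), sub_zero]

theorem tau_pow (t : ℚ) (n : ℕ) : (tau t ^ n : Ser K) = tau (t ^ n) := by
  induction n with
  | zero =>
    rw [pow_zero, pow_zero, tau, Rat.cast_one]; rfl
  | succ n ih =>
    rw [pow_succ, ih]
    apply ext'; intro δ
    rw [c_mul_tau, tau, tau, c_single, c_single]
    split_ifs
    · push_cast; ring
    · ring

theorem c_cev_tau (t : ℚ) (q : (Ser K)[X]) (δ : ℚ) {n : ℕ} (hn : q.natDegree < n) :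
    (cev (tau t) (tau_comm t) q).c δ = ∑ k ∈ range n, (q.coeff k).c δ * (t : K) ^ k := by
  rw [cev_eq _ _ _ hn, c_sum]
  refine sum_congr rfl fun k _ => ?_
  rw [tau_pow, c_mul_tau, Rat.cast_pow]

/-- A polynomial with infinitely many rational zeros vanishes. -/
theorem vander {a : ℕ → K} {n : ℕ} (h : ∀ t : ℚ, ∑ k ∈ range n, a k * (t : K) ^ k = 0) {k : ℕ}
    (hk : k < n) : a k = 0 := by
  let p : K[X] := ∑ k ∈ range n, monomial k (a k)
  have h1 : p = 0 := by
    apply Polynomial.eq_zero_of_infinite_isRoot
    refine Set.Infinite.mono (s := Set.range (fun t : ℚ => (t : K))) ?_ ?_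
    · rintro _ ⟨t, rfl⟩
      simp only [Set.mem_ofPred_eq, IsRoot.def, p, Polynomial.eval_finsetSum, eval_monomial]
      exact h t
    · exact Set.infinite_range_of_injective Rat.cast_injective
  have h2 : p.coeff k = a k := by
    simp only [p, Polynomial.finsetSum_coeff, coeff_monomial]
    rw [Finset.sum_ite_eq', if_pos (mem_range.2 hk)]
  rw [← h2, h1, coeff_zero]

theorem ge_coeff {m : ℚ} {q : (Ser K)[X]} (h : ∀ t : ℚ, ge m (cev (tau t) (tau_comm t) q))
    (k : ℕ) : ge m (q.coeff k) := by
  intro δ hδ
  by_cases hk : k < q.natDegree + 1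
  · refine vander (a := fun k => (q.coeff k).c δ) (n := q.natDegree + 1) ?_ hk
    intro t
    rw [← c_cev_tau t q δ (Nat.lt_succ_self _)]
    exact h t δ hδ
  · rw [Polynomial.coeff_eq_zero_of_natDegree_lt (by omega)]
    rfl

theorem ge_one' : ge 0 (1 : Ser K) := ge_single le_rfl 1

theorem ge_pow {z : Ser K} (hz : ge 0 z) (k : ℕ) : ge 0 (z ^ k) := by
  induction k with
  | zero => rw [pow_zero]; exact ge_one'
  | succ k ih =>
    rw [pow_succ]
    have := ge_mul ih hz
    rwa [add_zero] at this

theorem ge_cev {m : ℚ} {q : (Ser K)[X]} (h : ∀ k, ge m (q.coeff k)) {z : Ser K}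
    (hz : ∀ a, Commute a z) (hz0 : ge 0 z) : ge m (cev z hz q) := by
  rw [cev_eq z hz q (Nat.lt_succ_self _)]
  refine ge.sum fun k _ => ?_
  have := ge_mul (h k) (ge_pow hz0 k)
  rwa [add_zero] at this

/-- Bounds on monomials extend to bounds on the ball. -/
theorem ball_bound (f : Ser K → Ser K)
    (hf : ∀ x b, ∃ q : (Ser K)[X], ∀ z (hz : ∀ a, Commute a z), f (x + b * z) = cev z hz q)
    (hc : ∀ (z : Finset ℚ → Ser K) (z₀ : Ser K), Conv Filter.atTop z z₀ →
      Conv Filter.atTop (fun i => f (z i)) (f z₀))
    {γ m : ℚ} (h : ∀ a : K, ge m (f (single γ a))) {b : Ser K} (hb : ge γ b) : ge m (f b) := by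
  have key : ∀ (E : Finset ℚ) (a : K), ge m (f (single γ a + ∑ δ ∈ E, single δ (b.c δ))) := by
    intro E
    induction E using Finset.induction_on with
    | empty => intro a; rw [sum_empty, add_zero]; exact h a
    | insert δ₀ E hE ih =>
      intro a
      rw [sum_insert hE]
      by_cases hδ : δ₀ < γ
      · rw [hb _ hδ, single_zero, zero_add]; exact ih a
      · push Not at hδ
        obtain ⟨q, hq⟩ := hf (single γ a + ∑ δ ∈ E, single δ (b.c δ)) (single γ (b.c δ₀))
        have h1 : ∀ t : ℚ, ge m (cev (tau t) (tau_comm t) q) := by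
          intro t
          rw [← hq]
          have : single γ a + ∑ δ ∈ E, single δ (b.c δ) + single γ (b.c δ₀) * tau t =
              single γ (a + b.c δ₀ * t) + ∑ δ ∈ E, single δ (b.c δ) := by
            rw [single_add, add_right_comm]
            congr 2
            apply ext'; intro ε
            rw [c_mul_tau, c_single, c_single]
            split_ifs
            · rfl
            · rw [zero_mul]
          rw [this]
          exact ih _
        have h2 := ge_cev (fun k => ge_coeff h1 k) (hh_comm' (δ₀ - γ))
          (ge_single (sub_nonneg.2 hδ) 1)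
        rw [← hq] at h2
        have : single γ a + ∑ δ ∈ E, single δ (b.c δ) + single γ (b.c δ₀) * hh (δ₀ - γ) =
            single γ a + (single δ₀ (b.c δ₀) + ∑ δ ∈ E, single δ (b.c δ)) := by
          rw [← hh_comm, hh_mul_single, sub_add_cancel]
          abel
        rwa [this] at h2
  refine Conv.ge (hc _ _ (conv_trunc b)) fun E => ?_
  have := key E 0
  rwa [single_zero, zero_add] at this

/-! ### The generalized polynomial function -/

/-- The function defined by a generalized polynomial. -/
noncomputable def gf (g : FreeAlgebra ℤ (Ser K ⊕ Unit)) (x : Ser K) : Ser K :=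
  ev (RingHom.id _) x g

theorem gf_conv {ι : Type w} {l : Filter ι} (g : FreeAlgebra ℤ (Ser K ⊕ Unit)) {z : ι → Ser K}
    {z₀ : Ser K} (h : Conv l z z₀) : Conv l (fun i => gf g (z i)) (gf g z₀) := by
  induction g using FreeAlgebra.induction with
  | grade0 r =>
    simp only [gf, AlgHom.commutes]
    exact Conv.const _
  | grade1 x =>
    rcases x with x | x
    · simp only [gf, ev_inl]; exact Conv.const _
    · simp only [gf, ev_inr]; exact h
  | mul a b ha hb =>
    simp only [gf, map_mul]
    exact ha.mul hb
  | add a b ha hb =>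
    simp only [gf, map_add]
    exact ha.add hb

/-- Restriction to a line. -/
noncomputable def line (g : FreeAlgebra ℤ (Ser K ⊕ Unit)) (x b : Ser K) : (Ser K)[X] :=
  ev C (C x + C b * X) g

theorem cev_line (g : FreeAlgebra ℤ (Ser K ⊕ Unit)) (x b z : Ser K) (hz : ∀ a, Commute a z) :
    cev z hz (line g x b) = gf g (x + b * z) := by
  rw [line, map_ev, gf, map_add, map_mul, cev_C, cev_C, cev_X]
  congr 2
  ext a : 1
  exact cev_C z hz a

/-- The generic line. -/
noncomputable def gline (g : FreeAlgebra ℤ (Ser K ⊕ Unit)) (x : Ser K) : (Ser (K → K))[X] :=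
  ev (C.comp (dmap (constD K K))) (C (dmap (constD K K) x) + C (single 0 (fun u => u)) * X) g

theorem map_gline (g : FreeAlgebra ℤ (Ser K ⊕ Unit)) (x : Ser K) (a : K) :
    (gline g x).map (dmap (evD a)) = line g x (single 0 a) := by
  have h0 : ∀ y : Ser K, dmap (evD a) (dmap (constD K K) y) = y := by
    intro y
    apply ext'; intro γ
    rfl
  have h1 := map_ev (C.comp (dmap (constD K K)))
    (C (dmap (constD K K) x) + C (single 0 (fun u => u)) * X)
    (Polynomial.mapRingHom (dmap (evD (A := K) a))) g
  rw [gline, ← Polynomial.coe_mapRingHom, h1, line]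
  congr 2
  · ext y : 1
    simp only [RingHom.comp_apply, Polynomial.coe_mapRingHom, Polynomial.map_C]
    rw [h0]
  · simp only [Polynomial.coe_mapRingHom, Polynomial.map_add, Polynomial.map_mul,
      Polynomial.map_C, Polynomial.map_X]
    rw [h0, dmap_single]
    rfl

/-- Coefficients of the generic line. -/
theorem c_gline (g : FreeAlgebra ℤ (Ser K ⊕ Unit)) (x : Ser K) (a : K) (k : ℕ) (δ : ℚ) :
    ((gline g x).coeff k).c δ a = ((line g x (single 0 a)).coeff k).c δ := by
  rw [← map_gline, Polynomial.coeff_map, c_dmap, evD_f]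

theorem gline_mem (g : FreeAlgebra ℤ (Ser K ⊕ Unit)) (x : Ser K) (k : ℕ) (δ : ℚ) :
    ((gline g x).coeff k).c δ ∈ DP K := by
  have hq : ∀ q : ℚ, ∀ a ∈ DP K, q • a ∈ DP K := by
    intro q a ha
    have : q • a = (fun _ => (q : K)) * a := by
      ext u
      simp [Rat.smul_def]
    rw [this]
    exact mul_mem (const_mem_DP _) ha
  let S := polySub (subSer (DP K) (fun a ha => d1_mem_DP ha) (fun a ha => d2_mem_DP ha) hq)
  have hC : ∀ y : Ser (K → K), (∀ γ, y.c γ ∈ DP K) → C y ∈ S := by
    intro y hy k
    rw [coeff_C]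
    split_ifs
    · exact hy
    · exact zero_mem _
  have hD : ∀ y : Ser K, C (dmap (constD K K) y) ∈ S := fun y => hC _ fun γ => const_mem_DP _
  have hX : (X : (Ser (K → K))[X]) ∈ S := by
    intro k
    rw [coeff_X]
    split_ifs
    · exact one_mem _
    · exact zero_mem _
  have hid : C (single 0 (fun u : K => u)) ∈ S := by
    apply hC
    intro γ
    rw [c_single]
    split_ifs
    · exact id_mem_DP
    · exact zero_mem _
  have h : gline g x ∈ S := by
    unfold gline
    induction g using FreeAlgebra.induction with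
    | grade0 r => rw [AlgHom.commutes, eq_intCast]; exact intCast_mem S r
    | grade1 y =>
      rcases y with y | y
      · rw [ev_inl]; exact hD y
      · rw [ev_inr]; exact add_mem (hD x) (mul_mem hid hX)
    | mul a b ha hb => rw [map_mul]; exact mul_mem ha hb
    | add a b ha hb => rw [map_add]; exact add_mem ha hb
  exact h k δ

/-- Homogeneity. -/
theorem line_smul (g : FreeAlgebra ℤ (Ser K ⊕ Unit)) (x : Ser K) (a : K) (t : ℚ) (k : ℕ) (δ : ℚ) :
    ((line g x (single 0 (t * a))).coeff k).c δ =
      (t : K) ^ k * ((line g x (single 0 a)).coeff k).c δ := by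
  set p := line g x (single 0 (t * a)) with hp
  set q := line g x (single 0 a) with hq
  set n := max p.natDegree (max q.natDegree k) + 1 with hn
  have h1 : ∀ s : ℚ, cev (tau s) (tau_comm s) p = cev (tau (t * s)) (tau_comm (t * s)) q := by
    intro s
    rw [hp, hq, cev_line, cev_line]
    congr 2
    apply ext'; intro ε
    rw [c_mul_tau, c_mul_tau, c_single, c_single]
    split_ifs
    · push_cast; ring
    · ring
  have h2 : ∀ s : ℚ, ∑ k ∈ range n, ((p.coeff k).c δ - (t : K) ^ k * (q.coeff k).c δ) *
      (s : K) ^ k = 0 := by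
    intro s
    have h3 := congrArg (fun y : Ser K => y.c δ) (h1 s)
    rw [c_cev_tau s p δ (n := n) (by omega), c_cev_tau _ q δ (n := n) (by omega)] at h3
    simp only [sub_mul, sum_sub_distrib]
    rw [h3, sub_eq_zero]
    refine sum_congr rfl fun k _ => ?_
    push_cast
    ring
  have h4 := vander h2 (k := k) (by omega)
  rwa [sub_eq_zero] at h4

/-- The main theorem: nonconstant generalized polynomial functions have zeros. -/
theorem exists_root (hDC : DC K) (g : FreeAlgebra ℤ (Ser K ⊕ Unit))
    (hg : ∃ c c', gf g c ≠ gf g c') : ∃ x, gf g x = 0 := by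
  classical
  -- the increments satisfy the hypotheses of `ball_bound`
  have hball : ∀ (x : Ser K) {γ m : ℚ}, (∀ a : K, ge m (gf g (x + single γ a) - gf g x)) →
      ∀ {b : Ser K}, ge γ b → ge m (gf g (x + b) - gf g x) := by
    intro x γ m h b hb
    refine ball_bound (fun b => gf g (x + b) - gf g x) ?_ ?_ h hb
    · intro y b
      refine ⟨line g (x + y) b - C (gf g x), fun z hz => ?_⟩
      rw [map_sub, cev_line, cev_C, add_assoc]
    · intro z z₀ hz
      exact (gf_conv g ((Conv.const x).add hz)).sub (Conv.const _)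
  -- expansion along monomials
  have hexp : ∀ (x : Ser K) (γ : ℚ) (a : K) (δ : ℚ),
      (gf g (x + single γ a) - gf g x).c δ =
        ∑ k ∈ (gline g x).support.erase 0, ((gline g x).coeff k).c (δ - k * γ) a := by
    intro x γ a δ
    have h1 : gf g (x + single γ a) = cev (hh γ) (hh_comm' γ) (line g x (single 0 a)) := by
      rw [cev_line, ← hh_comm, hh_mul_single, add_zero]
    have h2 : gf g x = (line g x (single 0 a)).coeff 0 := by
      have h3 := cev_line g x (single 0 a) 0 (fun a => Commute.zero_right a)
      rw [mul_zero, add_zero] at h3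
      rw [← h3, cev_eq _ _ _ (Nat.lt_succ_self _), sum_range_succ']
      rw [sum_eq_zero fun k _ => by rw [pow_succ, mul_zero, mul_zero], zero_add, pow_zero, mul_one]
    set q := line g x (single 0 a) with hq
    have h4 : gf g (x + single γ a) - gf g x =
        ∑ k ∈ (range (max q.natDegree (gline g x).natDegree + 1)).erase 0,
          q.coeff k * hh γ ^ k := by
      rw [h1, cev_eq _ _ _ (n := max q.natDegree (gline g x).natDegree + 1) (by omega), h2,
        ← Finset.add_sum_erase _ _ (mem_range.2 (Nat.succ_pos _)), pow_zero, mul_one,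
        add_sub_cancel_left]
    rw [h4, c_sum]
    symm
    refine sum_subset_zero_on_sdiff ?_ ?_ ?_
    · intro k hk
      rw [mem_erase] at hk ⊢
      refine ⟨hk.1, mem_range.2 ?_⟩
      have := Polynomial.le_natDegree_of_mem_supp k hk.2
      omega
    · intro k hk
      rw [mem_sdiff, mem_erase, mem_erase] at hk
      have h5 : (gline g x).coeff k = 0 := by
        by_contra h6
        exact hk.2 ⟨hk.1.1, Polynomial.mem_support_iff.2 h6⟩
      have h6 : q.coeff k = 0 := by
        apply ext'; intro ε
        rw [hq, ← c_gline, h5]; rfl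
      rw [h6, zero_mul]; rfl
    · intro k _
      rw [hh_pow, ← hh_comm, c_hh_mul, c_gline]
  -- some coefficient of positive degree is nonzero
  have hne : ∀ x, ((gline g x).support.erase 0).Nonempty := by
    intro x
    by_contra h
    rw [not_nonempty_iff_eq_empty] at h
    have h1 : ∀ b, gf g (x + b) = gf g x := by
      intro b
      rw [← sub_eq_zero]
      apply ext'; intro δ
      refine hball x (γ := ord b) (m := δ + 1) ?_ (ge_ord b) δ (by linarith)
      intro a ε _
      rw [hexp, h, sum_empty]
    obtain ⟨c, c', hcc⟩ := hg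
    apply hcc
    have h2 := h1 (c - x)
    have h3 := h1 (c' - x)
    rw [add_sub_cancel] at h2 h3
    rw [h2, h3]
  have hN : ∀ x, ((((gline g x).support.erase 0)).image
      (fun k => (ord (gf g x) - ord ((gline g x).coeff k)) / k)).Nonempty := fun x =>
    (hne x).image _
  let γ : Ser K → ℚ := fun x => ((((gline g x).support.erase 0)).image
      (fun k => (ord (gf g x) - ord ((gline g x).coeff k)) / k)).max' (hN x)
  have hγ1 : ∀ x, ∀ k ∈ (gline g x).support.erase 0,
      ord (gf g x) - k * γ x ≤ ord ((gline g x).coeff k) := by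
    intro x k hk
    have h1 : (ord (gf g x) - ord ((gline g x).coeff k)) / k ≤ γ x :=
      le_max' _ _ (mem_image_of_mem
        (fun k : ℕ => (ord (gf g x) - ord ((gline g x).coeff k)) / (k : ℚ)) hk)
    have h2 : (0 : ℚ) < k := by
      have := (mem_erase.1 hk).1
      exact_mod_cast Nat.pos_of_ne_zero this
    rw [div_le_iff₀ h2] at h1
    linarith
  have hγ2 : ∀ x, ∃ k ∈ (gline g x).support.erase 0,
      ord (gf g x) - k * γ x = ord ((gline g x).coeff k) := by
    intro x
    have h0 := max'_mem _ (hN x)
    rw [mem_image] at h0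
    obtain ⟨k, hk, h1⟩ := h0
    refine ⟨k, hk, ?_⟩
    have h2 : (0 : ℚ) < k := by
      have := (mem_erase.1 hk).1
      exact_mod_cast Nat.pos_of_ne_zero this
    have h3 : γ x * k = ord (gf g x) - ord ((gline g x).coeff k) := by
      change _ = γ x at h1
      rw [← h1, div_mul_cancel₀ _ h2.ne']
    linarith
  have hmono : ∀ (x : Ser K) (a : K),
      ge (ord (gf g x)) (gf g (x + single (γ x) a) - gf g x) := by
    intro x a δ hδ
    rw [hexp]
    refine sum_eq_zero fun k hk => ?_
    have h1 := ge_ord ((gline g x).coeff k) (δ - k * γ x) (by linarith [hγ1 x k hk])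
    rw [h1]; rfl
  refine exists_zero (gf g) γ ?_ ?_
  · intro x y _ hxy
    have h1 := hball x (hmono x) hxy
    rw [add_sub_cancel] at h1
    have h2 := h1.add (ge_ord (gf g x))
    rwa [sub_add_cancel] at h2
  · intro x hx
    set e := ord (gf g x) with he
    set N := (gline g x).support.erase 0 with hNdef
    let G : K → K := ∑ k ∈ N, ((gline g x).coeff k).c (e - k * γ x)
    have hGval : ∀ a, G a = (gf g (x + single (γ x) a) - gf g x).c e := by
      intro a
      rw [hexp]
      simp only [G, Finset.sum_apply, hNdef]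
    have hGt : ∀ (a : K) (t : ℚ), G (t * a) =
        ∑ k ∈ N, ((gline g x).coeff k).c (e - k * γ x) a * (t : K) ^ k := by
      intro a t
      simp only [G, Finset.sum_apply]
      refine sum_congr rfl fun k _ => ?_
      rw [c_gline, c_gline, line_smul, mul_comm]
    have hG0 : G 0 = 0 := by
      have := hGt 0 0
      rw [mul_zero] at this
      rw [this]
      refine sum_eq_zero fun k hk => ?_
      rw [Rat.cast_zero, zero_pow (mem_erase.1 hk).1, mul_zero]
    have hG1 : ∃ a, G a ≠ 0 := by
      obtain ⟨k₀, hk₀, h1⟩ := hγ2 x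
      have h2 : (gline g x).coeff k₀ ≠ 0 := Polynomial.mem_support_iff.1 (mem_erase.1 hk₀).2
      have h3 := c_ord h2
      rw [← h1] at h3
      obtain ⟨a, h4⟩ := Function.ne_iff.1 h3
      by_contra h5
      push Not at h5
      apply h4
      let n := (gline g x).natDegree + 1
      have h6 : ∀ t : ℚ, ∑ k ∈ range n, (if k ∈ N then
          ((gline g x).coeff k).c (e - k * γ x) a else 0) * (t : K) ^ k = 0 := by
        intro t
        have h7 := hGt a t
        rw [h5] at h7
        refine Eq.trans ?_ h7.symm
        symm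
        refine sum_subset_zero_on_sdiff ?_ ?_ ?_
        · intro k hk
          have := Polynomial.le_natDegree_of_mem_supp k (mem_erase.1 hk).2
          exact mem_range.2 (by omega)
        · intro k hk
          rw [mem_sdiff] at hk
          rw [if_neg hk.2, zero_mul]
        · intro k hk
          rw [if_pos hk]
      have hk₀n : k₀ < n := by
        have := Polynomial.le_natDegree_of_mem_supp k₀ (mem_erase.1 hk₀).2
        omega
      have h8 := vander h6 hk₀n
      rw [if_pos hk₀] at h8
      exact h8
    have hGmem : G ∈ DP K := sum_mem fun k _ => gline_mem g x k _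
    obtain ⟨u, hu⟩ := hDC (G + fun _ => (gf g x).c e) (add_mem hGmem (const_mem_DP _)) (by
      obtain ⟨a, ha⟩ := hG1
      refine ⟨a, 0, ?_⟩
      simp only [Pi.add_apply, hG0, zero_add]
      intro h
      exact ha (add_eq_right.1 h))
    refine ⟨x + single (γ x) u, ?_, ?_⟩
    · rw [add_sub_cancel_left]
      exact ge_single le_rfl _
    · rw [gt_iff]
      constructor
      · have := (hmono x u).add (ge_ord (gf g x))
        rwa [sub_add_cancel] at this
      · have h9 := hGval u
        rw [c_sub] at h9
        rw [Pi.add_apply] at hu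
        have : (gf g (x + single (γ x) u)).c e = G u + (gf g x).c e := by rw [h9]; ring
        rw [this, hu]

end Ser

end Pool.Agent.T9h66.AC
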