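import Mathlib
import Pool.Agent.T9h66.AC.Gpi1
import Pool.Agent.T9h66.AC.Main
import Pool.Agent.Results.MP_4b1745_al.OneVariable

/-!
A generalized polynomial over a division ring of infinite degree over its infinite centre, whose
values are all equal, is constant.
-/

set_option autoImplicit false
set_option linter.unusedSectionVars false

open Finset Polynomial

namespace Pool.Agent.T9h66.AC

universe u v w

section pol

/-- Formal generalized polynomials of degree at most `n` with coefficients in the span of a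
family indexed by `ι`. -/
inductive Pol (P : Type u) (ι : Type) : ℕ → Type u
  | z (a : ι → P) : Pol P ι 0
  | s {n : ℕ} (a : ι → P) (G : ι → Pol P ι n) : Pol P ι (n + 1)

variable {P : Type u} [Field P] {ι : Type}

namespace Pol

/-- The constant part. -/
def cf : {n : ℕ} → Pol P ι n → ι → P
  | _, .z a => a
  | _, .s a _ => a

/-- The other part. -/
def sn : {n : ℕ} → Pol P ι (n + 1) → ι → Pol P ι n
  | _, .s _ G => G

/-- The zero polynomial. -/
def zero : (n : ℕ) → Pol P ι n
  | 0 => .z (fun _ => 0)
  | n + 1 => .s (fun _ => 0) (fun _ => zero n)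

theorem ext0 {p q : Pol P ι 0} (h : ∀ i, p.cf i = q.cf i) : p = q := by
  cases p
  cases q
  congr 1
  funext i
  exact h i

theorem extS {n : ℕ} {p q : Pol P ι (n + 1)} (h : ∀ i, p.cf i = q.cf i)
    (h2 : ∀ i, p.sn i = q.sn i) : p = q := by
  cases p
  cases q
  congr 1
  · funext i
    exact h i
  · funext i
    exact h2 i

end Pol

open Pol

variable [Fintype ι] {R : Type v} [Ring R] [Algebra P R] {S : Type w} [Ring S] [Algebra P S]

/-- Evaluation of formal generalized polynomials. -/
noncomputable def pe (b : ι → R) (c : R) : {n : ℕ} → Pol P ι n → R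
  | _, .z a => ∑ i, a i • b i
  | _, .s a G => ∑ i, a i • b i + ∑ i, b i * c * pe b c (G i)

theorem pe_zero' (b : ι → R) (c : R) (p : Pol P ι 0) :
    pe b c p = ∑ i, p.cf i • b i := by
  cases p
  rfl

theorem pe_succ (b : ι → R) (c : R) {n : ℕ} (p : Pol P ι (n + 1)) :
    pe b c p = ∑ i, p.cf i • b i + ∑ i, b i * c * pe b c (p.sn i) := by
  cases p
  rfl

theorem pe_zero (b : ι → R) (c : R) (n : ℕ) : pe b c (Pol.zero n : Pol P ι n) = 0 := by
  induction n with
  | zero =>
    rw [pe_zero']
    exact sum_eq_zero fun i _ => zero_smul P (b i)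
  | succ n ih =>
    rw [pe_succ]
    have h1 : ∀ i, (Pol.zero (n + 1) : Pol P ι (n + 1)).cf i = 0 := fun i => rfl
    have h2 : ∀ i, (Pol.zero (n + 1) : Pol P ι (n + 1)).sn i = Pol.zero n := fun i => rfl
    simp only [h1, h2, ih, zero_smul, mul_zero, sum_const_zero, add_zero]

/-- Sums and multiples of values of formal polynomials are values of formal polynomials. -/
theorem exists_pe_add (b : ι → R) (c : R) (n : ℕ) (p q : Pol P ι n) :
    ∃ r : Pol P ι n, pe b c r = pe b c p + pe b c q := by
  induction n with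
  | zero =>
    refine ⟨.z (fun i => p.cf i + q.cf i), ?_⟩
    rw [pe_zero', pe_zero', pe_zero', ← sum_add_distrib]
    exact sum_congr rfl fun i _ => add_smul (R := P) _ _ (b i)
  | succ n ih =>
    choose r hr using fun i => ih (p.sn i) (q.sn i)
    refine ⟨.s (fun i => p.cf i + q.cf i) r, ?_⟩
    have h1 : ∑ i, (p.cf i + q.cf i) • b i = ∑ i, p.cf i • b i + ∑ i, q.cf i • b i := by
      rw [← sum_add_distrib]
      exact sum_congr rfl fun i _ => add_smul _ _ (b i)
    have h2 : ∑ i, b i * c * pe b c (r i) =
        ∑ i, b i * c * pe b c (p.sn i) + ∑ i, b i * c * pe b c (q.sn i) := by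
      rw [← sum_add_distrib]
      exact sum_congr rfl fun i _ => by rw [hr, mul_add]
    change ∑ i, (p.cf i + q.cf i) • b i + ∑ i, b i * c * pe b c (r i) = _
    rw [h1, h2, pe_succ, pe_succ]
    abel

theorem exists_pe_smul (b : ι → R) (c : R) (n : ℕ) (r : P) (p : Pol P ι n) :
    ∃ q : Pol P ι n, pe b c q = r • pe b c p := by
  induction n with
  | zero =>
    refine ⟨.z (fun i => r * p.cf i), ?_⟩
    rw [pe_zero', pe_zero', Finset.smul_sum]
    exact sum_congr rfl fun i _ => mul_smul (α := P) _ _ (b i)
  | succ n ih =>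
    choose q hq using fun i => ih (p.sn i)
    refine ⟨.s (fun i => r * p.cf i) q, ?_⟩
    rw [pe_succ, pe_succ, smul_add, Finset.smul_sum, Finset.smul_sum]
    congr 1
    · exact sum_congr rfl fun i _ => mul_smul (α := P) _ _ (b i)
    · refine sum_congr rfl fun i _ => ?_
      rw [← mul_smul_comm, ← hq]
      rfl

theorem map_pe (f : R →ₐ[P] S) (b : ι → R) (c : R) (n : ℕ) (p : Pol P ι n) :
    f (pe b c p) = pe (fun i => f (b i)) (f c) p := by
  induction n with
  | zero =>
    rw [pe_zero', pe_zero', map_sum]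
    exact sum_congr rfl fun i _ => map_smul f _ _
  | succ n ih =>
    rw [pe_succ, pe_succ, map_add, map_sum, map_sum]
    congr 1
    · exact sum_congr rfl fun i _ => map_smul f _ _
    · exact sum_congr rfl fun i _ => by rw [map_mul, map_mul, ih]

/-- Inclusion into formal polynomials over a larger family. -/
noncomputable def incl (κ : Type) : (n : ℕ) → Pol P ι n → Pol P (ι ⊕ κ) n
  | 0, p => .z (Sum.elim p.cf (fun _ => 0))
  | n + 1, p => .s (Sum.elim p.cf (fun _ => 0))
      (Sum.elim (fun i => incl κ n (p.sn i)) (fun _ => Pol.zero n))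

/-- Formal directional derivative. -/
noncomputable def der : (n : ℕ) → Pol P ι (n + 1) → Pol P (ι ⊕ (ι × ι)) n
  | 0, p => .z (Sum.elim (fun _ => 0) (fun q => (p.sn q.1).cf q.2))
  | n + 1, p => .s (Sum.elim (fun _ => 0) (fun q => (p.sn q.1).cf q.2))
      (Sum.elim (fun i => der n (p.sn i)) (fun q => incl (ι × ι) n ((p.sn q.1).sn q.2)))

theorem pe_incl {κ : Type} [Fintype κ] (b : ι → R) (b' : κ → R) (c : R) (n : ℕ) (p : Pol P ι n) :
    pe (Sum.elim b b') c (incl κ n p) = pe b c p := by
  induction n with
  | zero =>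
    rw [pe_zero', pe_zero', Fintype.sum_sum_type]
    simp [incl, cf]
  | succ n ih =>
    rw [pe_succ, pe_succ, Fintype.sum_sum_type, Fintype.sum_sum_type]
    simp [incl, cf, sn, ih, pe_zero]

theorem incl_eq_zero {κ : Type} {n : ℕ} {p : Pol P ι n} (h : incl κ n p = Pol.zero n) :
    p = Pol.zero n := by
  induction n with
  | zero =>
    apply ext0
    intro i
    exact congrFun (congrArg cf h) (Sum.inl i)
  | succ n ih =>
    apply extS
    · intro i
      exact congrFun (congrArg cf h) (Sum.inl i)
    · intro i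
      exact ih (congrFun (congrArg sn h) (Sum.inl i))

theorem der_eq_zero {n : ℕ} {p : Pol P ι (n + 1)} (h : der n p = Pol.zero n) (i : ι) :
    p.sn i = Pol.zero n := by
  cases n with
  | zero =>
    apply ext0
    intro j
    exact congrFun (congrArg cf h) (Sum.inr (i, j))
  | succ n =>
    apply extS
    · intro j
      exact congrFun (congrArg cf h) (Sum.inr (i, j))
    · intro j
      exact incl_eq_zero (congrFun (congrArg sn h) (Sum.inr (i, j)))

theorem coeff_zero_pe (b : ι → R) (c y : R) (n : ℕ) (p : Pol P ι n) :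
    (pe (fun i => C (b i)) (C c + C y * X) p).coeff 0 = pe b c p := by
  induction n with
  | zero =>
    rw [pe_zero', pe_zero', Polynomial.finsetSum_coeff]
    refine sum_congr rfl fun i _ => ?_
    rw [coeff_smul, coeff_C_zero]
  | succ n ih =>
    rw [pe_succ, pe_succ, coeff_add, Polynomial.finsetSum_coeff, Polynomial.finsetSum_coeff]
    congr 1
    · refine sum_congr rfl fun i _ => ?_
      rw [coeff_smul, coeff_C_zero]
    · refine sum_congr rfl fun i _ => ?_
      rw [mul_coeff_zero, mul_coeff_zero, coeff_C_zero, coeff_add, coeff_C_zero, mul_coeff_zero,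
        coeff_X_zero, mul_zero, add_zero, ih]

theorem coeff_one_zero (b : ι → R) (c y : R) (p : Pol P ι 0) :
    (pe (fun i => C (b i)) (C c + C y * X) p).coeff 1 = 0 := by
  rw [pe_zero', Polynomial.finsetSum_coeff]
  refine sum_eq_zero fun i _ => ?_
  rw [coeff_smul, coeff_C_of_ne_zero one_ne_zero, smul_zero]

theorem coeff_one_mul' (c y : R) (a : R) (q : R[X]) :
    (C a * (C c + C y * X) * q).coeff 1 = a * c * q.coeff 1 + a * y * q.coeff 0 := by
  have : C a * (C c + C y * X) * q = C (a * c) * q + C (a * y) * (X * q) := by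
    rw [C_mul, C_mul]; noncomm_ring
  rw [this, coeff_add, coeff_C_mul, coeff_C_mul, coeff_X_mul]

theorem coeff_one_pe (b : ι → R) (c y : R) (n : ℕ) (p : Pol P ι (n + 1)) :
    (pe (fun i => C (b i)) (C c + C y * X) p).coeff 1 =
      pe (Sum.elim b (fun q : ι × ι => b q.1 * y * b q.2)) c (der n p) := by
  induction n with
  | zero =>
    rw [pe_succ, coeff_add, Polynomial.finsetSum_coeff, Polynomial.finsetSum_coeff, pe_zero',
      Fintype.sum_sum_type]
    congr 1
    · simp [der, cf]
    · rw [Fintype.sum_prod_type]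
      refine sum_congr rfl fun i _ => ?_
      rw [coeff_one_mul', coeff_one_zero, mul_zero, zero_add, coeff_zero_pe, pe_zero', mul_sum]
      refine sum_congr rfl fun j _ => ?_
      rw [mul_smul_comm]
      rfl
  | succ n ih =>
    rw [pe_succ, coeff_add, Polynomial.finsetSum_coeff, Polynomial.finsetSum_coeff, pe_succ,
      Fintype.sum_sum_type, Fintype.sum_sum_type]
    have h1 : ∑ i, ((p.cf i • C (b i) : R[X])).coeff 1 = 0 := by
      simp
    have h2 : ∑ i : ι, (der (n + 1) p).cf (Sum.inl i) •
        Sum.elim b (fun q : ι × ι => b q.1 * y * b q.2) (Sum.inl i) = 0 := by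
      simp [der, cf]
    rw [h1, h2, zero_add, zero_add]
    rw [Fintype.sum_prod_type, Fintype.sum_prod_type, add_left_comm, ← sum_add_distrib,
      ← sum_add_distrib]
    refine sum_congr rfl fun i _ => ?_
    rw [coeff_one_mul', ih, coeff_zero_pe, pe_succ, mul_add, mul_sum, mul_sum]
    congr 1
    congr 1
    · refine sum_congr rfl fun j _ => ?_
      rw [mul_smul_comm]
      rfl
    · refine sum_congr rfl fun j _ => ?_
      rw [← mul_assoc, ← mul_assoc]
      have h3 : (der (n + 1) p).sn (Sum.inr (i, j)) = incl (ι × ι) n ((p.sn i).sn j) := rfl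
      rw [h3, pe_incl]
      rfl

end pol

section div
variable {P : Type u} [Field P] {D : Type v} [DivisionRing D] [Algebra P D]

theorem central_alg (p : P) (a : D) : Commute a (algebraMap P D p) :=
  (Algebra.commutes p a).symm

theorem coeff_eq_zero_of_const [Infinite P] (q : D[X]) (d : D)
    (h : ∀ p : P, cev (algebraMap P D p) (central_alg p) q = d) {k : ℕ} (hk : k ≠ 0) :
    q.coeff k = 0 := by
  rw [← Module.forall_dual_apply_eq_zero_iff P]
  intro φ
  let n := max q.natDegree k + 1
  let r : P[X] := ∑ k ∈ range n, monomial k (φ (q.coeff k)) - C (φ d)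
  have h1 : r = 0 := by
    apply Polynomial.eq_zero_of_infinite_isRoot
    refine Set.Infinite.mono (s := Set.univ) ?_ Set.infinite_univ
    intro p _
    simp only [Set.mem_ofPred_eq, IsRoot.def, r, Polynomial.eval_finsetSum, eval_monomial,
      eval_sub, eval_C]
    have h2 := congrArg φ (h p)
    rw [cev_eq _ _ _ (n := n) (by omega), map_sum] at h2
    rw [← h2, sub_eq_zero]
    refine sum_congr rfl fun j _ => ?_
    rw [← map_pow, ← Algebra.commutes, ← Algebra.smul_def, map_smul, smul_eq_mul, mul_comm]
  have h2 : r.coeff k = φ (q.coeff k) := by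
    simp only [r, coeff_sub, Polynomial.finsetSum_coeff, coeff_monomial]
    rw [Finset.sum_ite_eq', if_pos (mem_range.2 (by omega)), coeff_C, if_neg hk, sub_zero]
  rw [← h2, h1, Polynomial.coeff_zero]

theorem der_const [Infinite P] {ι : Type} [Fintype ι] (b : ι → D) (n : ℕ) (p : Pol P ι (n + 1))
    (d : D) (h : ∀ c : D, pe b c p = d) (c y : D) :
    pe (Sum.elim b (fun q : ι × ι => b q.1 * y * b q.2)) c (der n p) = 0 := by
  rw [← coeff_one_pe]
  refine coeff_eq_zero_of_const (P := P) _ d ?_ one_ne_zero
  intro z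
  rw [← h (c + y * algebraMap P D z)]
  let f : D[X] →ₐ[P] D :=
    { cev (algebraMap P D z) (central_alg z) with
      commutes' := fun r => by
        change cev (algebraMap P D z) (central_alg z) (algebraMap P D[X] r) = _
        rw [Polynomial.algebraMap_apply, cev_C] }
  have hf : ∀ q : D[X], f q = cev (algebraMap P D z) (central_alg z) q := fun q => rfl
  rw [← hf, map_pe]
  have h1 : (fun i => f (C (b i))) = b := by
    funext i
    rw [hf, cev_C]
  have h2 : f (C c + C y * X) = c + y * algebraMap P D z := by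
    rw [hf, map_add, map_mul, cev_C, cev_C, cev_X]
  rw [h1, h2]

theorem gpi [Infinite P]
    (hcen : ∀ d : D, (∀ e : D, d * e = e * d) → d ∈ Set.range (algebraMap P D))
    (hinf : ¬ FiniteDimensional P D) (n : ℕ) : ∀ {ι : Type} [Fintype ι] {b : ι → D},
    LinearIndependent P b → ∀ p : Pol P ι n, (∀ c : D, pe b c p = 0) → p = Pol.zero n := by
  induction n with
  | zero =>
    intro ι _ b hb p h
    have h1 := h 0
    rw [pe_zero'] at h1
    apply Pol.ext0
    intro i
    exact Fintype.linearIndependent_iff.1 hb (fun i => p.cf i) h1 i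
  | succ n ih =>
    intro ι _ b hb p h
    obtain ⟨y, hy⟩ := exists_indep hcen hinf hb
    have h1 : der n p = Pol.zero n := ih hy (der n p) fun c => der_const b n p 0 h c y
    have h2 := der_eq_zero h1
    apply Pol.extS
    · have h3 := h 0
      rw [pe_succ] at h3
      simp only [mul_zero, zero_mul, sum_const_zero, add_zero] at h3
      intro i
      exact Fintype.linearIndependent_iff.1 hb (fun i => p.cf i) h3 i
    · exact h2

theorem gpi_const [Infinite P]
    (hcen : ∀ d : D, (∀ e : D, d * e = e * d) → d ∈ Set.range (algebraMap P D))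
    (hinf : ¬ FiniteDimensional P D) (n : ℕ) {ι : Type} [Fintype ι] {b : ι → D}
    (hb : LinearIndependent P b) (p : Pol P ι (n + 1)) (d : D)
    (h : ∀ c : D, pe b c p = d) (i : ι) : p.sn i = Pol.zero n := by
  obtain ⟨y, hy⟩ := exists_indep hcen hinf hb
  exact der_eq_zero (gpi hcen hinf n hy (der n p) fun c => der_const b n p d h c y) i

end div

section free
open Pool.Agent.Results.MP_4b1745_al.OneVariable

variable {P : Type u} [Field P] {D : Type v} [DivisionRing D] [Algebra P D]

/-- Generalized polynomials of degree at most `n` with coefficients in a subspace. -/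
noncomputable def Qs : ℕ → Submodule P D → Submodule P (FreeOver P D Unit)
  | 0, W => W.map (const P D Unit).toLinearMap
  | n + 1, W => W.map (const P D Unit).toLinearMap ⊔
      Submodule.span P {f | ∃ w ∈ W, ∃ g ∈ Qs n W, f = const P D Unit w * var P D Unit () * g}

theorem Qs_mono {W W' : Submodule P D} (h : W ≤ W') (n : ℕ) : Qs n W ≤ Qs n W' := by
  induction n with
  | zero => exact Submodule.map_mono h
  | succ n ih =>
    refine sup_le_sup (Submodule.map_mono h) (Submodule.span_mono ?_)
    rintro f ⟨w, hw, g, hg, rfl⟩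
    exact ⟨w, h hw, g, ih hg, rfl⟩

theorem Qs_succ (W : Submodule P D) (n : ℕ) : Qs n W ≤ Qs (n + 1) W := by
  induction n with
  | zero => exact le_sup_left
  | succ n ih =>
    refine sup_le_sup le_rfl (Submodule.span_mono ?_)
    rintro f ⟨w, hw, g, hg, rfl⟩
    exact ⟨w, hw, g, ih hg, rfl⟩

theorem Qs_le (W : Submodule P D) {m n : ℕ} (h : m ≤ n) : Qs m W ≤ Qs n W := by
  induction h with
  | refl => exact le_rfl
  | step _ ih => exact ih.trans (Qs_succ W _)

theorem const_mul_Qs (d : D) (W : Submodule P D) (n : ℕ) {f : FreeOver P D Unit}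
    (hf : f ∈ Qs n W) :
    const P D Unit d * f ∈ Qs n (W ⊔ W.map (LinearMap.mulLeft P d)) := by
  have h0 : ∀ w ∈ W, d * w ∈ W ⊔ W.map (LinearMap.mulLeft P d) := fun w hw =>
    Submodule.mem_sup_right ⟨w, hw, rfl⟩
  cases n with
  | zero =>
    obtain ⟨w, hw, rfl⟩ := hf
    exact ⟨d * w, h0 w hw, map_mul (const P D Unit) d w⟩
  | succ n =>
    obtain ⟨f1, ⟨w, hw, rfl⟩, f2, hf2, rfl⟩ := Submodule.mem_sup.1 hf
    rw [mul_add]
    refine Submodule.add_mem_sup ⟨d * w, h0 w hw, map_mul (const P D Unit) d w⟩ ?_
    clear hf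
    induction hf2 using Submodule.span_induction with
    | mem f hf =>
      obtain ⟨w, hw, g, hg, rfl⟩ := hf
      refine Submodule.subset_span ⟨d * w, h0 w hw, g, Qs_mono le_sup_left n hg, ?_⟩
      rw [map_mul, mul_assoc, mul_assoc, mul_assoc]
    | zero => rw [mul_zero]; exact zero_mem _
    | add x y _ _ hx hy =>
      rw [mul_add]
      exact add_mem hx hy
    | smul r x _ hx =>
      rw [mul_smul_comm]
      exact Submodule.smul_mem _ _ hx

theorem var_mul_Qs (W : Submodule P D) (n : ℕ) {f : FreeOver P D Unit} (hf : f ∈ Qs n W) :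
    var P D Unit () * f ∈ Qs (n + 1) (W ⊔ Submodule.span P {1}) := by
  refine Submodule.mem_sup_right (Submodule.subset_span ⟨1, ?_, f, Qs_mono le_sup_left n hf, ?_⟩)
  · exact Submodule.mem_sup_right (Submodule.mem_span_singleton_self 1)
  · rw [map_one, one_mul]

theorem mem_Qs (f : FreeOver P D Unit) :
    ∃ (n : ℕ) (W : Submodule P D), FiniteDimensional P W ∧ f ∈ Qs n W := by
  have key : ∀ f g : FreeOver P D Unit,
      (∃ (n : ℕ) (W : Submodule P D), FiniteDimensional P W ∧ g ∈ Qs n W) →
      ∃ (n : ℕ) (W : Submodule P D), FiniteDimensional P W ∧ f * g ∈ Qs n W := by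
    intro f
    induction f using induct with
    | hc d =>
      rintro g ⟨n, W, hW, hg⟩
      exact ⟨n, W ⊔ W.map (LinearMap.mulLeft P d), inferInstance, const_mul_Qs d W n hg⟩
    | hv i =>
      rintro g ⟨n, W, hW, hg⟩
      exact ⟨n + 1, W ⊔ Submodule.span P {1}, inferInstance, var_mul_Qs W n hg⟩
    | hadd f f' ih ih' =>
      intro g hg
      obtain ⟨n, W, hW, h⟩ := ih g hg
      obtain ⟨n', W', hW', h'⟩ := ih' g hg
      refine ⟨max n n', W ⊔ W', inferInstance, ?_⟩
      rw [add_mul]
      exact add_mem (Qs_le _ (le_max_left _ _) (Qs_mono le_sup_left _ h))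
        (Qs_le _ (le_max_right _ _) (Qs_mono le_sup_right _ h'))
    | hmul f f' ih ih' =>
      intro g hg
      rw [mul_assoc]
      exact ih _ (ih' g hg)
  have h1 := key f 1 ⟨0, Submodule.span P {1}, inferInstance,
    ⟨1, Submodule.mem_span_singleton_self 1, map_one (const P D Unit)⟩⟩
  rwa [mul_one] at h1

theorem Qs_rep {ι : Type} [Fintype ι] {W : Submodule P D} (B : Module.Basis ι P W) (n : ℕ) :
    ∀ f ∈ Qs n W, ∃ p : Pol P ι n,
      f = pe (fun i => const P D Unit (B i : D)) (var P D Unit ()) p := by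
  have hw : ∀ w ∈ W, ∃ a : ι → P, const P D Unit w =
      ∑ i, a i • const P D Unit (B i : D) := by
    intro w hw
    refine ⟨fun i => B.repr ⟨w, hw⟩ i, ?_⟩
    have h1 := B.sum_repr ⟨w, hw⟩
    have h2 : ((∑ i, (B.repr ⟨w, hw⟩) i • B i : W) : D) = w := congrArg Subtype.val h1
    rw [Submodule.coe_sum] at h2
    conv_lhs => rw [← h2]
    rw [map_sum]
    exact sum_congr rfl fun i _ => by rw [Submodule.coe_smul, map_smul]
  induction n with
  | zero =>
    rintro f ⟨w, hw', rfl⟩
    obtain ⟨a, ha⟩ := hw w hw'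
    exact ⟨.z a, ha⟩
  | succ n ih =>
    intro f hf
    obtain ⟨f1, ⟨w, hw', rfl⟩, f2, hf2, rfl⟩ := Submodule.mem_sup.1 hf
    obtain ⟨a, ha⟩ := hw w hw'
    have h2 : ∃ G : ι → Pol P ι n, f2 = ∑ i, const P D Unit (B i : D) * var P D Unit () *
        pe (fun i => const P D Unit (B i : D)) (var P D Unit ()) (G i) := by
      clear hf
      induction hf2 using Submodule.span_induction with
      | mem f hf =>
        obtain ⟨w', hw', g, hg, rfl⟩ := hf
        obtain ⟨q, rfl⟩ := ih g hg
        obtain ⟨a', ha'⟩ := hw w' hw'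
        choose G hG using fun i => exists_pe_smul (fun i => const P D Unit (B i : D))
          (var P D Unit ()) n (a' i) q
        refine ⟨G, ?_⟩
        rw [ha', Finset.sum_mul, Finset.sum_mul]
        refine sum_congr rfl fun i _ => ?_
        rw [hG, mul_smul_comm, smul_mul_assoc, smul_mul_assoc]
      | zero =>
        refine ⟨fun _ => Pol.zero n, ?_⟩
        simp [pe_zero]
      | add x y _ _ hx hy =>
        obtain ⟨G, hG⟩ := hx
        obtain ⟨G', hG'⟩ := hy
        choose G2 hG2 using fun i => exists_pe_add (fun i => const P D Unit (B i : D))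
          (var P D Unit ()) n (G i) (G' i)
        refine ⟨G2, ?_⟩
        rw [hG, hG', ← sum_add_distrib]
        exact sum_congr rfl fun i _ => by rw [hG2, mul_add]
      | smul r x _ hx =>
        obtain ⟨G, hG⟩ := hx
        choose G2 hG2 using fun i => exists_pe_smul (fun i => const P D Unit (B i : D))
          (var P D Unit ()) n r (G i)
        refine ⟨G2, ?_⟩
        rw [hG, Finset.smul_sum]
        exact sum_congr rfl fun i _ => by rw [hG2, mul_smul_comm]
    obtain ⟨G, hG⟩ := h2
    refine ⟨.s a G, ?_⟩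
    rw [pe_succ, hG]
    congr 1

/-- A generalized polynomial with constant values is constant. -/
theorem gpi_free [Infinite P]
    (hcen : ∀ d : D, (∀ e : D, d * e = e * d) → d ∈ Set.range (algebraMap P D))
    (hinf : ¬ FiniteDimensional P D) (f : FreeOver P D Unit) (d : D)
    (h : ∀ c : D, evalAt (fun _ => c) f = d) : f ∈ Set.range (const P D Unit) := by
  obtain ⟨n, W, hW, hf⟩ := mem_Qs f
  let B := Module.finBasis P W
  have hB : LinearIndependent P (fun i => (B i : D)) :=
    B.linearIndependent.map' W.subtype (Submodule.ker_subtype W)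
  obtain ⟨p, hp⟩ := Qs_rep B n f hf
  have h1 : ∀ c : D, pe (fun i => (B i : D)) c p = d := by
    intro c
    rw [← h c, hp, map_pe]
    congr 1
    · funext i
      exact (lift_const (AlgHom.id P D) (fun _ : Unit => c) (B i : D)).symm
    · exact (lift_var (AlgHom.id P D) (fun _ : Unit => c) ()).symm
  cases n with
  | zero =>
    refine ⟨∑ i, p.cf i • (B i : D), ?_⟩
    rw [hp, pe_zero', map_sum]
    exact sum_congr rfl fun i _ => map_smul _ _ _
  | succ n =>
    have h2 := gpi_const hcen hinf n hB p d h1
    refine ⟨∑ i, p.cf i • (B i : D), ?_⟩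
    rw [hp, pe_succ, map_sum]
    simp only [h2, pe_zero, mul_zero, sum_const_zero, add_zero]
    exact sum_congr rfl fun i _ => map_smul _ _ _

end free

end Pool.Agent.T9h66.AC
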