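import Mathlib
import Pool.Agent.T9h66.AC.Jet

/-!
Derivations from homomorphisms to dual numbers, derivations of polynomial rings and fraction
fields, and Taylor homomorphisms to rings of power series in two variables.
-/

set_option autoImplicit false
set_option linter.unusedSectionVars false

open Finset

namespace Pool.Agent.T9h66.AC

universe u v w

open BiDiff

/-! ### Dual numbers -/

section dual
variable {A : Type u} [CommRing A] {B : Type v} [CommRing B]

/-- Pairs as dual numbers. -/
def pr (a b : B) : DualNumber B := (a, b)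

theorem fst_pr (a b : B) : (pr a b).fst = a := rfl
theorem snd_pr (a b : B) : (pr a b).snd = b := rfl

/-- The homomorphism to the dual numbers defined by a derivation along a homomorphism. -/
def dnHom (f : A →+* B) (g : A →+ B) (h : ∀ a b, g (a * b) = g a * f b + f a * g b) :
    A →+* DualNumber B where
  toFun a := pr (f a) (g a)
  map_one' := by
    have h1 := h 1 1
    simp only [mul_one, map_one, one_mul] at h1
    have h2 : g 1 = 0 := left_eq_add.1 h1
    apply TrivSqZeroExt.ext
    · exact map_one f
    · exact h2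
  map_mul' a b := by
    apply TrivSqZeroExt.ext
    · exact map_mul f a b
    · rw [TrivSqZeroExt.snd_mul, snd_pr, snd_pr, snd_pr, fst_pr, fst_pr, h, smul_eq_mul,
        op_smul_eq_mul]
      ring
  map_zero' := by
    apply TrivSqZeroExt.ext
    · exact map_zero f
    · exact map_zero g
  map_add' a b := by
    apply TrivSqZeroExt.ext
    · exact map_add f a b
    · exact map_add g a b

/-- The derivation defined by a homomorphism to the dual numbers. -/
def dnDer (F : A →+* DualNumber A) : A →+ A where
  toFun a := (F a).snd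
  map_zero' := by rw [map_zero]; rfl
  map_add' a b := by rw [map_add]; rfl

theorem isDer_dnDer {F : A →+* DualNumber A} (h : ∀ a, (F a).fst = a) : IsDer (dnDer F) := by
  intro a b
  change (F (a * b)).snd = (F a).snd * b + a * (F b).snd
  rw [map_mul, TrivSqZeroExt.snd_mul, h, h, smul_eq_mul, op_smul_eq_mul]
  ring

end dual

/-! ### Polynomial rings -/

section poly
variable {σ : Type w} {K : Type u} [CommRing K]

/-- Homomorphism to the dual numbers defining a derivation of a polynomial ring. -/
noncomputable def mvF (d : K →+ K) (hd : IsDer d) (s : σ → σ) :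
    MvPolynomial σ K →+* DualNumber (MvPolynomial σ K) :=
  MvPolynomial.eval₂Hom
    (dnHom MvPolynomial.C ((MvPolynomial.C (σ := σ) (R := K)).toAddMonoidHom.comp d)
      (fun a b => by
        change MvPolynomial.C (d (a * b)) = MvPolynomial.C (d a) * _ + _ * MvPolynomial.C (d b)
        rw [hd, map_add, map_mul, map_mul]))
    (fun v => pr (MvPolynomial.X v) (MvPolynomial.X (s v)))

/-- The derivation of a polynomial ring extending `d` and with `X_v ↦ X_{s v}`. -/
noncomputable def mvD (d : K →+ K) (hd : IsDer d) (s : σ → σ) :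
    MvPolynomial σ K →+ MvPolynomial σ K := dnDer (mvF d hd s)

variable (d : K →+ K) (hd : IsDer d) (s : σ → σ)

theorem mvF_C (a : K) : mvF d hd s (MvPolynomial.C a) =
    pr (MvPolynomial.C a) (MvPolynomial.C (d a)) := by
  rw [mvF, MvPolynomial.eval₂Hom_C]
  rfl

theorem mvF_X (v : σ) : mvF d hd s (MvPolynomial.X v) =
    pr (MvPolynomial.X v) (MvPolynomial.X (s v)) := by
  rw [mvF, MvPolynomial.eval₂Hom_X']

theorem mvF_fst (p : MvPolynomial σ K) : (mvF d hd s p).fst = p := by
  induction p using MvPolynomial.induction_on with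
  | C a => rw [mvF_C]; rfl
  | add p q hp hq => rw [map_add, TrivSqZeroExt.fst_add, hp, hq]
  | mul_X p v hp =>
    rw [map_mul, TrivSqZeroExt.fst_mul, hp, mvF_X]
    rfl

theorem isDer_mvD : IsDer (mvD d hd s) := isDer_dnDer (mvF_fst d hd s)

theorem mvD_C (a : K) : mvD d hd s (MvPolynomial.C a) = MvPolynomial.C (d a) := by
  change (mvF d hd s (MvPolynomial.C a)).snd = _
  rw [mvF_C]
  rfl

theorem mvD_X (v : σ) : mvD d hd s (MvPolynomial.X v) = MvPolynomial.X (s v) := by
  change (mvF d hd s (MvPolynomial.X v)).snd = _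
  rw [mvF_X]
  rfl

theorem mvD_comm {d d' : K →+ K} (hd : IsDer d) (hd' : IsDer d') (hc : ∀ a, d (d' a) = d' (d a))
    {s s' : σ → σ} (hs : ∀ v, s (s' v) = s' (s v)) (p : MvPolynomial σ K) :
    mvD d hd s (mvD d' hd' s' p) = mvD d' hd' s' (mvD d hd s p) := by
  induction p using MvPolynomial.induction_on with
  | C a => simp only [mvD_C, hc]
  | add p q hp hq => simp only [map_add, hp, hq]
  | mul_X p v hp =>
    simp only [isDer_mvD d hd s _ _, isDer_mvD d' hd' s' _ _, map_add, mvD_X, hp, hs]
    ring

end poly

noncomputable instance mvBiDiff {K : Type u} [CommRing K] [BiDiff K] :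
    BiDiff (MvPolynomial (ℕ × ℕ) K) where
  d1 := mvD d1 der1 (fun v => (v.1 + 1, v.2))
  d2 := mvD d2 der2 (fun v => (v.1, v.2 + 1))
  der1 := isDer_mvD _ _ _
  der2 := isDer_mvD _ _ _
  comm := mvD_comm der1 der2 comm fun _ => rfl

section mvfacts
variable {K : Type u} [CommRing K] [BiDiff K]

theorem mv_d1_C (a : K) :
    d1 (MvPolynomial.C a : MvPolynomial (ℕ × ℕ) K) = MvPolynomial.C (d1 a) := mvD_C _ _ _ a
theorem mv_d2_C (a : K) :
    d2 (MvPolynomial.C a : MvPolynomial (ℕ × ℕ) K) = MvPolynomial.C (d2 a) := mvD_C _ _ _ a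
theorem mv_d1_X (v : ℕ × ℕ) :
    d1 (MvPolynomial.X v : MvPolynomial (ℕ × ℕ) K) = MvPolynomial.X (v.1 + 1, v.2) := mvD_X _ _ _ v
theorem mv_d2_X (v : ℕ × ℕ) :
    d2 (MvPolynomial.X v : MvPolynomial (ℕ × ℕ) K) = MvPolynomial.X (v.1, v.2 + 1) := mvD_X _ _ _ v

/-- Constants as a differential homomorphism. -/
noncomputable def mvConst (K : Type u) [CommRing K] [BiDiff K] :
    DHom K (MvPolynomial (ℕ × ℕ) K) where
  f := MvPolynomial.C
  h1 a := (mv_d1_C a).symm
  h2 a := (mv_d2_C a).symm

theorem mv_it_d2 (n : ℕ) (v : ℕ × ℕ) :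
    it d2 n (MvPolynomial.X v : MvPolynomial (ℕ × ℕ) K) = MvPolynomial.X (v.1, v.2 + n) := by
  induction n with
  | zero => rfl
  | succ n ih => rw [it_succ, ih, mv_d2_X]; rfl

theorem mv_it_d1 (n : ℕ) (v : ℕ × ℕ) :
    it d1 n (MvPolynomial.X v : MvPolynomial (ℕ × ℕ) K) = MvPolynomial.X (v.1 + n, v.2) := by
  induction n with
  | zero => rfl
  | succ n ih => rw [it_succ, ih, mv_d1_X]; rfl

theorem mv_jet (v : ℕ × ℕ) :
    jet (MvPolynomial.X (0, 0) : MvPolynomial (ℕ × ℕ) K) v = MvPolynomial.X v := by
  rw [jet, mv_it_d2, mv_it_d1]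
  simp

end mvfacts

/-! ### Fraction fields -/

section frac
variable {A : Type u} [CommRing A] [IsDomain A]

/-- Homomorphism to the dual numbers defining the derivation of the fraction field. -/
noncomputable def frF (d : A →+ A) (hd : IsDer d) :
    FractionRing A →+* DualNumber (FractionRing A) :=
  IsLocalization.lift (M := nonZeroDivisors A)
    (g := dnHom (algebraMap A (FractionRing A))
      ((algebraMap A (FractionRing A)).toAddMonoidHom.comp d) (fun a b => by
        change algebraMap A (FractionRing A) (d (a * b)) =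
          algebraMap A (FractionRing A) (d a) * _ + _ * algebraMap A (FractionRing A) (d b)
        rw [hd, map_add, map_mul, map_mul]))
    (fun y => by
      rw [TrivSqZeroExt.isUnit_iff_isUnit_fst]
      exact IsLocalization.map_units (FractionRing A) y)

/-- The extension of a derivation to the fraction field. -/
noncomputable def frD (d : A →+ A) (hd : IsDer d) : FractionRing A →+ FractionRing A :=
  dnDer (frF d hd)

variable (d : A →+ A) (hd : IsDer d)

theorem frF_alg (a : A) : frF d hd (algebraMap A _ a) =
    pr (algebraMap A (FractionRing A) a) (algebraMap A (FractionRing A) (d a)) := by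
  rw [frF, IsLocalization.lift_eq]
  rfl

theorem frF_fst (x : FractionRing A) : (frF d hd x).fst = x := by
  have h : (TrivSqZeroExt.fstHom (FractionRing A) (FractionRing A)
      (FractionRing A)).toRingHom.comp (frF d hd) = RingHom.id _ := by
    apply IsLocalization.ringHom_ext (nonZeroDivisors A)
    ext a
    simp only [RingHom.comp_apply, frF_alg]
    rfl
  exact RingHom.congr_fun h x

theorem isDer_frD : IsDer (frD d hd) := isDer_dnDer (frF_fst d hd)

theorem frD_alg (a : A) : frD d hd (algebraMap A _ a) = algebraMap A _ (d a) := by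
  change (frF d hd (algebraMap A _ a)).snd = _
  rw [frF_alg]
  rfl

theorem IsDer.ext_frac {D D' : FractionRing A →+ FractionRing A} (hD : IsDer D) (hD' : IsDer D')
    (h : ∀ a : A, D (algebraMap A _ a) = D' (algebraMap A _ a)) (x : FractionRing A) :
    D x = D' x := by
  obtain ⟨a, b, hb, rfl⟩ := IsFractionRing.div_surjective (A := A) x
  have hb0 : algebraMap A (FractionRing A) b ≠ 0 := by
    simpa using nonZeroDivisors.ne_zero hb
  have key : ∀ E : FractionRing A →+ FractionRing A, IsDer E →
      E (algebraMap A _ a / algebraMap A _ b) = (E (algebraMap A _ a) -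
        (algebraMap A _ a / algebraMap A _ b) * E (algebraMap A _ b)) / algebraMap A _ b := by
    intro E hE
    have h1 := hE (algebraMap A _ a / algebraMap A _ b) (algebraMap A _ b)
    rw [div_mul_cancel₀ _ hb0] at h1
    rw [h1, add_sub_cancel_right, mul_div_cancel_right₀ _ hb0]
  rw [key D hD, key D' hD', h, h]

theorem frD_comm {d d' : A →+ A} (hd : IsDer d) (hd' : IsDer d')
    (hc : ∀ a, d (d' a) = d' (d a)) (x : FractionRing A) :
    frD d hd (frD d' hd' x) = frD d' hd' (frD d hd x) := by
  obtain ⟨a, b, hb, rfl⟩ := IsFractionRing.div_surjective (A := A) x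
  have hb0 : algebraMap A (FractionRing A) b ≠ 0 := by
    simpa using nonZeroDivisors.ne_zero hb
  set x := algebraMap A (FractionRing A) a / algebraMap A (FractionRing A) b with hx
  have h1 : x * algebraMap A _ b = algebraMap A _ a := div_mul_cancel₀ _ hb0
  have h2 := congrArg (fun y => frD d hd (frD d' hd' y)) h1
  have h3 := congrArg (fun y => frD d' hd' (frD d hd y)) h1
  simp only [isDer_frD d hd _ _, isDer_frD d' hd' _ _, map_add, frD_alg] at h2 h3
  have h5 : algebraMap A (FractionRing A) (d (d' a)) = algebraMap A (FractionRing A) (d' (d a)) := by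
    rw [hc]
  have h6 : algebraMap A (FractionRing A) (d (d' b)) = algebraMap A (FractionRing A) (d' (d b)) := by
    rw [hc]
  have h4 : frD d hd (frD d' hd' x) * algebraMap A _ b =
      frD d' hd' (frD d hd x) * algebraMap A _ b := by
    linear_combination h2 - h3 + h5 - x * h6
  exact mul_right_cancel₀ hb0 h4

end frac

noncomputable instance frBiDiff {A : Type u} [CommRing A] [IsDomain A] [BiDiff A] :
    BiDiff (FractionRing A) where
  d1 := frD d1 der1
  d2 := frD d2 der2
  der1 := isDer_frD _ _
  der2 := isDer_frD _ _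
  comm := frD_comm der1 der2 comm

/-- Inclusion in the fraction field. -/
noncomputable def frHom (A : Type u) [CommRing A] [IsDomain A] [BiDiff A] :
    DHom A (FractionRing A) where
  f := algebraMap A (FractionRing A)
  h1 a := (frD_alg _ _ a).symm
  h2 a := (frD_alg _ _ a).symm

/-! ### Power series -/

section ps
variable {R : Type u} [CommRing R]

/-- Coefficientwise application of an additive map. -/
noncomputable def psMap (d : R →+ R) : PowerSeries R →+ PowerSeries R where
  toFun f := PowerSeries.mk fun n => d (PowerSeries.coeff n f)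
  map_zero' := by ext n; simp
  map_add' f g := by ext n; simp

@[simp] theorem coeff_psMap (d : R →+ R) (f : PowerSeries R) (n : ℕ) :
    PowerSeries.coeff n (psMap d f) = d (PowerSeries.coeff n f) := by simp [psMap]

theorem isDer_psMap {d : R →+ R} (hd : IsDer d) : IsDer (psMap d) := by
  intro f g
  ext n
  rw [coeff_psMap, PowerSeries.coeff_mul, map_sum, map_add, PowerSeries.coeff_mul,
    PowerSeries.coeff_mul, ← sum_add_distrib]
  exact sum_congr rfl fun ij _ => by rw [coeff_psMap, coeff_psMap, hd]

/-- The derivative of power series. -/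
noncomputable def psD (R : Type u) [CommRing R] : PowerSeries R →+ PowerSeries R where
  toFun f := PowerSeries.derivative R f
  map_zero' := map_zero _
  map_add' f g := map_add _ f g

theorem coeff_psD (f : PowerSeries R) (n : ℕ) :
    PowerSeries.coeff n (psD R f) = PowerSeries.coeff (n + 1) f * (n + 1) :=
  PowerSeries.coeff_derivative f n

theorem isDer_psD : IsDer (psD R) := by
  intro f g
  change PowerSeries.derivative R (f * g) = _
  rw [Derivation.leibniz, smul_eq_mul, smul_eq_mul]
  change _ = PowerSeries.derivative R f * g + f * PowerSeries.derivative R g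
  ring

noncomputable instance psBiDiff : BiDiff (PowerSeries (PowerSeries R)) where
  d1 := psMap (psD R)
  d2 := psD (PowerSeries R)
  der1 := isDer_psMap isDer_psD
  der2 := isDer_psD
  comm a := by
    ext n : 1
    rw [coeff_psMap, coeff_psD, coeff_psD, coeff_psMap]
    have h1 : PowerSeries.coeff (n + 1) a * ((n : PowerSeries R) + 1) =
        (n + 1) • PowerSeries.coeff (n + 1) a := by
      rw [nsmul_eq_mul]; push_cast; ring
    have h2 : psD R (PowerSeries.coeff (n + 1) a) * ((n : PowerSeries R) + 1) =
        (n + 1) • psD R (PowerSeries.coeff (n + 1) a) := by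
      rw [nsmul_eq_mul]; push_cast; ring
    rw [h1, h2, map_nsmul]

theorem cc_d1 (f : PowerSeries (PowerSeries R)) (m n : ℕ) :
    PowerSeries.coeff m (PowerSeries.coeff n (d1 f)) =
      PowerSeries.coeff (m + 1) (PowerSeries.coeff n f) * (m + 1) := by
  change PowerSeries.coeff m (PowerSeries.coeff n (psMap (psD R) f)) = _
  rw [coeff_psMap, coeff_psD]

theorem cc_d2 (f : PowerSeries (PowerSeries R)) (m n : ℕ) :
    PowerSeries.coeff m (PowerSeries.coeff n (d2 f)) =
      PowerSeries.coeff m (PowerSeries.coeff (n + 1) f) * (n + 1) := by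
  change PowerSeries.coeff m (PowerSeries.coeff n (psD (PowerSeries R) f)) = _
  rw [coeff_psD]
  have h1 : PowerSeries.coeff (n + 1) f * ((n : PowerSeries R) + 1) =
        (n + 1) • PowerSeries.coeff (n + 1) f := by
      rw [nsmul_eq_mul]; push_cast; ring
  rw [h1, map_nsmul, nsmul_eq_mul]
  push_cast
  ring

end ps

/-! ### Taylor homomorphisms -/

section taylor
variable {A : Type u} [CommRing A] [Algebra ℚ A]

/-- The exponential of a derivation. -/
noncomputable def expD (d : A →+ A) (hd : IsDer d) : A →+* PowerSeries A where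
  toFun a := PowerSeries.mk fun n => dp d n a
  map_one' := by
    ext n
    rw [PowerSeries.coeff_mk, PowerSeries.coeff_one]
    split_ifs with h
    · subst h; exact dp_zero d 1
    · exact dp_of_zero hd.one h
  map_mul' a b := by
    ext n
    rw [PowerSeries.coeff_mk, PowerSeries.coeff_mul, dp_mul hd]
    exact sum_congr rfl fun ij _ => by rw [PowerSeries.coeff_mk, PowerSeries.coeff_mk]
  map_zero' := by ext n; simp
  map_add' a b := by ext n; simp

theorem coeff_expD (d : A →+ A) (hd : IsDer d) (a : A) (n : ℕ) :
    PowerSeries.coeff n (expD d hd a) = dp d n a := by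
  change PowerSeries.coeff n (PowerSeries.mk fun n => dp d n a) = _
  rw [PowerSeries.coeff_mk]

variable [BiDiff A] {L : Type v} [CommRing L]

/-- The ring homomorphism underlying the Taylor homomorphism. -/
noncomputable def tayF (e : A →+* L) : A →+* PowerSeries (PowerSeries L) :=
  (PowerSeries.map ((PowerSeries.map e).comp (expD d1 der1))).comp (expD d2 der2)

theorem coeff_tayF (e : A →+* L) (a : A) (m n : ℕ) :
    PowerSeries.coeff m (PowerSeries.coeff n (tayF e a)) = e (dp d1 m (dp d2 n a)) := by
  rw [tayF, RingHom.comp_apply, PowerSeries.coeff_map, RingHom.comp_apply, PowerSeries.coeff_map,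
    coeff_expD, coeff_expD]

theorem dp_succ_mul (d : A →+ A) (n : ℕ) (a : A) : (n + 1) • dp d (n + 1) a = dp d n (d a) := by
  rw [dp_apply, dp_apply, it_succ', ← Nat.cast_smul_eq_nsmul ℚ, smul_smul, Nat.factorial_succ]
  congr 1
  have : ((n : ℚ) + 1) ≠ 0 := by positivity
  push_cast
  rw [mul_inv, ← mul_assoc, mul_inv_cancel₀ this, one_mul]

theorem dp_comm1 {d e : A →+ A} (h : ∀ a, d (e a) = e (d a)) (n : ℕ) (a : A) :
    d (dp e n a) = dp e n (d a) := by
  rw [dp_apply, dp_apply, map_rat_smul, it_comm1 h]

/-- The Taylor homomorphism defined by a ring homomorphism. -/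
noncomputable def taylor (e : A →+* L) : DHom A (PowerSeries (PowerSeries L)) where
  f := tayF e
  h1 a := by
    ext n m
    rw [cc_d1, coeff_tayF, coeff_tayF, ← dp_comm1 comm, ← dp_succ_mul, map_nsmul, nsmul_eq_mul]
    push_cast
    ring
  h2 a := by
    ext n m
    rw [cc_d2, coeff_tayF, coeff_tayF, ← dp_succ_mul, map_nsmul, map_nsmul, nsmul_eq_mul]
    push_cast
    ring

theorem coeff_taylor (e : A →+* L) (a : A) (m n : ℕ) :
    PowerSeries.coeff m (PowerSeries.coeff n ((taylor e).f a)) = e (dp d1 m (dp d2 n a)) :=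
  coeff_tayF e a m n

end taylor

end Pool.Agent.T9h66.AC
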