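import Mathlib
import Pool.Agent.T9h66.AC.Taylor

/-!
Solving one partial differential polynomial equation formally.
-/

set_option autoImplicit false
set_option linter.unusedSectionVars false

open Finset

namespace Pool.Agent.T9h66.AC

universe u v w

open BiDiff MvPolynomial

section points
variable {K : Type u} [Field K] [CharZero K] {σ : Type w}

theorem not_dvd_pderiv {A : MvPolynomial σ K} {w : σ} (hw : w ∈ A.vars) : ¬ A ∣ pderiv w A := by
  classical
  rintro ⟨B, hB⟩
  obtain ⟨m, hm, hmw⟩ := MvPolynomial.mem_vars_iff_mem_support w |>.1 hw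
  have hmw' : m w ≠ 0 := Finsupp.mem_support_iff.1 hmw
  have hA0 : A ≠ 0 := by
    rintro rfl
    simp at hm
  have hS0 : pderiv w A ≠ 0 := by
    intro h0
    have h1 := coeff_pderiv (i := w) A (m - Finsupp.single w 1)
    have h2 : m - Finsupp.single w 1 + Finsupp.single w 1 = m := by
      apply tsub_add_cancel_of_le
      intro i
      by_cases hi : i = w
      · subst hi
        rw [Finsupp.single_eq_same]
        omega
      · rw [Finsupp.single_eq_of_ne hi]
        exact Nat.zero_le _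
    rw [h0, coeff_zero, h2] at h1
    have h3 : coeff m A ≠ 0 := MvPolynomial.mem_support_iff.1 hm
    exact mul_ne_zero h3 (Nat.cast_add_one_ne_zero _) h1.symm
  have hB0 : B ≠ 0 := by
    rintro rfl
    rw [mul_zero] at hB
    exact hS0 hB
  have h1 : degreeOf w (pderiv w A) = degreeOf w A + degreeOf w B := by
    rw [hB, degreeOf_mul_eq hA0 hB0]
  have hpos : 0 < degreeOf w A := by
    have := monomial_le_degreeOf w hm
    omega
  have h2 : degreeOf w (pderiv w A) < degreeOf w A := by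
    rw [degreeOf_lt_iff hpos]
    intro m hm
    have h3 := coeff_pderiv (i := w) A m
    have h4 : coeff (m + Finsupp.single w 1) A ≠ 0 := by
      intro h5
      rw [h5, zero_mul] at h3
      exact MvPolynomial.mem_support_iff.1 hm h3
    have h5 := monomial_le_degreeOf w (MvPolynomial.mem_support_iff.2 h4)
    rw [Finsupp.add_apply, Finsupp.single_eq_same] at h5
    omega
  omega

theorem exists_point {A : MvPolynomial σ K} (hA : Irreducible A) {w : σ} (hw : w ∈ A.vars)
    (L : Type v) [Field L] [Algebra K L] [IsAlgClosed L] :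
    ∃ c : σ → L, aeval c A = 0 ∧ aeval c (pderiv w A) ≠ 0 := by
  classical
  by_contra hne
  push Not at hne
  obtain ⟨A', hA'⟩ := exists_rename_eq_of_vars_subset_range A (fun v : A.vars => (v : σ))
    Subtype.val_injective (by
      intro v hv
      exact ⟨⟨v, hv⟩, rfl⟩)
  have hS' : pderiv w A = rename (fun v : A.vars => (v : σ)) (pderiv ⟨w, hw⟩ A') := by
    conv_lhs => rw [← hA']
    exact pderiv_rename (f := fun v : A.vars => (v : σ)) Subtype.val_injective ⟨w, hw⟩ A'
  have h1 : pderiv ⟨w, hw⟩ A' ∈ vanishingIdeal K (zeroLocus L (Ideal.span {A'})) := by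
    rw [mem_vanishingIdeal_iff]
    intro x hx
    have hx' : aeval x A' = 0 := hx A' (Ideal.subset_span rfl)
    let c : σ → L := fun v => if h : v ∈ A.vars then x ⟨v, h⟩ else 0
    have hc : c ∘ (fun v : A.vars => (v : σ)) = x := by
      funext v
      simp only [c, Function.comp_apply]
      rw [dif_pos v.2]
    have h2 := hne c (by rw [← hA', aeval_rename, hc, hx'])
    rw [hS', aeval_rename, hc] at h2
    exact h2
  rw [vanishingIdeal_zeroLocus_eq_radical] at h1
  obtain ⟨n, hn⟩ := h1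
  rw [Ideal.mem_span_singleton] at hn
  have h3 := map_dvd (rename (fun v : A.vars => (v : σ))) hn
  rw [map_pow, ← hS', hA'] at h3
  exact not_dvd_pderiv hw (hA.prime.dvd_of_dvd_pow h3)

end points

/-! ### The ranking -/

/-- The ranking of derivatives. -/
def lt2 (v w : ℕ × ℕ) : Prop := v.1 + v.2 < w.1 + w.2 ∨ (v.1 + v.2 = w.1 + w.2 ∧ v.1 < w.1)

theorem lt2_rank {v w : ℕ × ℕ} (h : lt2 v w) :
    (v.1 + v.2) ^ 2 + v.1 < (w.1 + w.2) ^ 2 + w.1 := by
  rcases h with h | ⟨h1, h2⟩
  · nlinarith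
  · rw [h1]; omega

theorem lt2_wf : WellFounded lt2 :=
  Subrelation.wf (fun {_ _} h => lt2_rank h) (measure fun v : ℕ × ℕ => (v.1 + v.2) ^ 2 + v.1).wf

theorem exists_lead (s : Finset (ℕ × ℕ)) (hs : s.Nonempty) : ∃ w ∈ s, ∀ v ∈ s, ¬ lt2 w v := by
  obtain ⟨w, hw, h⟩ := s.exists_max_image (fun v : ℕ × ℕ => (v.1 + v.2) ^ 2 + v.1) hs
  refine ⟨w, hw, fun v hv h2 => ?_⟩
  exact absurd (lt2_rank h2) (not_lt.2 (h v hv))

/-- Definition by recursion of functions with local constraints. -/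
theorem exists_rec {α : Type u} {β : Type v} [Inhabited β] {r : α → α → Prop} (wf : WellFounded r)
    (F : α → (α → β) → β) (hF : ∀ v c c', (∀ u, r u v → c u = c' u) → F v c = F v c') :
    ∃ c : α → β, ∀ v, c v = F v c := by
  classical
  let c : α → β := wf.fix (fun v ih => F v (fun u => if h : r u v then ih u h else default))
  refine ⟨c, fun v => ?_⟩
  have h1 : c v = F v (fun u => if h : r u v then c u else default) := wf.fix_eq _ v
  rw [h1]
  apply hF
  intro u hu
  rw [dif_pos hu]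

section supp
variable {K : Type u} [Field K]

/-- Polynomials in variables below `w`. -/
noncomputable def Lo (K : Type u) [Field K] (w : ℕ × ℕ) :
    Subalgebra K (MvPolynomial (ℕ × ℕ) K) := supported K {v | lt2 v w}

/-- Polynomials in variables up to `w`. -/
noncomputable def Le (K : Type u) [Field K] (w : ℕ × ℕ) :
    Subalgebra K (MvPolynomial (ℕ × ℕ) K) := supported K {v | ¬ lt2 w v}

theorem X_mem_Lo {v w : ℕ × ℕ} (h : lt2 v w) : (X v : MvPolynomial (ℕ × ℕ) K) ∈ Lo K w :=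
  X_mem_supported.2 h

theorem X_mem_Le {v w : ℕ × ℕ} (h : ¬ lt2 w v) : (X v : MvPolynomial (ℕ × ℕ) K) ∈ Le K w :=
  X_mem_supported.2 h

theorem Lo_le {v w : ℕ × ℕ} (h : ¬ lt2 w v) : Lo K v ≤ Lo K w := by
  apply supported_mono
  intro u hu
  simp only [Set.mem_ofPred_eq, lt2] at *
  omega

theorem Le_le {v w : ℕ × ℕ} (h : lt2 v w) : Le K v ≤ Lo K w := by
  apply supported_mono
  intro u hu
  simp only [Set.mem_ofPred_eq, lt2] at *
  omega

theorem aeval_congr {L : Type v} [Field L] [Algebra K L] {s : Set (ℕ × ℕ)} {c c' : ℕ × ℕ → L}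
    (h : ∀ v ∈ s, c v = c' v) {p : MvPolynomial (ℕ × ℕ) K} (hp : p ∈ supported K s) :
    aeval c p = aeval c' p := by
  induction hp using Algebra.adjoin_induction with
  | mem x hx =>
    obtain ⟨v, hv, rfl⟩ := hx
    rw [aeval_X, aeval_X, h v hv]
  | algebraMap r => rw [AlgHom.commutes, AlgHom.commutes]
  | add x y _ _ hx hy => rw [map_add, map_add, hx, hy]
  | mul x y _ _ hx hy => rw [map_mul, map_mul, hx, hy]

variable (d : K →+ K) (hd : IsDer d) (s : ℕ × ℕ → ℕ × ℕ)

theorem mvD_supported {S T : Set (ℕ × ℕ)} (h : ∀ v ∈ S, v ∈ T ∧ s v ∈ T)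
    {p : MvPolynomial (ℕ × ℕ) K} (hp : p ∈ supported K S) : mvD d hd s p ∈ supported K T := by
  have hST : S ⊆ T := fun v hv => (h v hv).1
  induction hp using Algebra.adjoin_induction with
  | mem x hx =>
    obtain ⟨v, hv, rfl⟩ := hx
    rw [mvD_X]
    exact X_mem_supported.2 (h v hv).2
  | algebraMap r =>
    rw [MvPolynomial.algebraMap_eq, mvD_C, ← MvPolynomial.algebraMap_eq]
    exact Subalgebra.algebraMap_mem _ _
  | add x y _ _ hx hy => rw [map_add]; exact add_mem hx hy
  | mul x y hx' hy' hx hy =>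
    rw [isDer_mvD d hd s]
    exact add_mem (mul_mem hx (supported_mono hST hy')) (mul_mem (supported_mono hST hx') hy)

variable (hs1 : ∀ v, lt2 v (s v)) (hs2 : ∀ v w, lt2 v w → lt2 (s v) (s w))

theorem lead_base {w : ℕ × ℕ} (hs1 : ∀ v, lt2 v (s v)) (hs2 : ∀ v w, lt2 v w → lt2 (s v) (s w))
    {p : MvPolynomial (ℕ × ℕ) K} (hp : p ∈ Le K w) :
    mvD d hd s p - pderiv w p * X (s w) ∈ Lo K (s w) := by
  have hle : Le K w ≤ Lo K (s w) := Le_le (hs1 w)
  induction hp using Algebra.adjoin_induction with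
  | mem x hx =>
    obtain ⟨v, hv, rfl⟩ := hx
    rw [mvD_X]
    by_cases hvw : v = w
    · subst hvw
      rw [pderiv_X_self, one_mul, sub_self]
      exact zero_mem _
    · rw [pderiv_X_of_ne hvw, zero_mul, sub_zero]
      apply X_mem_Lo
      apply hs2
      have h1 : ¬ lt2 w v := hv
      have h2 : ¬ (v.1 = w.1 ∧ v.2 = w.2) := fun h => hvw (Prod.ext h.1 h.2)
      simp only [lt2] at h1 ⊢
      omega
  | algebraMap r =>
    rw [MvPolynomial.algebraMap_eq, mvD_C, pderiv_C, zero_mul, sub_zero,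
      ← MvPolynomial.algebraMap_eq]
    exact Subalgebra.algebraMap_mem _ _
  | add x y _ _ hx hy =>
    have := add_mem hx hy
    convert this using 1
    rw [map_add, map_add]
    ring
  | mul x y hx' hy' hx hy =>
    have := add_mem (mul_mem hx (hle hy')) (mul_mem (hle hx') hy)
    convert this using 1
    rw [isDer_mvD d hd s, pderiv_mul]
    ring

theorem lead_step {w u : ℕ × ℕ} (hs1 : ∀ v, lt2 v (s v))
    (hs2 : ∀ v w, lt2 v w → lt2 (s v) (s w)) (hwu : lt2 w u)
    {S B : MvPolynomial (ℕ × ℕ) K} (hS : S ∈ Le K w) (hB : B - S * X u ∈ Lo K u) :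
    mvD d hd s B - S * X (s u) ∈ Lo K (s u) := by
  have h1 : mvD d hd s (B - S * X u) ∈ Lo K (s u) := by
    refine mvD_supported d hd s ?_ hB
    intro v hv
    have := hs1 u
    have := hs2 v u hv
    refine ⟨?_, this⟩
    simp only [Set.mem_ofPred_eq, lt2] at *
    omega
  have h2 : mvD d hd s S ∈ Lo K (s u) := by
    refine mvD_supported d hd s ?_ hS
    intro v hv
    have h3 := hs1 u
    have h4 : lt2 v u := by
      simp only [Set.mem_ofPred_eq, lt2] at *
      omega
    have h5 := hs2 v u h4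
    refine ⟨?_, h5⟩
    simp only [Set.mem_ofPred_eq, lt2] at *
    omega
  have h3 := add_mem h1 (mul_mem h2 (X_mem_Lo (K := K) (hs1 u)))
  convert h3 using 1
  rw [map_sub, isDer_mvD d hd s, mvD_X]
  ring

end supp

section solve
variable {K : Type u} [Field K] [BiDiff K]

theorem mv_d1_def (p : MvPolynomial (ℕ × ℕ) K) :
    d1 p = mvD d1 der1 (fun v => (v.1 + 1, v.2)) p := rfl

theorem mv_d2_def (p : MvPolynomial (ℕ × ℕ) K) :
    d2 p = mvD d2 der2 (fun v => (v.1, v.2 + 1)) p := rfl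

theorem lead_all {A : MvPolynomial (ℕ × ℕ) K} {w : ℕ × ℕ} (hA : A ∈ Le K w)
    (hS : pderiv w A ∈ Le K w) (m n : ℕ) (hmn : m ≠ 0 ∨ n ≠ 0) :
    it d1 m (it d2 n A) - pderiv w A * X (w.1 + m, w.2 + n) ∈ Lo K (w.1 + m, w.2 + n) := by
  have a1 : ∀ v : ℕ × ℕ, lt2 v (v.1 + 1, v.2) := fun v => by simp only [lt2]; omega
  have a2 : ∀ v : ℕ × ℕ, lt2 v (v.1, v.2 + 1) := fun v => by simp only [lt2]; omega
  have b1 : ∀ v w : ℕ × ℕ, lt2 v w → lt2 (v.1 + 1, v.2) (w.1 + 1, w.2) := fun v w h => by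
    simp only [lt2] at *; omega
  have b2 : ∀ v w : ℕ × ℕ, lt2 v w → lt2 (v.1, v.2 + 1) (w.1, w.2 + 1) := fun v w h => by
    simp only [lt2] at *; omega
  have hn : ∀ n : ℕ, it d2 (n + 1) A - pderiv w A * X (w.1, w.2 + (n + 1)) ∈
      Lo K (w.1, w.2 + (n + 1)) := by
    intro n
    induction n with
    | zero =>
      have := lead_base d2 der2 _ a2 b2 hA
      rw [it_succ, it_zero, mv_d2_def]
      exact this
    | succ n ih =>
      have := lead_step (w := w) d2 der2 _ a2 b2 (by simp only [lt2]; omega) hS ih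
      rw [it_succ, mv_d2_def]
      exact this
  induction m with
  | zero =>
    obtain ⟨n, rfl⟩ := Nat.exists_eq_succ_of_ne_zero (hmn.resolve_left (fun h => h rfl))
    exact hn n
  | succ m ih =>
    by_cases h0 : m ≠ 0 ∨ n ≠ 0
    · have := lead_step (w := w) d1 der1 _ a1 b1 (by simp only [lt2]; omega) hS (ih h0)
      rw [it_succ, mv_d1_def]
      exact this
    · push Not at h0
      obtain ⟨rfl, rfl⟩ := h0
      have := lead_base d1 der1 _ a1 b1 hA
      rw [it_succ, it_zero, it_zero, mv_d1_def]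
      exact this

theorem solve {A : MvPolynomial (ℕ × ℕ) K} {w : ℕ × ℕ} (hA : A ∈ Le K w)
    (hS : pderiv w A ∈ Le K w) {L : Type v} [Field L] [Algebra K L] (c₀ : ℕ × ℕ → L)
    (hA0 : aeval c₀ A = 0) (hS0 : aeval c₀ (pderiv w A) ≠ 0) :
    ∃ c : ℕ × ℕ → L, ∀ m n, aeval c (it d1 m (it d2 n A)) = 0 := by
  classical
  let P : ℕ × ℕ → MvPolynomial (ℕ × ℕ) K := fun v =>
    it d1 (v.1 - w.1) (it d2 (v.2 - w.2) A) - pderiv w A * X v
  have hP : ∀ v : ℕ × ℕ, (w.1 ≤ v.1 ∧ w.2 ≤ v.2 ∧ v ≠ w) → P v ∈ Lo K v := by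
    rintro v ⟨h1, h2, h3⟩
    have h4 := lead_all hA hS (v.1 - w.1) (v.2 - w.2) (by
      by_contra h5
      push Not at h5
      exact h3 (Prod.ext (by omega) (by omega)))
    rwa [show (w.1 + (v.1 - w.1), w.2 + (v.2 - w.2)) = v from
      Prod.ext (by simp only; omega) (by simp only; omega)] at h4
  have hlt : ∀ v : ℕ × ℕ, (w.1 ≤ v.1 ∧ w.2 ≤ v.2 ∧ v ≠ w) → lt2 w v := by
    rintro v ⟨h1, h2, h3⟩
    have : ¬ (v.1 = w.1 ∧ v.2 = w.2) := fun h => h3 (Prod.ext h.1 h.2)
    simp only [lt2]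
    omega
  let F : ℕ × ℕ → (ℕ × ℕ → L) → L := fun v c =>
    if w.1 ≤ v.1 ∧ w.2 ≤ v.2 ∧ v ≠ w then - aeval c (P v) / aeval c (pderiv w A) else c₀ v
  have : Inhabited L := ⟨0⟩
  obtain ⟨c, hc⟩ := exists_rec lt2_wf F (by
    intro v c c' hcc
    simp only [F]
    split_ifs with h
    · have h1 : aeval c (P v) = aeval c' (P v) := aeval_congr hcc (hP v h)
      have h2 : aeval c (pderiv w A) = aeval c' (pderiv w A) := aeval_congr hcc (Le_le (hlt v h) hS)
      rw [h1, h2]
    · rfl)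
  have hc0 : ∀ v ∈ {v | ¬ lt2 w v}, c v = c₀ v := by
    intro v hv
    rw [hc v]
    simp only [F]
    rw [if_neg]
    intro h
    exact hv (hlt v h)
  have hSc : aeval c (pderiv w A) = aeval c₀ (pderiv w A) := aeval_congr hc0 hS
  refine ⟨c, fun m n => ?_⟩
  by_cases hmn : m ≠ 0 ∨ n ≠ 0
  · let v : ℕ × ℕ := (w.1 + m, w.2 + n)
    have hv : w.1 ≤ v.1 ∧ w.2 ≤ v.2 ∧ v ≠ w := by
      refine ⟨Nat.le_add_right _ _, Nat.le_add_right _ _, fun h => ?_⟩
      have h1 : w.1 + m = w.1 := congrArg Prod.fst h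
      have h2 : w.2 + n = w.2 := congrArg Prod.snd h
      omega
    have h1 := hc v
    simp only [F] at h1
    rw [if_pos hv] at h1
    have h2 : it d1 m (it d2 n A) = P v + pderiv w A * X v := by
      simp only [P, v]
      rw [Nat.add_sub_cancel_left, Nat.add_sub_cancel_left]
      ring
    rw [h2, map_add, map_mul, aeval_X, h1, hSc]
    field_simp
    ring
  · push Not at hmn
    obtain ⟨rfl, rfl⟩ := hmn
    rw [it_zero, it_zero, aeval_congr hc0 hA, hA0]

end solve

end Pool.Agent.T9h66.AC
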