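import Mathlib
import Pool.Agent.T9h66.AC.Lead

/-!
Every differential field extends to one in which all nonconstant differential polynomials with
coefficients in the given field have zeros.
-/

set_option autoImplicit false
set_option linter.unusedSectionVars false

open Finset

namespace Pool.Agent.T9h66.AC

universe u v w

open BiDiff MvPolynomial

section zero
variable {K : Type u} [Field K] [CharZero K] [BiDiff K]

theorem taylor_eq_zero {A : Type u} [CommRing A] [Algebra ℚ A] [BiDiff A] {L : Type v} [CommRing L]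
    [Algebra ℚ L] (e : A →+* L) {a : A} (h : ∀ m n, e (it d1 m (it d2 n a)) = 0) :
    (taylor e).f a = 0 := by
  ext n m
  rw [coeff_taylor, dp_apply d2, dp_apply d1, map_rat_smul (it (d1 : A →+ A) m), map_rat_smul e,
    map_rat_smul e, h, smul_zero, smul_zero]
  simp

/-- Formal solutions. -/
theorem exists_formal {G : MvPolynomial (ℕ × ℕ) K} (hG : ∀ a, G ≠ C a) (L : Type v) [Field L]
    [Algebra K L] [IsAlgClosed L] [CharZero L] : ∃ c : ℕ × ℕ → L,
      (taylor (aeval (R := K) c).toRingHom).f G = 0 := by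
  classical
  have hG0 : G ≠ 0 := by
    intro h
    exact hG 0 (by rw [h, C_0])
  have hGu : ¬ IsUnit G := by
    intro h
    rw [isUnit_iff_eq_C_of_isReduced] at h
    obtain ⟨r, _, hr⟩ := h
    exact hG r hr
  obtain ⟨A, hA, B, hB⟩ := WfDvdMonoid.exists_irreducible_factor hGu hG0
  have hAv : A.vars.Nonempty := by
    by_contra h
    rw [not_nonempty_iff_eq_empty] at h
    have h1 : A ∈ supported K (∅ : Set (ℕ × ℕ)) := by
      rw [mem_supported, h]; simp
    rw [supported_empty, Algebra.mem_bot] at h1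
    obtain ⟨a, rfl⟩ := h1
    by_cases ha : a = 0
    · subst ha
      rw [map_zero] at hA
      exact not_irreducible_zero hA
    · exact hA.not_isUnit ((IsUnit.mk0 a ha).map (algebraMap K (MvPolynomial (ℕ × ℕ) K)))
  obtain ⟨w, hw, hmax⟩ := exists_lead A.vars hAv
  have hALe : A ∈ Le K w := by
    rw [Le, mem_supported]
    intro v hv
    exact hmax v hv
  have hSLe : pderiv w A ∈ Le K w := by
    rw [Le, mem_supported]
    intro v hv
    refine hmax v ?_
    by_contra hvA
    obtain ⟨m, hm, hmv⟩ := (mem_vars_iff_mem_support v).1 hv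
    have h1 := coeff_pderiv (i := w) A m
    have h2 : coeff (m + Finsupp.single w 1) A ≠ 0 := by
      intro h3
      rw [h3, zero_mul] at h1
      exact MvPolynomial.mem_support_iff.1 hm h1
    apply hvA
    rw [mem_vars_iff_mem_support]
    refine ⟨m + Finsupp.single w 1, MvPolynomial.mem_support_iff.2 h2, ?_⟩
    rw [Finsupp.mem_support_iff] at hmv ⊢
    rw [Finsupp.add_apply]
    omega
  obtain ⟨c₀, hc1, hc2⟩ := exists_point hA hw L
  obtain ⟨c, hc⟩ := solve hALe hSLe c₀ hc1 hc2
  refine ⟨c, ?_⟩
  have h1 : (taylor (aeval (R := K) c).toRingHom).f A = 0 := taylor_eq_zero _ hc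
  rw [hB, map_mul, h1, zero_mul]

theorem DHom.jet {A : Type u} [CommRing A] [BiDiff A] {B : Type v} [CommRing B] [BiDiff B]
    (f : DHom A B) (u : A) (v : ℕ × ℕ) : f.f (AC.jet u v) = AC.jet (f.f u) v := by
  rw [AC.jet, AC.jet, it_map f.f f.h1, it_map f.f f.h2]

/-- Composition. -/
def DHom.comp {A : Type u} [CommRing A] [BiDiff A] {B : Type v} [CommRing B] [BiDiff B]
    {C : Type w} [CommRing C] [BiDiff C] (g : DHom B C) (f : DHom A B) : DHom A C where
  f := g.f.comp f.f
  h1 a := by rw [RingHom.comp_apply, RingHom.comp_apply, f.h1, g.h1]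
  h2 a := by rw [RingHom.comp_apply, RingHom.comp_apply, f.h2, g.h2]

/-- The image of a polynomial under a differential homomorphism is its value. -/
theorem map_eval_jet {B : Type v} [CommRing B] [BiDiff B] (F : DHom (MvPolynomial (ℕ × ℕ) K) B)
    (G : MvPolynomial (ℕ × ℕ) K) :
    eval₂ (F.f.comp C) (jet (F.f (X (0, 0)))) G = F.f G := by
  have h : ∀ v, jet (F.f (X (0, 0))) v = F.f (X v) := by
    intro v
    rw [← F.jet, mv_jet]
  have h2 : (eval₂Hom (F.f.comp C) (jet (F.f (X (0, 0))))) = F.f := by
    apply MvPolynomial.ringHom_ext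
    · intro r
      rw [eval₂Hom_C]; rfl
    · intro v
      rw [eval₂Hom_X', h]
  exact RingHom.congr_fun h2 G

theorem taylor_C {L : Type v} [CommRing L] (e : MvPolynomial (ℕ × ℕ) K →+* L) (e' : K →+* L)
    (he : ∀ a, e (C a) = e' a) (a : K) : (taylor e).f (C a) = (taylor e').f a := by
  ext n m
  rw [coeff_taylor, coeff_taylor]
  have h1 : dp d2 n (C a : MvPolynomial (ℕ × ℕ) K) = C (dp d2 n a) :=
    (dp_map (C : K →+* MvPolynomial (ℕ × ℕ) K) (mvConst K).h2 n a).symm
  have h2 : dp d1 m (C (dp d2 n a) : MvPolynomial (ℕ × ℕ) K) = C (dp d1 m (dp d2 n a)) :=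
    (dp_map (C : K →+* MvPolynomial (ℕ × ℕ) K) (mvConst K).h1 m _).symm
  rw [h1, h2, he]

end zero

/-- Differential fields of characteristic zero, bundled. -/
structure BF where
  /-- the field -/
  K : Type
  [fld : Field K]
  [cz : CharZero K]
  [bd : BiDiff K]

attribute [instance] BF.fld BF.cz BF.bd

theorem exists_next (F : BF) : ∃ (F' : BF) (f : DHom F.K F'.K),
    (∀ G : MvPolynomial (ℕ × ℕ) F.K, (∀ a, G ≠ C a) → ∃ u : F'.K, eval₂ f.f (jet u) G = 0) ∧
    (∃ s1 s2 : F'.K, d1 s1 = 1 ∧ d2 s1 = 0 ∧ d1 s2 = 0 ∧ d2 s2 = 1) := by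
  let L := AlgebraicClosure F.K
  let H := PowerSeries (PowerSeries L)
  have hcz : CharZero (FractionRing H) := by
    refine charZero_of_injective_ringHom (f := (algebraMap H (FractionRing H)).comp
      ((PowerSeries.C (R := PowerSeries L)).comp (PowerSeries.C (R := L)))) ?_
    exact RingHom.injective _
  let f0 : DHom F.K H := taylor (algebraMap F.K L)
  refine ⟨⟨FractionRing H⟩, (frHom H).comp f0, ?_, ?_⟩
  · intro G hG
    obtain ⟨c, hc⟩ := exists_formal hG L
    let T : DHom (MvPolynomial (ℕ × ℕ) F.K) H := taylor (aeval (R := F.K) c).toRingHom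
    refine ⟨(frHom H).f (T.f (X (0, 0))), ?_⟩
    have h1 := map_eval_jet ((frHom H).comp T) G
    have h2 : (((frHom H).comp T).f).comp C = ((frHom H).comp f0).f := by
      ext a
      change (frHom H).f (T.f (C a)) = (frHom H).f (f0.f a)
      congr 1
      exact taylor_C _ _ (fun a => (aeval (R := F.K) c).commutes a) a
    rw [h2] at h1
    refine h1.trans ?_
    change (frHom H).f (T.f G) = 0
    rw [show T.f G = 0 from hc, map_zero]
  · refine ⟨(frHom H).f (PowerSeries.C PowerSeries.X), (frHom H).f PowerSeries.X, ?_, ?_, ?_, ?_⟩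
    · rw [← (frHom H).h1, ← map_one (frHom H).f]
      congr 1
      ext n m
      rw [cc_d1, PowerSeries.coeff_C, PowerSeries.coeff_one]
      split_ifs with h
      · rw [PowerSeries.coeff_X, PowerSeries.coeff_one]
        by_cases hm : m = 0
        · subst hm; simp
        · simp [hm]
      · simp
    · rw [← (frHom H).h2, ← map_zero (frHom H).f]
      congr 1
      ext n m
      rw [cc_d2, PowerSeries.coeff_C, if_neg (Nat.succ_ne_zero n)]
      simp
    · rw [← (frHom H).h1, ← map_zero (frHom H).f]
      congr 1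
      ext n m
      rw [cc_d1, PowerSeries.coeff_X]
      split_ifs with h
      · simp [PowerSeries.coeff_one]
      · simp
    · rw [← (frHom H).h2, ← map_one (frHom H).f]
      congr 1
      ext n m
      rw [cc_d2, PowerSeries.coeff_X, PowerSeries.coeff_one]
      by_cases hn : n = 0
      · subst hn; simp
      · simp [hn]

end Pool.Agent.T9h66.AC
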