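import Mathlib
import Pool.Agent.T9h66.AC.Step

/-!
A field with two commuting derivations in which every nonconstant differential polynomial
function has a zero.
-/

set_option autoImplicit false
set_option linter.unusedSectionVars false

open Finset

namespace Pool.Agent.T9h66.AC

universe u v w

open BiDiff MvPolynomial

section lim

/-- The chain of fields. -/
noncomputable def chain (F₀ : BF) : ℕ → BF
  | 0 => F₀
  | n + 1 => (exists_next (chain F₀ n)).choose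

/-- The embeddings. -/
noncomputable def chainHom (F₀ : BF) (n : ℕ) : DHom (chain F₀ n).K (chain F₀ (n + 1)).K :=
  (exists_next (chain F₀ n)).choose_spec.choose

theorem chain_spec (F₀ : BF) (n : ℕ) :
    (∀ G : MvPolynomial (ℕ × ℕ) (chain F₀ n).K, (∀ a, G ≠ C a) →
      ∃ u : (chain F₀ (n + 1)).K, eval₂ (chainHom F₀ n).f (jet u) G = 0) ∧
    (∃ s1 s2 : (chain F₀ (n + 1)).K, d1 s1 = 1 ∧ d2 s1 = 0 ∧ d1 s2 = 0 ∧ d2 s2 = 1) :=
  (exists_next (chain F₀ n)).choose_spec.choose_spec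

variable (F₀ : BF)

/-- The transition maps. -/
noncomputable def tr {i : ℕ} : ∀ {j : ℕ} (_ : i ≤ j), (chain F₀ i).K →+* (chain F₀ j).K :=
  Nat.leRec (RingHom.id _) (fun k _ g => (chainHom F₀ k).f.comp g)

theorem tr_self (i : ℕ) : tr F₀ (le_refl i) = RingHom.id _ := Nat.leRec_self _ _

theorem tr_succ {i j : ℕ} (h : i ≤ j) :
    tr F₀ (Nat.le_succ_of_le h) = (chainHom F₀ j).f.comp (tr F₀ h) :=
  Nat.leRec_succ _ _ h

theorem tr_tr {i j : ℕ} (hij : i ≤ j) : ∀ {k : ℕ} (hjk : j ≤ k) (x : (chain F₀ i).K),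
    tr F₀ hjk (tr F₀ hij x) = tr F₀ (hij.trans hjk) x := by
  intro k hjk
  induction hjk with
  | refl => intro x; rw [tr_self]; rfl
  | step h ih =>
    intro x
    have h1 := tr_succ F₀ h
    have h2 := tr_succ F₀ (hij.trans h)
    change tr F₀ (Nat.le_succ_of_le h) _ = tr F₀ (Nat.le_succ_of_le (hij.trans h)) x
    rw [h1, h2, RingHom.comp_apply, RingHom.comp_apply, ih]

theorem tr_d1 {i j : ℕ} (h : i ≤ j) (x : (chain F₀ i).K) : tr F₀ h (d1 x) = d1 (tr F₀ h x) := by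
  induction h with
  | refl => rw [tr_self]; rfl
  | step h ih =>
    have h1 := tr_succ F₀ h
    change tr F₀ (Nat.le_succ_of_le h) _ = d1 (tr F₀ (Nat.le_succ_of_le h) x)
    rw [h1, RingHom.comp_apply, RingHom.comp_apply, ih, (chainHom F₀ _).h1]

theorem tr_d2 {i j : ℕ} (h : i ≤ j) (x : (chain F₀ i).K) : tr F₀ h (d2 x) = d2 (tr F₀ h x) := by
  induction h with
  | refl => rw [tr_self]; rfl
  | step h ih =>
    have h1 := tr_succ F₀ h
    change tr F₀ (Nat.le_succ_of_le h) _ = d2 (tr F₀ (Nat.le_succ_of_le h) x)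
    rw [h1, RingHom.comp_apply, RingHom.comp_apply, ih, (chainHom F₀ _).h2]

instance sys : DirectedSystem (fun i => (chain F₀ i).K) (fun _ _ h => tr F₀ h) where
  map_self i x := by rw [tr_self]; rfl
  map_map _ _ _ hij hjk x := tr_tr F₀ hij hjk x

/-- The limit field. -/
abbrev Lim : Type := DirectLimit (fun i => (chain F₀ i).K) (fun _ _ h => tr F₀ h)

noncomputable example : Field (Lim F₀) := inferInstance

/-- The canonical homomorphisms. -/
noncomputable def ofL (i : ℕ) : (chain F₀ i).K →+* Lim F₀ :=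
  DirectLimit.Ring.of (fun i => (chain F₀ i).K) (fun _ _ h => tr F₀ h) i

theorem ofL_tr {i j : ℕ} (h : i ≤ j) (x : (chain F₀ i).K) : ofL F₀ j (tr F₀ h x) = ofL F₀ i x :=
  DirectLimit.Ring.of_f (G := fun i => (chain F₀ i).K) (f := fun _ _ h => tr F₀ h) h x

theorem exists_ofL (x : Lim F₀) : ∃ i y, ofL F₀ i y = x := by
  obtain ⟨i, y, h⟩ := DirectLimit.exists_eq_mk _ x
  exact ⟨i, y, h.symm⟩

theorem exists_ofL₂ (x x' : Lim F₀) : ∃ i y y', ofL F₀ i y = x ∧ ofL F₀ i y' = x' := by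
  obtain ⟨i, y, rfl⟩ := exists_ofL F₀ x
  obtain ⟨j, y', rfl⟩ := exists_ofL F₀ x'
  exact ⟨max i j, tr F₀ (le_max_left i j) y, tr F₀ (le_max_right i j) y', ofL_tr F₀ _ _,
    ofL_tr F₀ _ _⟩

/-- Extension of compatible additive maps to the limit. -/
noncomputable def limMap (d : ∀ i, (chain F₀ i).K →+ (chain F₀ i).K)
    (h : ∀ i j (h : i ≤ j) x, tr F₀ h (d i x) = d j (tr F₀ h x)) : Lim F₀ →+ Lim F₀ :=
  AddMonoidHom.mk' (DirectLimit.map _ _ (fun i => d i) h) (by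
    intro a b
    obtain ⟨i, x, y, rfl, rfl⟩ := exists_ofL₂ F₀ a b
    rw [← map_add]
    change ofL F₀ i (d i (x + y)) = ofL F₀ i (d i x) + ofL F₀ i (d i y)
    rw [← map_add, map_add (d i)])

theorem limMap_of (d : ∀ i, (chain F₀ i).K →+ (chain F₀ i).K)
    (h : ∀ i j (h : i ≤ j) x, tr F₀ h (d i x) = d j (tr F₀ h x)) (i : ℕ) (x : (chain F₀ i).K) :
    limMap F₀ d h (ofL F₀ i x) = ofL F₀ i (d i x) := rfl

noncomputable instance limBi : BiDiff (Lim F₀) where
  d1 := limMap F₀ (fun _ => d1) (fun _ _ h x => tr_d1 F₀ h x)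
  d2 := limMap F₀ (fun _ => d2) (fun _ _ h x => tr_d2 F₀ h x)
  der1 := by
    intro a b
    obtain ⟨i, x, y, rfl, rfl⟩ := exists_ofL₂ F₀ a b
    rw [← map_mul, limMap_of, limMap_of, limMap_of, der1, map_add, map_mul, map_mul]
  der2 := by
    intro a b
    obtain ⟨i, x, y, rfl, rfl⟩ := exists_ofL₂ F₀ a b
    rw [← map_mul, limMap_of, limMap_of, limMap_of, der2, map_add, map_mul, map_mul]
  comm := by
    intro a
    obtain ⟨i, x, rfl⟩ := exists_ofL F₀ a
    rw [limMap_of, limMap_of, limMap_of, limMap_of, BiDiff.comm]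

/-- The canonical homomorphisms commute with the derivations. -/
noncomputable def ofD (i : ℕ) : DHom (chain F₀ i).K (Lim F₀) where
  f := ofL F₀ i
  h1 _ := rfl
  h2 _ := rfl

theorem exists_map (G : MvPolynomial (ℕ × ℕ) (Lim F₀)) :
    ∃ (n : ℕ) (G' : MvPolynomial (ℕ × ℕ) (chain F₀ n).K), MvPolynomial.map (ofL F₀ n) G' = G := by
  have hlift : ∀ {i j : ℕ} (h : i ≤ j) (p : MvPolynomial (ℕ × ℕ) (chain F₀ i).K),
      MvPolynomial.map (ofL F₀ j) (MvPolynomial.map (tr F₀ h) p) =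
        MvPolynomial.map (ofL F₀ i) p := by
    intro i j h p
    rw [MvPolynomial.map_map]
    have h1 : (ofL F₀ j).comp (tr F₀ h) = ofL F₀ i := RingHom.ext fun x => ofL_tr F₀ h x
    rw [h1]
  induction G using MvPolynomial.induction_on with
  | C a =>
    obtain ⟨i, x, rfl⟩ := exists_ofL F₀ a
    exact ⟨i, C x, map_C _ _⟩
  | add p q hp hq =>
    obtain ⟨i, p, rfl⟩ := hp
    obtain ⟨j, q, rfl⟩ := hq
    refine ⟨max i j, MvPolynomial.map (tr F₀ (le_max_left i j)) p +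
      MvPolynomial.map (tr F₀ (le_max_right i j)) q, ?_⟩
    rw [map_add, hlift, hlift]
  | mul_X p v hp =>
    obtain ⟨i, p, rfl⟩ := hp
    exact ⟨i, p * X v, by rw [map_mul, map_X]⟩

theorem lim_DC : DC (Lim F₀) := by
  rintro G ⟨P, rfl⟩ ⟨a, b, hab⟩
  obtain ⟨n, G', rfl⟩ := exists_map F₀ P
  have hG' : ∀ c, G' ≠ C c := by
    rintro c rfl
    apply hab
    rw [dpHom_apply, dpHom_apply, map_C, eval_C, eval_C]
  obtain ⟨u, hu⟩ := (chain_spec F₀ n).1 G' hG'
  refine ⟨ofL F₀ (n + 1) u, ?_⟩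
  rw [dpHom_apply, eval_map]
  have h1 := congrArg (ofL F₀ (n + 1)) hu
  rw [map_zero, eval₂_comp_left] at h1
  refine Eq.trans ?_ h1
  have h2 : (ofL F₀ (n + 1)).comp (chainHom F₀ n).f = ofL F₀ n := by
    ext x
    have h3 := ofL_tr F₀ (Nat.le_succ n) x
    have h4 := tr_succ F₀ (le_refl n)
    rw [tr_self] at h4
    rw [← h3]
    change _ = ofL F₀ (n + 1) (tr F₀ (Nat.le_succ_of_le (le_refl n)) x)
    rw [h4]
    rfl
  rw [h2]
  congr 1
  funext v
  exact ((ofD F₀ (n + 1)).jet u v).symm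

theorem lim_s : ∃ s1 s2 : Lim F₀, d1 s1 = 1 ∧ d2 s1 = 0 ∧ d1 s2 = 0 ∧ d2 s2 = 1 := by
  obtain ⟨s1, s2, h1, h2, h3, h4⟩ := (chain_spec F₀ 0).2
  refine ⟨ofL F₀ 1 s1, ofL F₀ 1 s2, ?_, ?_, ?_, ?_⟩
  · rw [← map_one (ofL F₀ 1), ← h1]; exact ((ofD F₀ 1).h1 s1).symm
  · rw [← map_zero (ofL F₀ 1), ← h2]; exact ((ofD F₀ 1).h2 s1).symm
  · rw [← map_zero (ofL F₀ 1), ← h3]; exact ((ofD F₀ 1).h1 s2).symm
  · rw [← map_one (ofL F₀ 1), ← h4]; exact ((ofD F₀ 1).h2 s2).symm

theorem lim_charZero : CharZero (Lim F₀) :=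
  charZero_of_injective_ringHom (f := ofL F₀ 0) (RingHom.injective _)

end lim

/-- The trivial differential field. -/
noncomputable def base : BF where
  K := ℚ
  bd :=
    { d1 := 0
      d2 := 0
      der1 := fun a b => by simp
      der2 := fun a b => by simp
      comm := fun a => by simp }

/-- Existence of a field with two commuting derivations in which every nonconstant differential
polynomial function has a zero. -/
theorem exists_DC : ∃ (F : BF), DC F.K ∧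
    ∃ s1 s2 : F.K, d1 s1 = 1 ∧ d2 s1 = 0 ∧ d1 s2 = 0 ∧ d2 s2 = 1 := by
  have := lim_charZero base
  exact ⟨⟨Lim base⟩, lim_DC base, lim_s base⟩

end Pool.Agent.T9h66.AC
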